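import Mathlib
import Pool.Agent.Lib.MP_44a246_ntO.OG5
import Pool.Agent.Lib.MP_44a246_ntR.GR4
import Pool.Agent.Lib.MP_44a246_ntR.GR5
import Pool.Agent.Lib.MP_44a246_ntSM.SM00
import Pool.Agent.Lib.MP_44a246_ntSF.SFB04
import Pool.Agent.Lib.MP_e52354_ntG.MTrdeg

/-!
# Theorem Y2: the canonical degree is at least `-2`
-/

namespace Pool.Agent.Lib.MP_44a246_ntYT

open Pool.Agent.Lib.MP_e52354_nt
open Pool.Agent.Lib.MP_44a246_nt
open Pool.Agent.Lib.MP_44a246_ntL
open Pool.Agent.Lib.MP_44a246_ntO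
open Pool.Agent.Lib.MP_44a246_ntR
open Pool.Agent.Lib.MP_44a246_ntSM
open Pool.Agent.Lib.MP_44a246_ntSF
open WithZero Module Polynomial

variable {F M : Type*} [Field F] [IsAlgClosed F] [CharZero F] [Field M] [Algebra F M]

/-- the divisor of a derivation over the constants -/
theorem exists_canonD [Algebra (RatFunc F) M] [IsScalarTower F (RatFunc F) M]
    [FiniteDimensional (RatFunc F) M] (D₀ : Derivation ℤ M M)
    (hF : ∀ c : F, D₀ (algebraMap F M c) = 0) (hne : ∃ u, D₀ u ≠ 0) :
    ∃ 𝔎 : Place F M →₀ ℤ,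
      divDeg 𝔎 = (ramDeg F M (RatFunc F) : ℤ) - 2 * finrank (RatFunc F) M ∧
      ∀ (v : Place F M) (π : M), v.1 π = exp (-1 : ℤ) → v.1 (D₀ π) = exp (𝔎 v) := by
  classical
  have hM : IsFF F M := isFF_of_ratFunc F M
  have hcM : CharZero M := charZero_of_injective_algebraMap (algebraMap F M).injective
  let a1 : Algebra F[X] M :=
    ((algebraMap (RatFunc F) M).comp (algebraMap F[X] (RatFunc F))).toAlgebra
  have t1 : IsScalarTower F[X] (RatFunc F) M := IsScalarTower.of_algebraMap_eq fun _ => rfl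
  have t2 : IsScalarTower F F[X] M := IsScalarTower.of_algebraMap_eq fun u => by
    rw [IsScalarTower.algebraMap_apply F (RatFunc F) M u,
      IsScalarTower.algebraMap_apply F F[X] (RatFunc F) u]
    rfl
  let a2 : Algebra (Rinf F) M :=
    ((algebraMap (RatFunc F) M).comp (algebraMap (Rinf F) (RatFunc F))).toAlgebra
  have t3 : IsScalarTower (Rinf F) (RatFunc F) M := IsScalarTower.of_algebraMap_eq fun _ => rfl
  have hinj : Function.Injective (algebraMap F[X] M) :=
    (algebraMap (RatFunc F) M).injective.comp (IsFractionRing.injective F[X] (RatFunc F))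
  have hfs : FaithfulSMul F[X] M := (faithfulSMul_iff_algebraMap_injective F[X] M).2 hinj
  have halg : Algebra.IsAlgebraic F[X] M := by
    have h1 : Algebra.IsAlgebraic (RatFunc F) M := Algebra.IsAlgebraic.of_finite _ _
    exact (IsFractionRing.comap_isAlgebraic_iff (A := F[X]) (K := RatFunc F) (C := M)).mpr h1
  -- the derivative of the variable
  have ht0 : D₀ (algebraMap F[X] M X) ≠ 0 := by
    intro h0
    obtain ⟨u, hu⟩ := hne
    apply hu
    refine Pool.Agent.Lib.MP_e52354_ntG.der_zero_of_isAlgebraic (R := F[X]) D₀ (fun p => ?_)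
      (halg.isAlgebraic u)
    induction p using Polynomial.induction_on' with
    | add p q hp hq => rw [map_add, map_add, hp, hq, add_zero]
    | monomial n c =>
      rw [← C_mul_X_pow_eq_monomial, map_mul, map_pow, Derivation.leibniz, Derivation.leibniz_pow,
        h0, smul_zero, smul_zero, smul_zero, zero_add]
      have h1 : algebraMap F[X] M (C c) = algebraMap F M c := by
        rw [IsScalarTower.algebraMap_apply F F[X] M]
        rfl
      rw [h1, hF, smul_zero]
  obtain ⟨h, hh⟩ : ∃ h : M, h = D₀ (algebraMap F[X] M X) := ⟨_, rfl⟩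
  rw [← hh] at ht0
  obtain ⟨𝔎, h𝔎, hcan⟩ := exists_canon (h⁻¹ • D₀) (κ := F) (M := M) (fun u => by
    rw [Derivation.smul_apply, hF, smul_zero]) (by
    rw [Derivation.smul_apply, ← hh, smul_eq_mul, inv_mul_cancel₀ ht0])
  have hs := hM.place_support ht0
  refine ⟨𝔎 + Finsupp.ofSupportFinite (fun v => log (v.1 h)) hs, ?_, fun v π hπ => ?_⟩
  · have h1 : divDeg (Finsupp.ofSupportFinite (fun v : Place F M => log (v.1 h)) hs) = 0 := by
      unfold divDeg
      rw [Finsupp.sum, ← finsum_eq_sum_of_support_subset]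
      · exact hM.product_formula ht0
      · intro v hv
        rw [Finset.mem_coe, Finsupp.mem_support_iff]
        exact hv
    rw [divDeg_add, h1, add_zero, h𝔎]
  · have h1 := (hcan v).1 π (by
      rw [hπ, ← exp_zero]
      intro h
      have := exp_injective h
      omega)
    rw [Derivation.smul_apply, smul_eq_mul, map_mul, map_inv₀, hπ, ← exp_add] at h1
    have hv0 : v.1 h ≠ 0 := (v.1.ne_zero_iff).2 ht0
    rw [inv_mul_eq_iff_eq_mul₀ hv0] at h1
    rw [h1, Finsupp.add_apply, Finsupp.ofSupportFinite_coe, ← exp_log hv0, log_exp, ← exp_add]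
    congr 1
    ring

omit [CharZero F] in
/-- an element which is not constant is transcendental -/
theorem transcendental_of_ne {f : M} (hf : ∀ c : F, algebraMap F M c ≠ f) :
    Transcendental F f := by
  intro h
  have h1 := IsAlgClosed.degree_eq_one_of_irreducible F (minpoly.irreducible h.isIntegral)
  obtain ⟨c, hc⟩ := minpoly.mem_range_of_degree_eq_one F f h1
  exact hf c hc

/-- **The canonical degree is at least `-2`.** -/
theorem divDeg_canon_ge (hM : IsFF F M) (D₀ : Derivation ℤ M M)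
    (hF : ∀ c : F, D₀ (algebraMap F M c) = 0) (hne : ∃ u, D₀ u ≠ 0) {𝔎 : Place F M →₀ ℤ}
    (h𝔎 : ∀ (v : Place F M) (π : M), v.1 π = exp (-1 : ℤ) → v.1 (D₀ π) = exp (𝔎 v)) :
    -2 ≤ divDeg 𝔎 := by
  classical
  obtain ⟨P⟩ := exists_place hM
  -- a function with a pole of minimal order at `P`
  have hex : ∃ n : ℕ, ∃ f : M, f ∈ rr (Finsupp.single P (n : ℤ)) ∧ ∀ c, algebraMap F M c ≠ f := by
    obtain ⟨m, hm⟩ : ∃ m : ℕ, m = genus F M + 1 := ⟨_, rfl⟩
    refine ⟨m, ?_⟩
    by_contra hcon
    push Not at hcon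
    have h1 := genus_spec hM (Finsupp.single P (m : ℤ))
    rw [divDeg_single] at h1
    have h2 : rr (Finsupp.single P (m : ℤ)) ≤ Submodule.span F {(1 : M)} := by
      intro f hf
      obtain ⟨c, hc⟩ := hcon f hf
      rw [Submodule.mem_span_singleton]
      exact ⟨c, by rw [Algebra.smul_def, mul_one, hc]⟩
    have h3 := Submodule.finrank_mono h2
    have h4 : finrank F (Submodule.span F ({1} : Set M)) ≤ 1 := by
      have := finrank_span_le_card (R := F) ({1} : Set M)
      simpa using this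
    omega
  obtain ⟨n, ⟨f, hf1, hf2⟩, hmin⟩ : ∃ n : ℕ, (∃ f : M, f ∈ rr (Finsupp.single P (n : ℤ)) ∧
      ∀ c, algebraMap F M c ≠ f) ∧ ∀ m < n, ∀ g : M, g ∈ rr (Finsupp.single P (m : ℤ)) →
        ∃ c, algebraMap F M c = g := by
    refine ⟨Nat.find hex, Nat.find_spec hex, fun m hm g hg => ?_⟩
    have h1 := Nat.find_min hex hm
    push Not at h1
    exact h1 g hg
  have hn : n ≠ 0 := by
    rintro rfl
    obtain ⟨c, hc⟩ := const_of_rr_zero hM (f := f) fun v => by
      have h1 := hf1 v
      rwa [Nat.cast_zero, Finsupp.single_zero, Finsupp.zero_apply, exp_zero] at h1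
    exact hf2 c hc
  have hlow : ∀ g : M, g ∈ rr (Finsupp.single P (n : ℤ)) → P.1 g < exp (n : ℤ) →
      ∃ c, algebraMap F M c = g := by
    intro g hg hlt
    by_cases hg0 : g = 0
    · exact ⟨0, by rw [map_zero, hg0]⟩
    refine hmin (n - 1) (by omega) g fun v => ?_
    by_cases hv : v = P
    · subst hv
      rw [Finsupp.single_eq_same]
      have h0 : v.1 g ≠ 0 := (v.1.ne_zero_iff).2 hg0
      rw [← exp_log h0, exp_lt_exp] at hlt
      rw [← exp_log h0, exp_le_exp]
      omega
    · have h1 := hg v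
      rw [Finsupp.single_eq_of_ne hv] at h1 ⊢
      exact h1
  have hfP : P.1 f = exp (n : ℤ) := by
    have h1 := hf1 P
    rw [Finsupp.single_eq_same] at h1
    rcases h1.lt_or_eq with h2 | h2
    · obtain ⟨c, hc⟩ := hlow f hf1 h2
      exact absurd hc (hf2 c)
    · exact h2
  have hf0 : f ≠ 0 := by
    rintro rfl
    exact hf2 0 (map_zero _)
  refine with_ratFunc hM (transcendental_of_ne hf2) ?_
  intro iR tR fR hX
  obtain ⟨𝔎', h1, h2⟩ := exists_canonD D₀ hF hne
  have h𝔎' : 𝔎 = 𝔎' := by
    ext v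
    obtain ⟨π, hπ⟩ := v.2.1 (exp (-1 : ℤ))
    have h3 := h𝔎 v π hπ
    rw [h2 v π hπ] at h3
    exact (exp_injective h3).symm
  rw [h𝔎', h1]
  have htL : tL F M = f := hX
  obtain ⟨P', hP'⟩ := exists_pole F M
  have hP'v : P' = Finsupp.single P (n : ℤ) := by
    ext v
    rw [hP' v, htL]
    by_cases hv : v = P
    · subst hv
      rw [hfP, log_exp, Finsupp.single_eq_same]
      exact max_eq_right (Nat.cast_nonneg _)
    · have h3 := hf1 v
      have h0 : v.1 f ≠ 0 := (v.1.ne_zero_iff).2 hf0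
      rw [Finsupp.single_eq_of_ne hv] at h3 ⊢
      rw [← exp_log h0, exp_le_exp] at h3
      exact max_eq_left h3
  have hfin : (finrank (RatFunc F) M : ℤ) = n := by
    rw [← hP'.deg, hP'v, divDeg_single]
  by_cases hn1 : n = 1
  · rw [hfin, hn1]
    have : (0 : ℤ) ≤ ramDeg F M (RatFunc F) := Nat.cast_nonneg _
    push_cast
    linarith
  · obtain ⟨A, y, hAy⟩ := exists_min hP'
    obtain ⟨j, hj⟩ : ∃ j, 2 ≤ A j := by
      by_contra hcon
      push Not at hcon
      have hy : ∀ j, ∃ a : RatFunc F, algebraMap (RatFunc F) M a = y j := by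
        intro j
        have h3 : y j ∈ rr (Finsupp.single P (n : ℤ)) := by
          intro v
          have h4 := hAy.mem j v
          have h5 := hcon j
          rw [← hP'v]
          refine h4.trans ?_
          rw [exp_le_exp, Finsupp.smul_apply, nsmul_eq_mul]
          have h6 := hP'.nonneg v
          have h7 : (A j : ℤ) ≤ 1 := by
            have : A j ≤ 1 := by omega
            exact_mod_cast this
          nlinarith
        by_cases hlt : P.1 (y j) < exp (n : ℤ)
        · obtain ⟨c, hc⟩ := hlow _ h3 hlt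
          exact ⟨algebraMap F (RatFunc F) c, by
            rw [← IsScalarTower.algebraMap_apply F (RatFunc F) M, hc]⟩
        · have h4 : P.1 (y j) = exp (n : ℤ) := by
            have h5 := h3 P
            rw [Finsupp.single_eq_same] at h5
            exact le_antisymm h5 (not_lt.1 hlt)
          have h5 : P.1 (y j / f) ≤ 1 := by
            rw [map_div₀, h4, hfP, div_self exp_ne_zero]
          obtain ⟨c, hc⟩ := hM.place_residue P h5
          have h6 : P.1 (y j - algebraMap F M c * f) < exp (n : ℤ) := by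
            have h7 : y j - algebraMap F M c * f = (y j / f - algebraMap F M c) * f := by
              field_simp
            rw [h7, map_mul, hfP]
            have h8 : P.1 (y j / f - algebraMap F M c) * exp (n : ℤ) < 1 * exp (n : ℤ) :=
              mul_lt_mul_of_pos_right hc exp_pos
            rwa [one_mul] at h8
          have h7 : y j - algebraMap F M c * f ∈ rr (Finsupp.single P (n : ℤ)) := by
            have h8 : algebraMap F M c * f = c • f := (Algebra.smul_def c f).symm
            rw [h8]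
            exact Submodule.sub_mem _ h3 (Submodule.smul_mem _ c hf1)
          obtain ⟨c', hc'⟩ := hlow _ h7 h6
          refine ⟨algebraMap F (RatFunc F) c' + algebraMap F (RatFunc F) c * RatFunc.X, ?_⟩
          rw [map_add, map_mul, ← IsScalarTower.algebraMap_apply F (RatFunc F) M,
            ← IsScalarTower.algebraMap_apply F (RatFunc F) M, hX, hc']
          ring
      have hn2 : 2 ≤ finrank (RatFunc F) M := by omega
      have h3 := hAy.ind.span_eq_top_of_card_eq_finrank' (Fintype.card_fin _)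
      have h4 : Submodule.span (RatFunc F) (Set.range y) ≤
          Submodule.span (RatFunc F) {(1 : M)} := by
        rw [Submodule.span_le]
        rintro _ ⟨k, rfl⟩
        obtain ⟨a, ha⟩ := hy k
        rw [SetLike.mem_coe, Submodule.mem_span_singleton]
        exact ⟨a, by rw [Algebra.smul_def, mul_one, ha]⟩
      rw [h3, top_le_iff] at h4
      have h5 : finrank (RatFunc F) (Submodule.span (RatFunc F) ({1} : Set M)) ≤ 1 := by
        have := finrank_span_le_card (R := RatFunc F) ({1} : Set M)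
        simpa using this
      rw [h4, finrank_top] at h5
      omega
    have h3 := hAy.pole_le hP' j
    have h4 : 2 * finrank (RatFunc F) M ≤ ramDeg F M (RatFunc F) :=
      (Nat.mul_le_mul_right _ hj).trans h3
    have h5 : (2 * finrank (RatFunc F) M : ℤ) ≤ ramDeg F M (RatFunc F) := by exact_mod_cast h4
    linarith

/-- **The canonical degree is at least `-2`.** -/
theorem canon_ge [Algebra (RatFunc F) M] [IsScalarTower F (RatFunc F) M]
    [FiniteDimensional (RatFunc F) M] :
    -2 ≤ (ramDeg F M (RatFunc F) : ℤ) - 2 * finrank (RatFunc F) M := by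
  obtain ⟨δ, D', -, -, h3, h4, -⟩ := exists_delta (F := F) (U := M) (M := M) (0 : Derivation ℤ M M)
    (fun c => ⟨0, by rw [Derivation.zero_apply, map_zero]⟩)
  have hne : ∃ u, D' u ≠ 0 := ⟨_, by rw [h4]; exact one_ne_zero⟩
  obtain ⟨𝔎, h5, h6⟩ := exists_canonD D' h3 hne
  rw [← h5]
  exact divDeg_canon_ge (isFF_of_ratFunc F M) D' h3 hne h6

/-- **The numeric contradiction.** `κ` is the canonical degree of the limit curve, `a` the degree of
its map to projective space, `q` the number of points of the boundary, `k` and `kX` the degrees of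
the logarithmic canonical divisor and of the canonical divisor. -/
theorem num_final {k kX κ q a : ℤ} {ν : ℚ} (hq : 0 ≤ q) (ha : 1 ≤ a) (hκ : -2 ≤ κ)
    (h1 : k * a ≤ κ + q) (h2 : kX * a ≤ κ)
    (h3 : ∀ σ : ℚ, 0 < σ → σ ≤ 1 → (κ : ℚ) + σ * (2 - σ) * q ≤ 2 * (σ * (ν * a)))
    (hnum : (0 ≤ kX ∧ ν < k) ∨
      ∃ σ : ℚ, 0 < σ ∧ σ ≤ 1 ∧ 2 * σ * ν < -2 + (k + 2) * σ * (2 - σ)) : False := by
  have haq : (1 : ℚ) ≤ a := by exact_mod_cast ha
  have hqq : (0 : ℚ) ≤ q := by exact_mod_cast hq
  have h1q : (k : ℚ) * a ≤ κ + q := by exact_mod_cast h1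
  rcases hnum with ⟨hk, hν⟩ | ⟨σ, hσ0, hσ1, hσ2⟩
  · have hκ0 : (0 : ℚ) ≤ κ := by
      have h4 : 0 ≤ κ := (mul_nonneg hk (by linarith)).trans h2
      exact_mod_cast h4
    have h4 : ν * a < k * a := mul_lt_mul_of_pos_right hν (by linarith)
    obtain ⟨δ, hδ⟩ : ∃ δ : ℚ, δ = κ + q - ν * a := ⟨_, rfl⟩
    have hδ0 : 0 < δ := by linarith
    obtain ⟨σ, hσ0, hσ1, hσ2⟩ : ∃ σ : ℚ, 0 < σ ∧ σ ≤ 1 / 2 ∧ σ * q ≤ δ := by
      refine ⟨min (1 / 2) (δ / (q + 1)), lt_min (by norm_num) (by positivity), min_le_left _ _, ?_⟩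
      have h5 : min (1 / 2) (δ / (q + 1)) * q ≤ δ / (q + 1) * q :=
        mul_le_mul_of_nonneg_right (min_le_right _ _) hqq
      have h6 : δ / (q + 1) * q ≤ δ / (q + 1) * (q + 1) :=
        mul_le_mul_of_nonneg_left (by linarith) (by positivity)
      rw [div_mul_cancel₀ _ (by positivity)] at h6
      linarith
    have h5 := h3 σ hσ0 (by linarith)
    have h6 : ν * a = κ + q - δ := by linarith
    rw [h6] at h5
    have h7 : 0 ≤ κ * (1 - 2 * σ) := mul_nonneg hκ0 (by linarith)
    have h8 : σ * (σ * q) ≤ σ * δ := mul_le_mul_of_nonneg_left hσ2 hσ0.le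
    have h9 : 0 < σ * δ := mul_pos hσ0 hδ0
    nlinarith
  · have h4 := h3 σ hσ0 hσ1
    have hκq : (-2 : ℚ) ≤ κ := by exact_mod_cast hκ
    have hσ3 : 0 ≤ k * (2 - σ) - 2 * ν := by
      by_contra hcon
      have h5 := mul_pos hσ0 (neg_pos.2 (not_le.1 hcon))
      nlinarith [mul_self_nonneg (1 - σ)]
    have h5 : 0 ≤ σ * (2 - σ) * (κ + q - k * a) :=
      mul_nonneg (mul_nonneg hσ0.le (by linarith)) (by linarith)
    have h6 : 0 ≤ (κ + 2) * ((1 - σ) * (1 - σ)) :=
      mul_nonneg (by linarith) (mul_self_nonneg _)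
    have h7 : 0 ≤ (a - 1) * (σ * (k * (2 - σ) - 2 * ν)) :=
      mul_nonneg (by linarith) (mul_nonneg hσ0.le hσ3)
    nlinarith

end Pool.Agent.Lib.MP_44a246_ntYT
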