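import Mathlib
import Pool.Agent.Lib.MP_44a246_ntUQ.UQ08

/-!
# Theorem T2: the output over the field of the point
-/

namespace Pool.Agent.Lib.MP_44a246_ntUV

open Pool.Agent.Lib.MP_44a246_nt
open Pool.Agent.Lib.MP_44a246_ntL
open Pool.Agent.Lib.MP_44a246_ntS
open Pool.Agent.Lib.MP_44a246_ntX
open Pool.Agent.Lib.MP_44a246_ntG
open Pool.Agent.Lib.MP_44a246_ntK
open Pool.Agent.Lib.MP_44a246_ntSH
open Pool.Agent.Lib.MP_44a246_ntSP
open Pool.Agent.Lib.MP_44a246_ntR (genus)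
open Pool.Agent.Lib.MP_e52354_nt
open WithZero Module

universe u v w

/-- **The output over the field of the point**, on an arbitrary variety, for points whose number of
contact places is less than `∑ d - n - 1` times the height. -/
theorem level_colG1 (p q : ℕ) (hp : 1 ≤ p) (ε : ℝ) (hε : 0 < ε) : ∃ n₀ : ℕ,
    ∀ (n : ℕ) (d : Fin p → ℕ), n₀ ≤ n → (∀ j, 1 ≤ d j) → n + 2 ≤ ∑ j, d j →
    ∃ B C : ℕ, ∀ (κ : Type u) (L : Type w) [Field κ] [IsAlgClosed κ] [CharZero κ] [Field L]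
      [CharZero L] [Algebra κ L], IsFF κ L → ∀ (X : DatSC κ (L := L) n d) (v : Fin p → L)
      (g : Fin p → Fin (n + 1) → L), ColC X.toDatC v g → ∀ S : Finset (Place κ L),
      (∀ w ∉ S, ∀ j, v j ≠ 0 → w.1 (v j) = vmax w.1 X.x ^ d j) →
      (S.card : ℤ) ≤ q * height κ X.x →
      (S.card : ℝ) + ε * height κ X.x ≤ ((∑ j, d j : ℕ) - (n + 1) : ℝ) * height κ X.x →
      height κ X.x ≤ C * (X.toDatC.Δ + X.toDatC.R + genus κ L + 1) ∨
      CertV κ B 1 (C * (X.toDatC.Δ + X.toDatC.R + genus κ L + 1)) X.x := by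
  obtain ⟨n₀, Cb, h⟩ := Pool.Agent.Lib.MP_44a246_ntUQ.level_colG1.{u, w} p q (p * (4 * p + 1) * (q + 3)) (min ε 1) hp rfl
    (lt_min hε one_pos) (min_le_right _ _)
  refine ⟨n₀, fun n d hn hd1 hd => ?_⟩
  obtain ⟨C, hC⟩ := h n d hn hd1 hd
  refine ⟨Cb * n + n / (400 * (p * (4 * p + 1) * (q + 3))), C, ?_⟩
  intro κ L _ _ _ _ _ _ hL X v g hc S hS hSq hSε
  have hΔ0 := X.toDatC.Δ_nonneg
  have hR0 := X.toDatC.R_nonneg
  have hg0 : (0 : ℤ) ≤ genus κ L := Int.natCast_nonneg _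
  rcases lt_or_ge (height κ X.x) 0 with hneg | hpos
  · refine Or.inl (hneg.le.trans (mul_nonneg (Int.natCast_nonneg _) ?_))
    linarith
  have hH0 : (0 : ℝ) ≤ height κ X.x := by exact_mod_cast hpos
  have h1 : (S.card : ℝ) + min ε 1 * height κ X.x ≤
      ((∑ j, d j : ℕ) - (n : ℝ) - 1) * height κ X.x := by
    have h2 : min ε 1 * height κ X.x ≤ ε * height κ X.x :=
      mul_le_mul_of_nonneg_right (min_le_left _ _) hH0
    have h3 : ((∑ j, d j : ℕ) - (n : ℝ) - 1) = ((∑ j, d j : ℕ) - (n + 1) : ℝ) := by ring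
    rw [h3]
    linarith
  rcases hC κ L hL X v g hc S hS hSq h1 with h2 | h2 | h2
  · exact Or.inl h2
  · exact Or.inr ((h2.anti (Nat.le_add_left 1 _)).mono (Nat.le_add_right _ _) le_rfl)
  · exact Or.inr (h2.mono (Nat.le_add_left _ _) le_rfl)

end Pool.Agent.Lib.MP_44a246_ntUV
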