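import Mathlib
import Pool.Agent.Lib.MP_44a246_ntSM.SM00
import Pool.Agent.Lib.MP_44a246_ntSM.SM03a
import Pool.Agent.Lib.MP_44a246_ntSM.SM03b

/-!
# Theorem Y2: polynomials in the derivative which vanish along a divisor
-/

namespace Pool.Agent.Lib.MP_44a246_ntYT

open Pool.Agent.Lib.MP_44a246_ntSM

open Pool.Agent.Lib.MP_e52354_nt
open Pool.Agent.Lib.MP_44a246_nt
open Pool.Agent.Lib.MP_44a246_ntL
open Pool.Agent.Lib.MP_44a246_ntO
open Pool.Agent.Lib.MP_44a246_ntR
open Pool.Agent.Lib.MP_44a246_ntS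
open WithZero Module Polynomial

section Dim

variable {F M : Type*} [Field F] [IsAlgClosed F] [CharZero F] [Field M] [Algebra F M]

omit [IsAlgClosed F] [CharZero F] in
private theorem divDeg_nsmul (m : ℕ) (D : Place F M →₀ ℤ) : divDeg (m • D) = m * divDeg D := by
  induction m with
  | zero =>
    rw [zero_smul, Nat.cast_zero, zero_mul]
    rfl
  | succ m ih =>
    rw [succ_nsmul, divDeg_add, ih]
    push_cast
    ring

/-- the divisor of the integral parts of `i * c` -/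
private noncomputable def flr (c : Place F M →₀ ℚ) (i : ℕ) : Place F M →₀ ℤ :=
  c.mapRange (fun x => ⌊(i : ℚ) * x⌋) (by rw [mul_zero, Int.floor_zero])

omit [IsAlgClosed F] [CharZero F] in
private theorem divDeg_flr (c : Place F M →₀ ℚ) (i : ℕ) :
    (i : ℚ) * c.sum (fun _ x => x) - c.support.card ≤ (divDeg (flr c i) : ℚ) := by
  unfold divDeg flr
  rw [Finsupp.sum_mapRange_index (fun _ => rfl)]
  unfold Finsupp.sum
  rw [Finset.mul_sum, Int.cast_sum, Finset.card_eq_sum_ones, Nat.cast_sum,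
    ← Finset.sum_sub_distrib]
  refine Finset.sum_le_sum fun v _ => ?_
  have := (Int.sub_one_lt_floor ((i : ℚ) * c v)).le
  simpa using this

omit [IsAlgClosed F] [CharZero F] in
private theorem divDeg_neg (D : Place F M →₀ ℤ) : divDeg (-D) = - divDeg D := by
  have h := divDeg_add D (-D)
  rw [add_neg_cancel] at h
  have h0 : divDeg (0 : Place F M →₀ ℤ) = 0 := rfl
  rw [h0] at h
  linarith

omit [IsAlgClosed F] [CharZero F] in
/-- the divisor `B` -/
private theorem divDeg_sum_single (B : Finset (Place F M)) :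
    divDeg (∑ v ∈ B, Finsupp.single v (1 : ℤ)) = B.card := by
  classical
  induction B using Finset.induction_on with
  | empty =>
    rw [Finset.sum_empty, Finset.card_empty]
    rfl
  | insert v B hv ih =>
    rw [Finset.sum_insert hv, divDeg_add, divDeg_single, ih, Finset.card_insert_of_notMem hv]
    push_cast
    ring

omit [IsAlgClosed F] [CharZero F] in
private theorem sum_single_apply [DecidableEq (Place F M)] (B : Finset (Place F M))
    (v : Place F M) :
    (∑ w ∈ B, Finsupp.single w (1 : ℤ)) v = if v ∈ B then 1 else 0 := by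
  classical
  rw [Finsupp.finsetSum_apply]
  by_cases hv : v ∈ B
  · rw [if_pos hv, Finset.sum_eq_single v]
    · exact Finsupp.single_eq_same
    · intro w _ hw
      exact Finsupp.single_eq_of_ne hw.symm
    · intro h
      exact absurd hv h
  · rw [if_neg hv]
    refine Finset.sum_eq_zero fun w hw => Finsupp.single_eq_of_ne ?_
    rintro rfl
    exact hv hw

private theorem sum_min (s k : ℕ) :
    ∑ i ∈ Finset.range (s + k + 1), ((min i s : ℕ) : ℚ) = s * (s + 1) / 2 + k * s := by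
  induction k with
  | zero =>
    rw [add_zero, Finset.sum_congr rfl (g := fun i : ℕ => (i : ℚ)) fun i hi => by
      rw [min_eq_left (Nat.lt_succ_iff.1 (Finset.mem_range.1 hi))]]
    have h1 : ∀ n : ℕ, ∑ i ∈ Finset.range (n + 1), (i : ℚ) = n * (n + 1) / 2 := by
      intro n
      induction n with
      | zero => simp
      | succ n ih =>
        rw [Finset.sum_range_succ, ih]
        push_cast
        ring
    rw [h1]
    ring
  | succ k ih =>
    rw [← add_assoc, Finset.sum_range_succ, ih, min_eq_right (by omega)]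
    push_cast
    ring

/-- the degree which is needed -/
private theorem exists_degT {χ θ σ : ℚ} {a b : ℕ} (hθ0 : 0 ≤ θ) (hσ0 : 0 < σ) (hσ1 : σ ≤ 1)
    (hχ : 2 * θ * a < χ + σ * (2 - σ) * b) (m : ℚ) : ∃ n : ℕ, 0 < n ∧ (2 : ℚ) ≤
      ∑ i ∈ Finset.range (n + 1), ((i : ℚ) * χ + (b : ℚ) * ((min i ⌊σ * n⌋₊ : ℕ) : ℚ) - m -
        (⌈θ * n⌉₊ : ℚ) * a) := by
  have h1 : ∀ n : ℕ, ∀ t : ℚ, ∑ i ∈ Finset.range (n + 1), ((i : ℚ) * χ - m - t) =
      (n + 1) * (n * χ / 2 - m - t) := by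
    intro n t
    induction n with
    | zero => simp
    | succ n ih =>
      rw [Finset.sum_range_succ, ih]
      push_cast
      ring
  have hε : 0 < (χ + σ * (2 - σ) * b) / 2 - θ * a := by linarith
  obtain ⟨n, hn⟩ := exists_nat_gt ((2 + |m| + a + 2 * b) / ((χ + σ * (2 - σ) * b) / 2 - θ * a))
  have haq : (0 : ℚ) ≤ a := Nat.cast_nonneg a
  have hbq : (0 : ℚ) ≤ b := Nat.cast_nonneg b
  refine ⟨n, ?_, ?_⟩
  · rw [Nat.pos_iff_ne_zero]
    rintro rfl
    have : (0 : ℚ) ≤ (2 + |m| + a + 2 * b) / ((χ + σ * (2 - σ) * b) / 2 - θ * a) := by positivity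
    rw [Nat.cast_zero] at hn
    linarith
  · obtain ⟨s, hs⟩ : ∃ s : ℕ, s = ⌊σ * n⌋₊ := ⟨_, rfl⟩
    have hnq : (0 : ℚ) ≤ n := Nat.cast_nonneg n
    have hs1 : (s : ℚ) ≤ σ * n := by
      rw [hs]
      exact Nat.floor_le (by positivity)
    have hs2 : σ * n < s + 1 := by
      rw [hs]
      exact Nat.lt_floor_add_one _
    have hsn' : (s : ℚ) ≤ n := by
      have : σ * n ≤ 1 * n := mul_le_mul_of_nonneg_right hσ1 hnq
      linarith
    have hsn : s ≤ n := by exact_mod_cast hsn'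
    obtain ⟨k, hk⟩ : ∃ k, n = s + k := ⟨n - s, by omega⟩
    have hsum := sum_min s k
    have hkq : (k : ℚ) = n - s := by
      rw [hk]
      push_cast
      ring
    rw [← hk, hkq] at hsum
    have hmin : ((n : ℚ) + 1) * (n * (σ * (2 - σ)) / 2 - 2) ≤
        ∑ i ∈ Finset.range (n + 1), ((min i s : ℕ) : ℚ) := by
      rw [hsum]
      obtain ⟨δ, hδ⟩ : ∃ δ : ℚ, δ = σ * n - s := ⟨_, rfl⟩
      have hδ0 : 0 ≤ δ := by linarith
      have hδ1 : δ ≤ 1 := by linarith
      have hsδ : (s : ℚ) = σ * n - δ := by linarith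
      have hs0 : (0 : ℚ) ≤ σ * n - δ := by
        rw [← hsδ]
        exact Nat.cast_nonneg s
      rw [hsδ]
      have e1 : (0 : ℚ) ≤ n * (1 - δ) := mul_nonneg hnq (by linarith)
      have e2 : (0 : ℚ) ≤ σ * n * δ := by positivity
      have e3 : δ * δ ≤ 1 := by nlinarith
      have e4 : (0 : ℚ) ≤ n * (1 - σ * (2 - σ)) := by
        refine mul_nonneg hnq ?_
        nlinarith [sq_nonneg (1 - σ)]
      nlinarith
    have hsplit : ∑ i ∈ Finset.range (n + 1), ((i : ℚ) * χ + (b : ℚ) * ((min i s : ℕ) : ℚ) - m -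
        (⌈θ * n⌉₊ : ℚ) * a) = (n + 1) * (n * χ / 2 - m - (⌈θ * n⌉₊ : ℚ) * a) +
        b * ∑ i ∈ Finset.range (n + 1), ((min i s : ℕ) : ℚ) := by
      rw [← h1 n ((⌈θ * n⌉₊ : ℚ) * a), Finset.mul_sum, ← Finset.sum_add_distrib]
      refine Finset.sum_congr rfl fun i _ => ?_
      ring
    rw [← hs, hsplit]
    rw [div_lt_iff₀ hε] at hn
    have h3 : (⌈θ * n⌉₊ : ℚ) ≤ θ * n + 1 := (Nat.ceil_lt_add_one (by positivity)).le
    have h4 : (⌈θ * n⌉₊ : ℚ) * a ≤ (θ * n + 1) * a := mul_le_mul_of_nonneg_right h3 haq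
    have h6 := mul_le_mul_of_nonneg_left hmin hbq
    have h2 : (2 : ℚ) ≤ n * χ / 2 - m - (⌈θ * n⌉₊ : ℚ) * a +
        b * (n * (σ * (2 - σ)) / 2 - 2) := by
      have := le_abs_self m
      nlinarith
    have h5 : (1 : ℚ) ≤ n + 1 := by linarith
    have h7 : (2 : ℚ) ≤ (n + 1) * (n * χ / 2 - m - (⌈θ * n⌉₊ : ℚ) * a +
        b * (n * (σ * (2 - σ)) / 2 - 2)) := by nlinarith
    refine h7.trans ?_
    have h8 : (n + 1) * (n * χ / 2 - m - (⌈θ * n⌉₊ : ℚ) * a +
        b * (n * (σ * (2 - σ)) / 2 - 2)) = (n + 1) * (n * χ / 2 - m - (⌈θ * n⌉₊ : ℚ) * a) +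
        b * ((n + 1) * (n * (σ * (2 - σ)) / 2 - 2)) := by ring
    rw [h8]
    linarith

end Dim

section

variable {κ M : Type*} [Field κ] [IsAlgClosed κ] [CharZero κ] [Field M] [Algebra κ M]
  [Algebra κ[X] M] [IsScalarTower κ κ[X] M]
  [Algebra (RatFunc κ) M] [IsScalarTower κ (RatFunc κ) M] [IsScalarTower κ[X] (RatFunc κ) M]
  [Algebra (Rinf κ) M] [IsScalarTower (Rinf κ) (RatFunc κ) M]
  [FiniteDimensional (RatFunc κ) M]

private theorem exists_jet_aux (δ D' : Derivation ℤ M M)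
    (hδX : δ (algebraMap κ[X] M X) = 0)
    (hδF : ∀ c : κ, ∃ c' : κ, δ (algebraMap κ M c) = algebraMap κ M c')
    (hκ : ∀ c : κ, D' (algebraMap κ M c) = 0) (hX : D' (algebraMap κ[X] M X) = 1)
    (c : Place κ M →₀ ℚ) (hc1 : ∀ v, c v ≤ 1) (A : Place κ M →₀ ℤ) (hA : ∀ v, 0 ≤ A v)
    (B : Finset (Place κ M)) (hcB : ∀ v ∈ B, c v = 0)
    {θ σ : ℚ} (hθ0 : 0 ≤ θ) (hσ0 : 0 < σ) (hσ1 : σ ≤ 1)
    (hdeg : 2 * θ * divDeg A < (((ramDeg κ M (RatFunc κ) : ℤ) -
      2 * finrank (RatFunc κ) M : ℤ) : ℚ) + c.sum (fun _ x => x) + σ * (2 - σ) * B.card) :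
    ∃ (n t s : ℕ) (Θ : M[X]), 0 < n ∧ θ * n ≤ t ∧ (s : ℚ) ≤ σ * n ∧ 0 < Θ.natDegree ∧
      ∀ (v : Place κ M) (π : M), v.1 π = exp (-1 : ℤ) →
      ∃ b : M[X], (∀ i, (v ∉ B → v.1 (b.coeff i) ≤ exp (⌊(i : ℚ) * c v⌋ - t * A v)) ∧
        (v ∈ B → v.1 (b.coeff i) ≤ exp (((min i s : ℕ) : ℤ) - t * A v))) ∧
        Θ = b.comp ((X - C (- δ π / D' π)) * C (D' π)) := by
  classical
  have hFF : IsFF κ M := isFF_of_ratFunc κ M
  obtain ⟨𝔎, h𝔎, hcan⟩ := exists_canon D' hκ hX
  rw [← h𝔎] at hdeg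
  -- `v (D' π) = exp (𝔎 v)`
  have hunif : ∀ (v : Place κ M) (π : M), v.1 π = exp (-1 : ℤ) → v.1 (D' π) = exp (𝔎 v) := by
    intro v π hπ
    rw [(hcan v).1 π (by
      rw [hπ, ← exp_zero]
      intro h
      have := exp_injective h
      omega), hπ, ← exp_add]
    congr 1
    ring
  -- the bad places
  obtain ⟨S, hS⟩ : ∃ S : Finset (Place κ M), S =
    (hFF.ramIdx_finite (K := RatFunc κ)).toFinset ∪ 𝔎.support ∪ c.support ∪ A.support ∪ B :=
    ⟨_, rfl⟩
  have hS1 : ∀ v, v ∉ S → ramIdx (RatFunc κ) v.1 = 1 ∧ 𝔎 v = 0 ∧ c v = 0 ∧ A v = 0 ∧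
      v ∉ B := by
    intro v hv
    rw [hS, Finset.mem_union, Finset.mem_union, Finset.mem_union, Finset.mem_union, not_or,
      not_or, not_or, not_or,
      Set.Finite.mem_toFinset, Finsupp.notMem_support_iff, Finsupp.notMem_support_iff,
      Finsupp.notMem_support_iff] at hv
    refine ⟨?_, hv.1.1.1.2, hv.1.1.2, hv.1.2, hv.2⟩
    by_contra h
    exact hv.1.1.1.1 h
  have hinf := infinite_place hFF
  obtain ⟨P, hP⟩ := Infinite.exists_notMem_finset S
  obtain ⟨hP1, hP2, hP3, hP4, hP5⟩ := hS1 P hP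
  -- the approximation
  have hpi : ∀ v : Place κ M, ∃ π : M, v.1 π = exp (-1 : ℤ) := fun v => v.2.1 _
  choose ϖ hϖ using hpi
  obtain ⟨e, he⟩ : ∃ e : Place κ M → ℤ, e = fun v => if v ∈ S then 1 else 0 := ⟨_, rfl⟩
  have heS : ∀ v, v ∈ S → e v = 1 := fun v hv => by rw [he]; exact if_pos hv
  have heN : ∀ v, v ∉ S → e v = 0 := fun v hv => by rw [he]; exact if_neg hv
  obtain ⟨D, hD⟩ : ∃ D : Place κ M →₀ ℤ, ∀ v, D v = - 𝔎 v - e v := by
    refine ⟨Finsupp.onFinset S (fun v => - 𝔎 v - e v) (fun v hv => ?_), fun v => rfl⟩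
    by_contra h
    rw [(hS1 v h).2.1, heN v h] at hv
    exact hv rfl
  obtain ⟨ρ, hρ1, hρ2⟩ := approx_all hFF D (fun v => - δ (ϖ v) / D' (ϖ v)) S hP
  have hρ : ∀ v, v ≠ P → ∀ π, v.1 π = exp (-1 : ℤ) →
      v.1 (- δ π / D' π - ρ) ≤ exp (- 𝔎 v - e v) := by
    intro v hv π hπ
    by_cases hvS : v ∈ S
    · have e1 : - δ π / D' π - ρ = (- δ π / D' π - (- δ (ϖ v) / D' (ϖ v))) +
          (- δ (ϖ v) / D' (ϖ v) - ρ) := by ring
      rw [e1]
      refine (v.1.map_add _ _).trans (max_le ?_ ?_)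
      · rw [heS v hvS]
        exact centre_close v δ D' hδX hδF hκ hX hπ (hϖ v) (hunif v _ (hϖ v))
      · rw [← hD]
        exact hρ1 v hvS
    · obtain ⟨h1, h2, h3, -⟩ := hS1 v hvS
      refine (v.1.map_sub _ _).trans (max_le ?_ ?_)
      · rw [heN v hvS, h2, neg_zero, sub_zero, exp_zero]
        exact centre_int v δ D' hδX hδF hπ h1 (by rw [hunif v π hπ, h2, exp_zero])
      · rw [← hD]
        exact hρ2 v hv hvS
  obtain ⟨q, hq⟩ : ∃ q : ℕ, P.1 ρ ≤ exp (q : ℤ) := by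
    by_cases h0 : P.1 ρ = 0
    · exact ⟨0, by rw [h0]; exact zero_le⟩
    · refine ⟨(log (P.1 ρ)).toNat, ?_⟩
      rw [← exp_log h0, exp_le_exp, log_exp]
      exact Int.self_le_toNat _
  -- the degree
  have hA0 : 0 ≤ divDeg A := Finsupp.sum_nonneg fun v _ => hA v
  obtain ⟨dA, hdA⟩ : ∃ a : ℕ, (a : ℤ) = divDeg A := ⟨_, Int.toNat_of_nonneg hA0⟩
  obtain ⟨n, hn0, hn⟩ := exists_degT (a := dA) (b := B.card) hθ0 hσ0 hσ1 (by
    have h1 : ((dA : ℤ) : ℚ) = (divDeg A : ℚ) := by rw [hdA]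
    rw [Int.cast_natCast] at h1
    rw [h1]
    exact hdeg) (c.support.card + (genus κ M : ℚ) - 1)
  obtain ⟨t, ht⟩ : ∃ t : ℕ, t = ⌈θ * n⌉₊ := ⟨_, rfl⟩
  obtain ⟨s, hs⟩ : ∃ s : ℕ, s = ⌊σ * n⌋₊ := ⟨_, rfl⟩
  rw [← ht, ← hs] at hn
  obtain ⟨BB, hBB⟩ : ∃ BB : Place κ M →₀ ℤ, BB = ∑ v ∈ B, Finsupp.single v (1 : ℤ) := ⟨_, rfl⟩
  have hBBv : ∀ v, BB v = if v ∈ B then 1 else 0 := fun v => by rw [hBB, sum_single_apply]
  obtain ⟨E, hE⟩ : ∃ E : Fin (n + 1) → Place κ M →₀ ℤ, E = fun i : Fin (n + 1) =>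
    (i : ℕ) • 𝔎 + flr c i + Finsupp.single P ((q * (n - i) : ℕ) : ℤ) + t • (-A) +
      (min (i : ℕ) s) • BB := ⟨_, rfl⟩
  have hEv : ∀ i v, v ≠ P → E i v = (i : ℕ) * 𝔎 v + (⌊((i : ℕ) : ℚ) * c v⌋ +
      ((min (i : ℕ) s : ℕ) : ℤ) * (if v ∈ B then 1 else 0) - t * A v) := by
    intro i v hv
    rw [hE]
    simp only
    rw [Finsupp.add_apply, Finsupp.add_apply, Finsupp.add_apply, Finsupp.add_apply,
      Finsupp.smul_apply, Finsupp.smul_apply, Finsupp.smul_apply, Finsupp.neg_apply,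
      nsmul_eq_mul, nsmul_eq_mul, nsmul_eq_mul, Finsupp.single_eq_of_ne hv, add_zero, hBBv]
    have : (flr c i) v = ⌊((i : ℕ) : ℚ) * c v⌋ := rfl
    rw [this]
    ring
  have hEP : ∀ i : Fin (n + 1), E i P = ((q * (n - i) : ℕ) : ℤ) := by
    intro i
    rw [hE]
    simp only
    rw [Finsupp.add_apply, Finsupp.add_apply, Finsupp.add_apply, Finsupp.add_apply,
      Finsupp.smul_apply, Finsupp.smul_apply, Finsupp.smul_apply, Finsupp.neg_apply, hP2, hP4,
      hBBv, if_neg hP5, neg_zero, nsmul_zero, nsmul_zero, nsmul_zero, Finsupp.single_eq_same]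
    have : (flr c i) P = 0 := by
      unfold flr
      rw [Finsupp.mapRange_apply, hP3, mul_zero, Int.floor_zero]
    rw [this]
    ring
  have hfd : ∀ i, FiniteDimensional κ (rr (E i)) := fun i => finite_rr hFF (E i)
  -- the coefficients of `Θ = ∑ a_i (T - ρ) ^ i` as linear forms
  obtain ⟨φ, hφ⟩ : ∃ φ : ℕ → (∀ i, rr (E i)) →ₗ[κ] M, ∀ j a, φ j a =
      ∑ i : Fin (n + 1), (a i : M) * ((-ρ) ^ ((i : ℕ) - j) * ((i : ℕ).choose j : M)) := by
    refine ⟨fun j => ∑ i : Fin (n + 1),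
      (LinearMap.mulRight κ ((-ρ) ^ ((i : ℕ) - j) * ((i : ℕ).choose j : M))) ∘ₗ
        (rr (E i)).subtype ∘ₗ LinearMap.proj i, fun j a => ?_⟩
    rw [LinearMap.sum_apply]
    rfl
  have hcond : ∀ j ∈ Finset.range (n + 1), ∀ a ∈ (⊤ : Submodule κ (∀ i, rr (E i))),
      P.1 (φ j a) ≤ exp ((q * (n - j) : ℕ) : ℤ) := by
    intro j _ a _
    rw [hφ]
    refine P.1.map_sum_le fun i _ => ?_
    rcases lt_or_ge (i : ℕ) j with h | h
    · rw [Nat.choose_eq_zero_of_lt h, Nat.cast_zero, mul_zero, mul_zero, map_zero]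
      exact zero_le
    · rw [map_mul, map_mul, map_pow, Valuation.map_neg]
      have h1 : P.1 (a i : M) ≤ exp ((q * (n - i) : ℕ) : ℤ) := by
        rw [← hEP]
        exact (a i).2 P
      have h2 : P.1 ρ ^ ((i : ℕ) - j) ≤ exp ((q * (i - j) : ℕ) : ℤ) := by
        refine (pow_le_pow_left' hq _).trans ?_
        rw [← exp_nsmul, exp_le_exp, nsmul_eq_mul]
        push_cast
        rw [mul_comm]
      calc P.1 (a i : M) * (P.1 ρ ^ ((i : ℕ) - j) * P.1 ((i : ℕ).choose j : M))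
          ≤ exp ((q * (n - i) : ℕ) : ℤ) * (exp ((q * (i - j) : ℕ) : ℤ) * 1) :=
            mul_le_mul' h1 (mul_le_mul' h2 (sm_natCast_le _ _))
        _ ≤ _ := by
          rw [mul_one, ← exp_add, exp_le_exp]
          have h3 : (i : ℕ) ≤ n := Nat.lt_succ_iff.mp i.2
          rw [← Nat.cast_add, ← mul_add]
          apply le_of_eq
          congr 2
          omega
  obtain ⟨V', -, hV', hfr⟩ := cond_all hFF P (Finset.range (n + 1)) φ (fun j => q * (n - j)) ⊤ hcond
  -- the dimension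
  have hdim : 2 ≤ finrank κ V' := by
    have h1 : finrank κ (⊤ : Submodule κ (∀ i, rr (E i))) = ∑ i, finrank κ (rr (E i)) := by
      rw [finrank_top, finrank_pi_fintype]
    have h2 : ∀ i : Fin (n + 1), (((i : ℕ) : ℚ) * ((divDeg 𝔎 : ℚ) + c.sum fun _ x => x) -
        (c.support.card + (genus κ M : ℚ) - 1) - (t : ℚ) * dA +
          (B.card : ℚ) * ((min (i : ℕ) s : ℕ) : ℚ)) +
          ((q * (n - i) : ℕ) : ℚ) ≤ (finrank κ (rr (E i)) : ℚ) := by
      intro i
      have h3 := genus_spec hFF (E i)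
      have h4 : divDeg (E i) = (i : ℕ) * divDeg 𝔎 + divDeg (flr c i) + ((q * (n - i) : ℕ) : ℤ) -
          t * dA + ((min (i : ℕ) s : ℕ) : ℤ) * B.card := by
        rw [hE]
        simp only
        rw [divDeg_add, divDeg_add, divDeg_add, divDeg_add, divDeg_single, divDeg_nsmul,
          divDeg_nsmul, divDeg_nsmul, divDeg_neg, hdA, hBB, divDeg_sum_single]
        ring
      rw [h4] at h3
      have h5 : ((((i : ℕ) * divDeg 𝔎 + divDeg (flr c i) + ((q * (n - i) : ℕ) : ℤ) -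
        t * dA + ((min (i : ℕ) s : ℕ) : ℤ) * B.card) + 1 -
        (genus κ M : ℤ) : ℤ) : ℚ) ≤ ((finrank κ (rr (E i)) : ℤ) : ℚ) := by exact_mod_cast h3
      have h6 := divDeg_flr c i
      push_cast at h5 ⊢
      linarith
    have h3 : ((∑ i : Fin (n + 1), finrank κ (rr (E i)) : ℕ) : ℚ) ≤
        (finrank κ V' : ℚ) + ∑ j ∈ Finset.range (n + 1), ((q * (n - j) : ℕ) : ℚ) := by
      rw [← h1]
      exact_mod_cast hfr
    have h4 := Finset.sum_le_sum fun i (_ : i ∈ (Finset.univ : Finset (Fin (n + 1)))) => h2 i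
    rw [Finset.sum_add_distrib, Fin.sum_univ_eq_sum_range (fun i : ℕ => ((i : ℚ) *
      ((divDeg 𝔎 : ℚ) + c.sum fun _ x => x) - (c.support.card + (genus κ M : ℚ) - 1) -
        (t : ℚ) * dA + (B.card : ℚ) * ((min i s : ℕ) : ℚ))),
      Fin.sum_univ_eq_sum_range (fun i : ℕ => ((q * (n - i) : ℕ) : ℚ))] at h4
    have hn' : (2 : ℚ) ≤ ∑ i ∈ Finset.range (n + 1), ((i : ℚ) *
      ((divDeg 𝔎 : ℚ) + c.sum fun _ x => x) - (c.support.card + (genus κ M : ℚ) - 1) -
        (t : ℚ) * dA + (B.card : ℚ) * ((min i s : ℕ) : ℚ)) := by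
      refine hn.trans (le_of_eq (Finset.sum_congr rfl fun i _ => ?_))
      ring
    push_cast at h3 h4 hn'
    have h5 : (2 : ℚ) ≤ (finrank κ V' : ℚ) := by linarith
    exact_mod_cast h5
  -- an element of positive degree
  obtain ⟨a, haV, i₀, hi₀, ha₀⟩ : ∃ a ∈ V', ∃ i₀ : Fin (n + 1), (i₀ : ℕ) ≠ 0 ∧ (a i₀ : M) ≠ 0 := by
    by_contra hcon
    push Not at hcon
    -- all elements of `V'` have a constant coefficient of degree `0`
    have hc0 : ∀ a ∈ V', ∃ r : κ, algebraMap κ M r = (a 0 : M) := by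
      intro a ha
      have h3 : ∀ i : Fin (n + 1), (i : ℕ) ≠ 0 → (a i : M) = 0 := hcon a ha
      have h4 : ∀ v : Place κ M, v.1 (a 0 : M) ≤ 1 := by
        intro v
        by_cases hv : v = P
        · have h5 := hV' 0 (Finset.mem_range.mpr (Nat.succ_pos n)) a ha
          rw [hφ, Finset.sum_eq_single 0] at h5
          · rw [hv]
            simpa using h5
          · intro b _ hb
            rw [h3 b (fun h => hb (Fin.ext h)), zero_mul]
          · intro h
            exact absurd (Finset.mem_univ _) h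
        · have h5 := (a 0).2 v
          rw [hEv 0 v hv] at h5
          refine h5.trans ?_
          rw [← exp_zero, exp_le_exp]
          have h6 := mul_nonneg (Nat.cast_nonneg (α := ℤ) t) (hA v)
          simp
          exact h6
      exact const_of_rr_zero hFF h4
    obtain ⟨a₁, ha₁, hne₁⟩ : ∃ a ∈ V', a ≠ 0 := by
      by_contra hcon'
      push Not at hcon'
      have h1 : V' = ⊥ := (Submodule.eq_bot_iff _).2 hcon'
      rw [h1, finrank_bot] at hdim
      omega
    have h1 : V' ≤ Submodule.span κ {a₁} := by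
      intro a ha
      obtain ⟨r, hr⟩ := hc0 a ha
      obtain ⟨r₁, hr₁⟩ := hc0 a₁ ha₁
      have hr₁0 : r₁ ≠ 0 := by
        rintro rfl
        apply hne₁
        funext i
        apply Subtype.ext
        by_cases hi : (i : ℕ) = 0
        · have : i = 0 := Fin.ext hi
          rw [this, ← hr₁, map_zero]
          rfl
        · rw [hcon a₁ ha₁ i hi]
          rfl
      rw [Submodule.mem_span_singleton]
      refine ⟨r / r₁, ?_⟩
      funext i
      apply Subtype.ext
      rw [Pi.smul_apply, Submodule.coe_smul, Algebra.smul_def]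
      by_cases hi : (i : ℕ) = 0
      · have : i = 0 := Fin.ext hi
        rw [this, ← hr₁, ← hr, ← map_mul, div_mul_cancel₀ _ hr₁0]
      · rw [hcon a ha i hi, hcon a₁ ha₁ i hi, mul_zero]
    have h3 := Submodule.finrank_mono h1
    have h4 : finrank κ (Submodule.span κ ({a₁} : Set (∀ i, rr (E i)))) ≤ 1 := by
      have := finrank_span_le_card (R := κ) ({a₁} : Set (∀ i, rr (E i)))
      simpa using this
    omega
  -- the polynomial
  obtain ⟨Θ, hΘ⟩ : ∃ Θ : M[X], Θ = ∑ i : Fin (n + 1), C (a i : M) * (X - C ρ) ^ (i : ℕ) := ⟨_, rfl⟩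
  have hcoe : ∀ j, Θ.coeff j = φ j a := by
    intro j
    rw [hΘ, finsetSum_coeff, hφ]
    refine Finset.sum_congr rfl fun i _ => ?_
    rw [coeff_C_mul, sub_eq_add_neg, ← C_neg, coeff_X_add_C_pow]
  refine ⟨n, t, s, Θ, hn0, by rw [ht]; exact Nat.le_ceil _,
    by rw [hs]; exact Nat.floor_le (by positivity), ?_, fun v π hπ => ?_⟩
  · rw [Nat.pos_iff_ne_zero]
    intro h0
    obtain ⟨r, hr⟩ : ∃ r, Θ = C r := ⟨_, eq_C_of_natDegree_eq_zero h0⟩
    have h1 : Θ.comp (X + C ρ) = ∑ i : Fin (n + 1), C (a i : M) * X ^ (i : ℕ) := by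
      rw [hΘ, Polynomial.sum_comp]
      refine Finset.sum_congr rfl fun i _ => ?_
      rw [mul_comp, C_comp, pow_comp, sub_comp, X_comp, C_comp, add_sub_cancel_right]
    have h2 := congrArg (fun p => p.coeff (i₀ : ℕ)) h1
    rw [hr, C_comp, coeff_C, if_neg hi₀, finsetSum_coeff, Finset.sum_eq_single i₀] at h2
    · rw [coeff_C_mul, coeff_X_pow, if_pos rfl, mul_one] at h2
      exact ha₀ h2.symm
    · intro b _ hb
      rw [coeff_C_mul, coeff_X_pow, if_neg (fun h => hb (Fin.ext h.symm)), mul_zero]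
    · intro h
      exact absurd (Finset.mem_univ _) h
  · have hne : D' π ≠ 0 := der_unif_ne v D' hκ hX hπ
    obtain ⟨w, hw⟩ : ∃ w : M, w = - δ π / D' π := ⟨_, rfl⟩
    have hu : v.1 (D' π)⁻¹ ≤ exp (- 𝔎 v) := by
      rw [map_inv₀, hunif v π hπ, ← exp_neg]
    have hmain : ∀ j, v.1 ((Θ.comp (C (D' π)⁻¹ * X + C w)).coeff j) ≤
        exp (⌊(j : ℚ) * c v⌋ + ((min j s : ℕ) : ℤ) * (if v ∈ B then 1 else 0) - t * A v) := by
      intro j
      by_cases hv : v = P
      · have h1 : Θ.comp (C (D' π)⁻¹ * X + C w) = ∑ i ∈ Finset.range (Θ.natDegree + 1),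
            C (Θ.coeff i) * (C (D' π)⁻¹ * X + C w) ^ i := by
          rw [comp, eval₂_eq_sum_range]
        rw [h1]
        rw [hv] at hu hπ ⊢
        rw [hP3, hP4, if_neg hP5, mul_zero, mul_zero, mul_zero, Int.floor_zero, sub_zero, add_zero]
        refine comp_bound P.1 (K := 0) (e := 0) (f := fun _ => 0) ?_ ?_ _ id _ (fun i _ => ?_)
          (fun i j _ => by simp) j
        · rwa [hP2] at hu
        · rw [hw, sub_zero, neg_zero, exp_zero]
          exact centre_int P δ D' hδX hδF hπ hP1 (by rw [hunif P π hπ, hP2, exp_zero])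
        · rw [hcoe, mul_zero, add_zero, exp_zero]
          rcases Nat.lt_or_ge i (n + 1) with h2 | h2
          · exact hV' i (Finset.mem_range.mpr h2) a haV
          · rw [hφ, Finset.sum_eq_zero, map_zero]
            · exact zero_le
            · intro k _
              rw [Nat.choose_eq_zero_of_lt (lt_of_lt_of_le k.2 h2), Nat.cast_zero, mul_zero,
                mul_zero]
      · have h1 : Θ.comp (C (D' π)⁻¹ * X + C w) = ∑ i : Fin (n + 1),
            C (a i : M) * (C (D' π)⁻¹ * X + C (w - ρ)) ^ (i : ℕ) := by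
          rw [hΘ, Polynomial.sum_comp]
          refine Finset.sum_congr rfl fun i _ => ?_
          rw [mul_comp, C_comp, pow_comp, sub_comp, X_comp, C_comp, C_sub, add_sub_assoc]
        rw [h1]
        refine comp_bound v.1 (K := 𝔎 v) (e := e v) hu ?_ _ (fun i : Fin (n + 1) => (i : ℕ)) _
          (fun i => ⌊(i : ℚ) * c v⌋ + ((min i s : ℕ) : ℤ) * (if v ∈ B then 1 else 0) - t * A v)
          (fun i _ => ?_) (fun i j hij => ?_) j
        · rw [hw]
          exact hρ v hv π hπ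
        · rw [← hEv i v hv]
          exact (a i).2 v
        · have h3 : (0 : ℚ) ≤ (i : ℚ) - j := by
            have : (j : ℚ) ≤ i := by exact_mod_cast hij
            linarith
          rw [sub_sub_sub_cancel_right]
          by_cases hvS : v ∈ S
          · rw [heS v hvS, mul_one]
            by_cases hvB : v ∈ B
            · rw [if_pos hvB, hcB v hvB, mul_zero, mul_zero, Int.floor_zero, zero_add, zero_add,
                mul_one, mul_one]
              have h4 : min i s ≤ min j s + (i - j) := by omega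
              have h5 : ((min i s : ℕ) : ℤ) ≤ ((min j s + (i - j) : ℕ) : ℤ) := by
                exact_mod_cast h4
              rw [Nat.cast_add, Nat.cast_sub hij] at h5
              linarith
            · rw [if_neg hvB, mul_zero, mul_zero, add_zero, add_zero, sub_le_iff_le_add',
                ← Int.floor_add_intCast]
              refine Int.floor_le_floor ?_
              push_cast
              nlinarith [hc1 v]
          · rw [heN v hvS, (hS1 v hvS).2.2.1, if_neg (hS1 v hvS).2.2.2.2]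
            simp
    refine ⟨Θ.comp (C (D' π)⁻¹ * X + C w), fun j => ⟨fun hB => ?_, fun hB => ?_⟩, ?_⟩
    · have h2 := hmain j
      rwa [if_neg hB, mul_zero, add_zero] at h2
    · have h2 := hmain j
      rwa [if_pos hB, hcB v hB, mul_zero, Int.floor_zero, zero_add, mul_one] at h2
    · rw [comp_assoc, ← hw]
      have h1 : (C (D' π)⁻¹ * X + C w).comp ((X - C w) * C (D' π)) = X := by
        rw [add_comp, mul_comp, C_comp, X_comp, C_comp, mul_comm (X - C w), ← mul_assoc, ← C_mul,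
          inv_mul_cancel₀ hne, C_1, one_mul, sub_add_cancel]
      rw [h1, comp_X]

end

/-- **Regular jet differentials which vanish along a divisor.** `M` is a function field over `F`,
`D' = d / dX`, the derivation `δ` preserves `F` and kills `X`, the weights `c v` are at most `1`
and vanish on the finite set `B` of places.
There is a polynomial `Θ` of positive degree over `M` which is at each place `v` with
uniformiser `π` a polynomial in `(T - a) * D' π`, `a = - δ π / D' π`, such that the pole of the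
coefficient of degree `i` has at most order `i * c v - t * A v` for `v ∉ B` and
`min i s - t * A v` for `v ∈ B`, where `t / n ≥ θ` and `s / n ≤ σ`. -/
theorem exists_jetT {F M : Type*} [Field F] [IsAlgClosed F] [CharZero F] [Field M]
    [Algebra F M] [Algebra (RatFunc F) M] [IsScalarTower F (RatFunc F) M]
    [FiniteDimensional (RatFunc F) M] (δ D' : Derivation ℤ M M)
    (hδX : δ (tL F M) = 0)
    (hδF : ∀ c : F, ∃ c' : F, δ (algebraMap F M c) = algebraMap F M c')
    (hκ : ∀ c : F, D' (algebraMap F M c) = 0) (hX : D' (tL F M) = 1)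
    (c : Place F M →₀ ℚ) (hc : ∀ v, c v ≤ 1) (A : Place F M →₀ ℤ) (hA : ∀ v, 0 ≤ A v)
    (B : Finset (Place F M)) (hcB : ∀ v ∈ B, c v = 0)
    {θ σ : ℚ} (hθ0 : 0 ≤ θ) (hσ0 : 0 < σ) (hσ1 : σ ≤ 1)
    (hdeg : 2 * θ * divDeg A < (ramDeg F M (RatFunc F) : ℚ) - 2 * finrank (RatFunc F) M +
      c.sum (fun _ x => x) + σ * (2 - σ) * B.card) :
    ∃ (n t s : ℕ) (Θ : M[X]), 0 < n ∧ θ * n ≤ t ∧ (s : ℚ) ≤ σ * n ∧ 0 < Θ.natDegree ∧
      ∀ (v : Place F M) (π : M), v.1 π = exp (-1 : ℤ) →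
      ∃ b : M[X], (∀ i, (v ∉ B → v.1 (b.coeff i) ≤ exp (⌊(i : ℚ) * c v⌋ - t * A v)) ∧
        (v ∈ B → v.1 (b.coeff i) ≤ exp (((min i s : ℕ) : ℤ) - t * A v))) ∧
        Θ = b.comp ((X - C (- δ π / D' π)) * C (D' π)) := by
  let a1 : Algebra F[X] M :=
    ((algebraMap (RatFunc F) M).comp (algebraMap F[X] (RatFunc F))).toAlgebra
  have t1 : IsScalarTower F[X] (RatFunc F) M := IsScalarTower.of_algebraMap_eq fun _ => rfl
  have t2 : IsScalarTower F F[X] M := IsScalarTower.of_algebraMap_eq fun u => by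
    rw [IsScalarTower.algebraMap_apply F (RatFunc F) M u,
      IsScalarTower.algebraMap_apply F F[X] (RatFunc F) u]
    rfl
  let a2 : Algebra (Rinf F) M :=
    ((algebraMap (RatFunc F) M).comp (algebraMap (Rinf F) (RatFunc F))).toAlgebra
  have t3 : IsScalarTower (Rinf F) (RatFunc F) M := IsScalarTower.of_algebraMap_eq fun _ => rfl
  have h1 : algebraMap F[X] M X = tL F M := by
    change algebraMap (RatFunc F) M (algebraMap F[X] (RatFunc F) X) = _
    rw [RatFunc.algebraMap_X]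
    rfl
  exact exists_jet_aux δ D' (by rw [h1]; exact hδX) hδF hκ (by rw [h1]; exact hX) c hc A hA B hcB
    hθ0 hσ0 hσ1 (by push_cast; exact hdeg)

end Pool.Agent.Lib.MP_44a246_ntYT
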