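import Mathlib

/-!
# Theorem Y2: limits of discrete valuations
-/

namespace Pool.Agent.Lib.MP_44a246_ntYT

open WithZero

/-- The ring `O` is the limit of the discrete valuations `vv j`, and `D` has at most a pole of
order one for these valuations. -/
structure LimV {U : Type*} [Field U] (D : U → U) (G : Set U) (O : Subring U) {J : Type*}
    (𝒲 : Ultrafilter J) (vv : J → U → ℤᵐ⁰) : Prop where
  one : ∀ᶠ j in (𝒲 : Filter J), vv j 1 = 1
  mul : ∀ a ∈ G, ∀ b ∈ G, ∀ᶠ j in (𝒲 : Filter J), vv j (a * b) = vv j a * vv j b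
  add : ∀ a ∈ G, ∀ b ∈ G, ∀ᶠ j in (𝒲 : Filter J), vv j (a + b) ≤ max (vv j a) (vv j b)
  mem : ∀ a ∈ G, (a ∈ O ↔ ∀ᶠ j in (𝒲 : Filter J), vv j a ≤ 1)
  pole : ∀ a ∈ G, ∀ᶠ j in (𝒲 : Filter J), vv j (D a) ≤ vv j a * exp (1 : ℤ)

namespace LimV

variable {F U : Type*} [Field F] [Field U] [Algebra F U] {D : U → U} {G : IntermediateField F U}
  {O : Subring U} {J : Type*} {𝒲 : Ultrafilter J} {vv : J → U → ℤᵐ⁰} (h : LimV D (G : Set U) O 𝒲 vv)
include h

theorem pow {a : U} (ha : a ∈ G) (k : ℕ) : ∀ᶠ j in (𝒲 : Filter J), vv j (a ^ k) = vv j a ^ k := by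
  induction k with
  | zero =>
    filter_upwards [h.one] with j hj
    rw [pow_zero, pow_zero, hj]
  | succ k ih =>
    filter_upwards [ih, h.mul (a ^ k) (pow_mem ha k) a ha] with j h1 h2
    rw [pow_succ, pow_succ, h2, h1]

theorem sum {ι : Type*} {s : Finset ι} {f : ι → U} (hf : ∀ i ∈ s, f i ∈ G) {b : ℤᵐ⁰}
    (hb : 1 ≤ b) (hle : ∀ i ∈ s, ∀ᶠ j in (𝒲 : Filter J), vv j (f i) ≤ b) :
    ∀ᶠ j in (𝒲 : Filter J), vv j (∑ i ∈ s, f i) ≤ b := by
  classical
  induction s using Finset.induction_on with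
  | empty =>
    filter_upwards [(h.mem 0 (zero_mem G)).1 (O.zero_mem)] with j hj
    rw [Finset.sum_empty]
    exact hj.trans hb
  | insert i s his ih =>
    have h1 := ih (fun k hk => hf k (Finset.mem_insert_of_mem hk))
      (fun k hk => hle k (Finset.mem_insert_of_mem hk))
    have h2 : ∑ k ∈ s, f k ∈ G := sum_mem fun k hk => hf k (Finset.mem_insert_of_mem hk)
    filter_upwards [h1, hle i (Finset.mem_insert_self i s),
      h.add (f i) (hf i (Finset.mem_insert_self i s)) _ h2] with j h3 h4 h5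
    rw [Finset.sum_insert his]
    exact h5.trans (max_le h4 h3)

end LimV

end Pool.Agent.Lib.MP_44a246_ntYT
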