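import Mathlib
import Pool.Agent.Lib.MP_44a246_ntSF.SFA04a

/-!
# Theorem Y2: the place at which a product is large
-/

namespace Pool.Agent.Lib.MP_44a246_ntYT

open Pool.Agent.Lib.MP_e52354_nt
open Pool.Agent.Lib.MP_44a246_nt
open Pool.Agent.Lib.MP_44a246_ntL
open Pool.Agent.Lib.MP_44a246_ntY
open Pool.Agent.Lib.MP_44a246_ntSH
open Pool.Agent.Lib.MP_44a246_ntSM
open Pool.Agent.Lib.MP_44a246_ntSF
open WithZero Module Polynomial

variable {κ K Ω : Type*} [Field κ] [IsAlgClosed κ] [CharZero κ] [Field K] [Algebra κ K]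
  [Field Ω] [Algebra K Ω] [Algebra κ Ω] [IsScalarTower κ K Ω] {W : Tow κ K Ω}
  {E : ∀ N, IntermediateField (W.L N) Ω}
  {Δ : DOm κ K Ω} {P : ∀ N, Finset (Place κ (W.L N))}
  [∀ N, FiniteDimensional K (E N)] [∀ N, FiniteDimensional (W.L N) (E N)] {Φ : Finset (UP Ω)}

open scoped Classical in
/-- **The place.** If `n * #Z + C * T < t * height x` for all `C` then the product of `S` and the
`t`-th power of a coordinate of `x` is large at some place. -/
theorem exists_wT [IsAlgClosed Ω] [Algebra.IsAlgebraic K Ω] {c : ℕ}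
    (hfr : ∀ N, finrank (W.L N) (E N) ≤ c)
    (hram : ∀ N, ramDeg κ (E N) K ≤ c * W.T N) {p : ℕ} (hP : ∀ N, (P N).card ≤ p * W.T N)
    (hΦ : ∀ a ∈ Φ, a ∈ W.gf E) (Z : ∀ N, Finset (Place κ (W.L N))) {S : UP Ω} (hS : S ∈ W.gf E)
    (hS0 : S ≠ 0) {r : ℕ} {x : ∀ N, Fin (r + 1) → W.L N} {l : Fin (r + 1)} (hl : ∀ N, x N l = 1)
    {n t : ℕ}
    (hbig : ∀ C : ℕ, ∀ᶠ N in (Filter.hyperfilter ℕ : Filter ℕ),
      (n : ℤ) * (Z N).card + C * (W.T N : ℤ) < t * height κ (x N)) (n' : ℕ) :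
    ∀ᶠ N in (Filter.hyperfilter ℕ : Filter ℕ), ∃ (w : Place κ (E N)) (i : Fin (r + 1)),
      exp ((n' * tau Δ P E Φ N w : ℕ) : ℤ) * exp (if below (W.L N) w ∈ Z N then (n : ℤ) else 0) <
        w.1 (rep W E S N) * w.1 (algebraMap (W.L N) (E N) (x N i)) ^ t := by
  obtain ⟨C, hC⟩ := tau_sum (Δ := Δ) hfr hram hP hΦ
  by_contra hcon
  rw [Ultrafilter.eventually_not.symm] at hcon
  have hne : ∀ᶠ N in (Filter.hyperfilter ℕ : Filter ℕ), rep W E S N ≠ 0 := by
    by_contra h0
    rw [Ultrafilter.eventually_not.symm] at h0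
    apply hS0
    rw [← germ_rep hS]
    have h1 : germHom (fun N => (rep W E S N : Ω)) = germHom (fun _ => (0 : Ω)) := by
      refine (germHom_eq_iff _ _).2 ?_
      filter_upwards [h0] with N hN
      rw [not_not.1 hN]
      rfl
    rw [h1]
    exact map_zero germHom
  obtain ⟨N, hN1, hN2, hN3, hN4⟩ := (hC.and (hcon.and (hne.and (hbig (n' * C))))).exists
  have hEF : IsFF κ (E N) := W.ff.of_finite
  have hx0 : x N ≠ 0 := by
    intro h0
    have h1 := congrFun h0 l
    rw [hl] at h1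
    exact one_ne_zero h1
  have hxE : (fun i => algebraMap (W.L N) (E N) (x N i)) ≠ 0 := by
    intro h0
    have h1 := congrFun h0 l
    simp only [hl, map_one] at h1
    exact one_ne_zero h1
  obtain ⟨Z', hZ'1, hZ'2⟩ := exists_above (L := W.L N) hEF (Z N)
  -- the pointwise bound
  have hpt : ∀ w : Place κ (E N), log (w.1 (rep W E S N)) +
      (t : ℤ) * log (vmax w.1 fun i => algebraMap (W.L N) (E N) (x N i)) ≤
      (n' : ℤ) * (tau Δ P E Φ N w : ℤ) + if w ∈ Z' then (n : ℤ) else 0 := by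
    intro w
    obtain ⟨i, -, hi, -⟩ := exists_vmax w.1 hxE
    have hv0 : w.1 (rep W E S N) ≠ 0 := (w.1.ne_zero_iff).2 hN3
    have hm0 : w.1 (algebraMap (W.L N) (E N) (x N i)) ≠ 0 := by
      have h1 : (vmax w.1 fun i => algebraMap (W.L N) (E N) (x N i)) ≠ 0 := by
        rw [Ne, vmax_eq_zero_iff]
        exact hxE
      rw [hi] at h1
      exact h1
    have h1 : w.1 (rep W E S N) * w.1 (algebraMap (W.L N) (E N) (x N i)) ^ t ≤
        exp ((n' * tau Δ P E Φ N w : ℕ) : ℤ) *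
          exp (if below (W.L N) w ∈ Z N then (n : ℤ) else 0) :=
      not_lt.1 fun h => hN2 ⟨w, i, h⟩
    have h2 : log (w.1 (rep W E S N) * w.1 (algebraMap (W.L N) (E N) (x N i)) ^ t) ≤
        ((n' * tau Δ P E Φ N w : ℕ) : ℤ) + (if below (W.L N) w ∈ Z N then (n : ℤ) else 0) := by
      rw [log_le_iff_le_exp (mul_ne_zero hv0 (pow_ne_zero _ hm0)), exp_add]
      exact h1
    rw [log_mul hv0 (pow_ne_zero _ hm0), log_pow, nsmul_eq_mul] at h2
    rw [hi]
    have h3 : (if w ∈ Z' then (n : ℤ) else 0) = if below (W.L N) w ∈ Z N then (n : ℤ) else 0 := by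
      by_cases h : w ∈ Z'
      · rw [if_pos h, if_pos ((hZ'1 w).1 h)]
      · rw [if_neg h, if_neg (fun h' => h ((hZ'1 w).2 h'))]
    rw [h3]
    push_cast at h2
    exact h2
  -- the sums
  have s1 := hEF.place_support (x := rep W E S N) hN3
  have s2 := hEF.vmax_support hxE
  have s2' : (Function.support fun w : Place κ (E N) =>
      (t : ℤ) * log (vmax w.1 fun i => algebraMap (W.L N) (E N) (x N i))).Finite :=
    s2.subset fun w hw h0 => hw (by simp only at h0 ⊢; rw [h0, mul_zero])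
  have s3 : (Function.support fun w : Place κ (E N) =>
      (n' : ℤ) * (tau Δ P E Φ N w : ℤ)).Finite :=
    hN1.1.subset fun w hw h0 => hw (by simp only at h0 ⊢; rw [h0, mul_zero])
  have s4 : (Function.support fun w : Place κ (E N) => if w ∈ Z' then (n : ℤ) else 0) ⊆
      (Z' : Set (Place κ (E N))) := by
    intro w hw
    by_contra h
    exact hw (if_neg h)
  have s4' := (Z'.finite_toSet).subset s4
  have e1 := hEF.product_formula hN3
  have e2 : ∑ᶠ w : Place κ (E N), log (vmax w.1 fun i => algebraMap (W.L N) (E N) (x N i)) =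
      finrank (W.L N) (E N) * height κ (x N) := hEF.height_ext hx0
  have e3 : ∑ᶠ w : Place κ (E N), (if w ∈ Z' then (n : ℤ) else 0) = n * Z'.card := by
    rw [finsum_eq_sum_of_support_subset _ s4, Finset.sum_congr rfl fun w hw => if_pos hw,
      Finset.sum_const, nsmul_eq_mul, mul_comm]
  have hsum := finsum_mono ((s1.union s2').subset (Function.support_add _ _))
    ((s3.union s4').subset (Function.support_add _ _)) hpt
  rw [finsum_add_distrib s1 s2', finsum_add_distrib s3 s4', e1, e3, ← mul_finsum, ← mul_finsum,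
    e2, zero_add] at hsum
  have h5 : (Z'.card : ℤ) ≤ finrank (W.L N) (E N) * (Z N).card := by exact_mod_cast hZ'2
  have h6 : (1 : ℤ) ≤ finrank (W.L N) (E N) := by
    have : 0 < finrank (W.L N) (E N) := finrank_pos
    exact_mod_cast this
  have h7 : (n : ℤ) * Z'.card ≤ n * (finrank (W.L N) (E N) * (Z N).card) :=
    mul_le_mul_of_nonneg_left h5 (Nat.cast_nonneg _)
  have h8 : (n' : ℤ) * ∑ᶠ w : Place κ (E N), (tau Δ P E Φ N w : ℤ) ≤ n' * (C * (W.T N : ℤ)) :=
    mul_le_mul_of_nonneg_left hN1.2 (Nat.cast_nonneg _)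
  have h9 : (0 : ℤ) ≤ n' * (C * (W.T N : ℤ)) := by positivity
  have h10 : (n' : ℤ) * (C * (W.T N : ℤ)) < t * height κ (x N) - n * (Z N).card := by
    push_cast at hN4
    linarith
  have h11 : (t * height κ (x N) - n * (Z N).card : ℤ) ≤
      finrank (W.L N) (E N) * (t * height κ (x N) - n * (Z N).card) := by
    nlinarith
  nlinarith

end Pool.Agent.Lib.MP_44a246_ntYT
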