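import Mathlib
import Pool.Agent.Lib.MP_44a246_ntR.GR1
import Pool.Agent.Lib.MP_44a246_ntSF.SFA04
import Pool.Agent.Lib.MP_44a246_ntYT.YT00
import Pool.Agent.Lib.MP_44a246_ntYT.YT02

/-!
# Theorem Y2: the transfer from valuation rings of tame germs to places
-/

namespace Pool.Agent.Lib.MP_44a246_ntYT

open Pool.Agent.Lib.MP_e52354_nt
open Pool.Agent.Lib.MP_44a246_nt
open Pool.Agent.Lib.MP_44a246_ntL
open Pool.Agent.Lib.MP_44a246_ntY
open Pool.Agent.Lib.MP_44a246_ntSH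
open Pool.Agent.Lib.MP_44a246_ntSM
open Pool.Agent.Lib.MP_44a246_ntSF
open WithZero Module Polynomial

universe u v w

variable {κ : Type u} {K : Type v} {Ω : Type w} [Field κ] [IsAlgClosed κ] [CharZero κ] [Field K]
  [Algebra κ K] [Field Ω] [Algebra K Ω] [Algebra κ Ω] [IsScalarTower κ K Ω] {W : Tow κ K Ω}

/-- the ring of `UP Ω` of a valuation ring of tame germs -/
theorem isVal_of [IsAlgClosed Ω] [Algebra.IsAlgebraic K Ω] (Δ : DOm κ K Ω)
    (P : ∀ N, Finset (Place κ (W.L N))) (O : ValuationSubring (tm W))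
    (h1 : ∀ u : tm W, (u : UP Ω) ∈ W.F0 → u ∈ O) (h2 : ∀ u ∈ O, dtm Δ u ∈ O)
    (h4 : ∀ (y : ∀ N, W.L N) (m : ℕ) (H : Finset (∀ N, W.L N)), IsOrb W P y m H →
        (∀ a ∈ H, gL a ∈ O) → OrbAt (dtm Δ) O (gL y) m)
    (h4' : ∀ (y : ∀ N, W.L N) (H : Finset (∀ N, W.L N)), IsBd W P y H →
        (∀ a ∈ H, gL a ∈ O) → gL y ≠ 0 → (gL y)⁻¹ ∉ O → ∀ u, dtm Δ u / u ∈ O) :
    IsVal W Δ P (O.toSubring.map (algebraMap (tm W) (UP Ω))) := by
  have hmem : ∀ u : UP Ω, u ∈ O.toSubring.map (algebraMap (tm W) (UP Ω)) ↔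
      ∃ h : u ∈ tm W, (⟨u, h⟩ : tm W) ∈ O := by
    intro u
    rw [Subring.mem_map]
    constructor
    · rintro ⟨x, hx, rfl⟩
      exact ⟨x.2, hx⟩
    · rintro ⟨h, h'⟩
      exact ⟨⟨u, h⟩, h', rfl⟩
  have hmem' : ∀ u : tm W, (u : UP Ω) ∈ O.toSubring.map (algebraMap (tm W) (UP Ω)) ↔ u ∈ O := by
    intro u
    rw [hmem]
    exact ⟨fun h => h.2, fun h => ⟨u.2, h⟩⟩
  refine ⟨?_, ?_, ?_, ?_, ?_, ?_⟩
  · intro u hu
    exact ((hmem u).1 hu).1
  · intro u hu
    rw [hmem, hmem]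
    rcases O.mem_or_inv_mem ⟨u, hu⟩ with h | h
    · exact Or.inl ⟨hu, h⟩
    · exact Or.inr ⟨inv_mem hu, h⟩
  · intro u hu
    have hut : u ∈ tm W := (tm W).algebraMap_mem ⟨u, hu⟩
    rw [hmem]
    exact ⟨hut, h1 ⟨u, hut⟩ hu⟩
  · intro u hu
    rw [hmem] at hu ⊢
    obtain ⟨h5, h6⟩ := hu
    exact ⟨der_mem_tm Δ h5, h2 _ h6⟩
  · intro y m H hO hH hy hy0 hyi
    have h5 : gL y * (dtm Δ (gL y) / gL y) ^ m ∈ O := by
      refine h4 y m H hO (fun a ha => (hmem' (gL a)).1 (hH a ha)) ((hmem' (gL y)).1 hy) ?_ ?_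
      · intro h
        exact hy0 (congrArg Subtype.val h)
      · intro h
        exact hyi ((hmem' (gL y)⁻¹).2 h)
    have h6 := (hmem' _).2 h5
    have h7 : ((gL y * (dtm Δ (gL y) / gL y) ^ m : tm W) : UP Ω) =
        germHom (fun N => (y N : Ω)) * (derUP Δ.D (germHom (fun N => (y N : Ω))) /
          germHom (fun N => (y N : Ω))) ^ m := by
      push_cast
      rfl
    rw [h7] at h6
    exact h6
  · intro y H hO hH hy0 hyi u hu
    have h5 : dtm Δ (⟨u, hu⟩ : tm W) / ⟨u, hu⟩ ∈ O := by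
      refine h4' y H hO (fun a ha => (hmem' (gL a)).1 (hH a ha)) ?_ ?_ _
      · intro h
        exact hy0 (congrArg Subtype.val h)
      · intro h
        exact hyi ((hmem' (gL y)⁻¹).2 h)
    have h6 := (hmem' _).2 h5
    have h7 : ((dtm Δ (⟨u, hu⟩ : tm W) / ⟨u, hu⟩ : tm W) : UP Ω) = derUP Δ.D u / u := by
      push_cast
      rfl
    rw [h7] at h6
    exact h6

open scoped Classical in
/-- **The transfer.** `S` is a tame germ, `x` a sequence of points. If at all valuation rings `O` of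
tame germs the products `S * (x i) ^ t` are integral, with the exception of those which come from
the places in `Z`, at which they have at most a pole of order `n`, then the height of `x` is bounded
by the number of elements of `Z`. -/
theorem height_of_bdd [IsAlgClosed Ω] [Algebra.IsAlgebraic K Ω] (Δ : DOm κ K Ω)
    (P : ∀ N, Finset (Place κ (W.L N))) {p : ℕ} (hP : ∀ N, (P N).card ≤ p * W.T N)
    (Z : ∀ N, Finset (Place κ (W.L N))) {S : UP Ω} (hS : S ∈ tm W) (hS0 : S ≠ 0) {r : ℕ}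
    {x : ∀ N, Fin (r + 1) → W.L N} {l : Fin (r + 1)} (hl : ∀ N, x N l = 1) {n t : ℕ}
    (h : ∀ (i : Fin (r + 1)) (O : Subring (UP Ω)), IsVal W Δ P O →
      (IsVal W Δ (fun N => P N ∪ Z N) O → S * germHom (fun N => (x N i : Ω)) ^ t ∈ O) ∧
      ∀ (J : Type w) (𝒲 : Ultrafilter J) (vv : J → UP Ω → ℤᵐ⁰),
        LimV (derUP Δ.D) (tm W) O 𝒲 vv →
        ∀ᶠ j in (𝒲 : Filter J), vv j (S * germHom (fun N => (x N i : Ω)) ^ t) ≤ exp (n : ℤ)) :
    ∃ C : ℕ, ∀ᶠ N in (Filter.hyperfilter ℕ : Filter ℕ),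
      t * height κ (x N) ≤ (n : ℤ) * (Z N).card + C * (W.T N : ℤ) := by
  by_contra hbig
  push Not at hbig
  -- the fields
  have key : ∀ Φ : Finset (tm W), ∃ (c : ℕ) (E : ∀ N, IntermediateField (W.L N) Ω),
      (∀ N, FiniteDimensional (W.L N) (E N)) ∧ (∀ N, finrank (W.L N) (E N) ≤ c) ∧
      (∀ N, ramDeg κ (E N) K ≤ c * W.T N) ∧ ∀ g ∈ Φ, (g : UP Ω) ∈ W.gf E := by
    intro Φ
    obtain ⟨c, E, h1, h2, h3, h4⟩ := exists_tmE W (Φ.image Subtype.val) (by
      intro g hg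
      obtain ⟨g', -, rfl⟩ := Finset.mem_image.1 hg
      exact g'.2)
    exact ⟨c, E, h1, h2, h3, fun g hg => h4 _ (Finset.mem_image_of_mem _ hg)⟩
  choose c EE hfin hfr hram hgf using key
  have hfinK : ∀ Φ N, FiniteDimensional K (EE Φ N) := fun Φ N => by
    have := W.fin N
    exact FiniteDimensional.trans K (W.L N) (EE Φ N)
  have hEF : ∀ Φ N, IsFF κ (EE Φ N) := fun Φ N => W.ff.of_finite
  choose DE hDE1 hDE2 using fun Φ => exists_DE (W := W) Δ (EE Φ)
  -- the size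
  let ta : ∀ (Φ : Finset (tm W)) (N : ℕ), Place κ (EE Φ N) → ℕ := fun Φ N w =>
    tau Δ P (EE Φ) (Φ.image Subtype.val) N w
  let bad : ∀ (Φ : Finset (tm W)) (n' N : ℕ), Place κ (EE Φ N) → Fin (r + 1) → Prop :=
    fun Φ n' N w i => exp ((n' * ta Φ N w : ℕ) : ℤ) *
      exp (if below (W.L N) w ∈ Z N then (n : ℤ) else 0) <
        w.1 (rep W (EE Φ) S N) * w.1 (algebraMap (W.L N) (EE Φ N) (x N i)) ^ t
  have hta : ∀ (Φ : Finset (tm W)) (n' : ℕ), S ∈ W.gf (EE Φ) →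
      ∀ᶠ N in (Filter.hyperfilter ℕ : Filter ℕ), ∃ (w : Place κ (EE Φ N)) (i : Fin (r + 1)),
        bad Φ n' N w i := by
    intro Φ n' hSΦ
    refine exists_wT (hfr Φ) (hram Φ) hP ?_ Z hSΦ hS0 hl hbig n'
    intro a ha
    obtain ⟨g', hg', rfl⟩ := Finset.mem_image.1 ha
    exact hgf Φ g' hg'
  -- the places
  have hpl : ∀ j : (Finset (tm W) × ℕ) × ℕ, ∃ (w : Place κ (EE j.1.1 j.2)) (i : Fin (r + 1)),
      (∃ (w' : Place κ (EE j.1.1 j.2)) (i' : Fin (r + 1)), bad j.1.1 j.1.2 j.2 w' i') →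
      bad j.1.1 j.1.2 j.2 w i := by
    intro j
    by_cases h : ∃ (w' : Place κ (EE j.1.1 j.2)) (i' : Fin (r + 1)), bad j.1.1 j.1.2 j.2 w' i'
    · exact ⟨h.choose, h.choose_spec.choose, fun _ => h.choose_spec.choose_spec⟩
    · obtain ⟨w⟩ := Pool.Agent.Lib.MP_44a246_ntR.exists_place (hEF j.1.1 j.2)
      exact ⟨w, 0, fun h' => absurd h' h⟩
  choose pl ii hpl using hpl
  obtain ⟨𝒲, h𝒲⟩ := exists_ultra (Finset (tm W) × ℕ)
  let ρ : ∀ j : (Finset (tm W) × ℕ) × ℕ, tm W → EE j.1.1 j.2 := fun j u =>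
    rep W (EE j.1.1) (u : UP Ω) j.2
  have hge : ∀ (Φ₀ : Finset (tm W)) (n₀ : ℕ) (q : (Finset (tm W) × ℕ) × ℕ → Prop),
      (∀ Φ n, Φ₀ ⊆ Φ → n₀ ≤ n → ∀ᶠ N in (Filter.hyperfilter ℕ : Filter ℕ), q ((Φ, n), N)) →
      ∀ᶠ j in (𝒲 : Filter ((Finset (tm W) × ℕ) × ℕ)), q j := by
    intro Φ₀ n₀ q hq
    refine h𝒲 q ?_
    filter_upwards [Filter.eventually_ge_atTop (Φ₀, n₀)] with x hx
    exact hq x.1 x.2 hx.1 hx.2
  have hreg : ∀ j (e : EE j.1.1 j.2), (pl j).1 e ≤ 1 →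
      (pl j).1 (DE j.1.1 j.2 e) ≤ exp (ta j.1.1 j.2 (pl j) : ℤ) := by
    intro j e he
    refine (bet_reg Δ (hEF j.1.1 j.2) (hDE1 j.1.1 j.2) (pl j) he).trans ?_
    rw [exp_le_exp]
    exact_mod_cast bet_le_tau (Δ := Δ) (P := P) (E := EE j.1.1) (Φ := j.1.1.image Subtype.val)
      j.2 (pl j)
  have hLD : LimData (dtm Δ) 𝒲 (fun j => (pl j).1) (fun j => DE j.1.1 j.2)
      (fun j => ta j.1.1 j.2 (pl j)) ρ := by
    refine ⟨?_, ?_, ?_, ?_, hreg, ?_⟩
    · intro y y'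
      refine hge {y, y'} 0 _ fun Φ n hΦ _ => ?_
      have h1 := hgf Φ y (hΦ (by simp))
      have h2 := hgf Φ y' (hΦ (by simp))
      have h3 := rep_add h1 h2
      exact h3
    · intro y y'
      refine hge {y, y'} 0 _ fun Φ n hΦ _ => ?_
      have h1 := hgf Φ y (hΦ (by simp))
      have h2 := hgf Φ y' (hΦ (by simp))
      have h3 := rep_mul h1 h2
      exact h3
    · refine hge ∅ 0 _ fun Φ n _ _ => ?_
      exact rep_one (W := W) (E := EE Φ)
    · intro y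
      refine hge {y} 0 _ fun Φ n hΦ _ => ?_
      exact rep_der (hDE2 Φ) (hgf Φ y (hΦ (by simp)))
    · intro j e
      exact der_le (pl j).1 (pl j).2.1 (DE j.1.1 j.2) (hreg j) e
  have hsmall : ∀ u : tm W, (u : UP Ω) ∈ W.F0 → u ∈ hLD.O := by
    intro u hu
    refine hLD.mem_O.2 ⟨1, ?_⟩
    refine hge {u} 0 _ fun Φ n hΦ _ => Filter.Eventually.of_forall fun N => ?_
    rw [one_mul]
    refine le_tau (Δ := Δ) (P := P) (E := EE Φ) (Φ := Φ.image Subtype.val) (a := u) ?_ hu N _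
    exact Finset.mem_image.2 ⟨u, hΦ (by simp), rfl⟩
  -- the conditions outside a set of places
  have hval : ∀ P' : ∀ N, Finset (Place κ (W.L N)),
      (∀ᶠ j in (𝒲 : Filter ((Finset (tm W) × ℕ) × ℕ)), ta j.1.1 j.2 (pl j) = 0 →
        below (W.L j.2) (pl j) ∉ P' j.2) →
      IsVal W Δ P' (hLD.O.toSubring.map (algebraMap (tm W) (UP Ω))) := by
    intro P' hP'
    refine isVal_of Δ P' hLD.O hsmall (fun u hu => hLD.D_mem hu) ?_ ?_
    · intro y m H hO hH
      refine hLD.orb (H := H.image gL) ?_ ?_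
      · have hA : ∀ᶠ j in (𝒲 : Filter ((Finset (tm W) × ℕ) × ℕ)),
            (∀ w : Place κ (W.L j.2), w ∉ P' j.2 → (∀ a ∈ H, w.1 (a j.2) ≤ 1) →
              1 ≤ w.1 (y j.2) ∨ w.1 (y j.2) ≤ exp (-(m : ℤ))) ∧
            rep W (EE j.1.1) (germHom (fun N => (y N : Ω))) j.2 =
              algebraMap (W.L j.2) (EE j.1.1 j.2) (y j.2) ∧
            ∀ a ∈ H, rep W (EE j.1.1) (germHom (fun N => (a N : Ω))) j.2 =
              algebraMap (W.L j.2) (EE j.1.1 j.2) (a j.2) := by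
          refine hge ∅ 0 _ fun Φ n _ _ => ?_
          filter_upwards [hO, rep_L (E := EE Φ) y, (Finset.eventually_all H).2 fun a _ =>
            rep_L (E := EE Φ) a] with N h1 h2 h3
          exact ⟨h1, h2, h3⟩
        filter_upwards [hA, hP'] with j hj hw
        obtain ⟨hN, hy1, ha1⟩ := hj
        intro htau hH'
        have h1e : 1 ≤ ramIdx (W.L j.2) (pl j).1 := one_le_ramIdx (K := W.L j.2) _ (pl j).2.1
        have hbp : ∀ a : W.L j.2, (pl j).1 (algebraMap (W.L j.2) (EE j.1.1 j.2) a) =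
            (below (W.L j.2) (pl j)).1 a ^ ramIdx (W.L j.2) (pl j).1 := fun a => below_pow _ a
        have hab : ∀ a ∈ H, (below (W.L j.2) (pl j)).1 (a j.2) ≤ 1 := by
          intro a ha
          have h6 := hH' (gL a) (Finset.mem_image_of_mem _ ha)
          have h7 : (pl j).1 (rep W (EE j.1.1) (germHom fun N => (a N : Ω)) j.2) ≤ 1 := h6
          rw [ha1 a ha, hbp] at h7
          by_contra hcon
          exact absurd h7 (not_le.2 (one_lt_pow₀ (not_le.1 hcon) (by omega)))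
        rcases hN _ (hw htau) hab with h5 | h5
        · left
          show 1 ≤ (pl j).1 (rep W (EE j.1.1) (germHom fun N => (y N : Ω)) j.2)
          rw [hy1, hbp]
          exact one_le_pow₀ h5
        · right
          show (pl j).1 (rep W (EE j.1.1) (germHom fun N => (y N : Ω)) j.2) ≤ _
          rw [hy1, hbp]
          have h6 : (below (W.L j.2) (pl j)).1 (y j.2) ≤ 1 := by
            refine h5.trans ?_
            rw [← exp_zero, exp_le_exp]
            omega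
          refine le_trans ?_ h5
          exact pow_le_of_le_one zero_le h6 (by omega)
      · intro a ha
        obtain ⟨b, hb, rfl⟩ := Finset.mem_image.1 ha
        exact hH b hb
    · intro y H hO hH hy0 hyi u
      refine hLD.bdry (H := H.image gL) ?_ ?_ hy0 hyi u
      · have hA : ∀ᶠ j in (𝒲 : Filter ((Finset (tm W) × ℕ) × ℕ)),
            (∀ w : Place κ (W.L j.2), w ∉ P' j.2 → (∀ a ∈ H, w.1 (a j.2) ≤ 1) →
              1 ≤ w.1 (y j.2)) ∧
            rep W (EE j.1.1) (germHom (fun N => (y N : Ω))) j.2 =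
              algebraMap (W.L j.2) (EE j.1.1 j.2) (y j.2) ∧
            ∀ a ∈ H, rep W (EE j.1.1) (germHom (fun N => (a N : Ω))) j.2 =
              algebraMap (W.L j.2) (EE j.1.1 j.2) (a j.2) := by
          refine hge ∅ 0 _ fun Φ n _ _ => ?_
          filter_upwards [hO, rep_L (E := EE Φ) y, (Finset.eventually_all H).2 fun a _ =>
            rep_L (E := EE Φ) a] with N h1 h2 h3
          exact ⟨h1, h2, h3⟩
        filter_upwards [hA, hP'] with j hj hw
        obtain ⟨hN, hy1, ha1⟩ := hj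
        intro htau hH'
        have h1e : 1 ≤ ramIdx (W.L j.2) (pl j).1 := one_le_ramIdx (K := W.L j.2) _ (pl j).2.1
        have hbp : ∀ a : W.L j.2, (pl j).1 (algebraMap (W.L j.2) (EE j.1.1 j.2) a) =
            (below (W.L j.2) (pl j)).1 a ^ ramIdx (W.L j.2) (pl j).1 := fun a => below_pow _ a
        have hab : ∀ a ∈ H, (below (W.L j.2) (pl j)).1 (a j.2) ≤ 1 := by
          intro a ha
          have h6 := hH' (gL a) (Finset.mem_image_of_mem _ ha)
          have h7 : (pl j).1 (rep W (EE j.1.1) (germHom fun N => (a N : Ω)) j.2) ≤ 1 := h6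
          rw [ha1 a ha, hbp] at h7
          by_contra hcon
          exact absurd h7 (not_le.2 (one_lt_pow₀ (not_le.1 hcon) (by omega)))
        show 1 ≤ (pl j).1 (rep W (EE j.1.1) (germHom fun N => (y N : Ω)) j.2)
        rw [hy1, hbp]
        exact one_le_pow₀ (hN _ (hw htau) hab)
      · intro a ha
        obtain ⟨b, hb, rfl⟩ := Finset.mem_image.1 ha
        exact hH b hb
  have hnotP : ∀ j, ta j.1.1 j.2 (pl j) = 0 → below (W.L j.2) (pl j) ∉ P j.2 := by
    intro j h0 hcon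
    have h3 := one_le_tau (Δ := Δ) (P := P) (E := EE j.1.1) (Φ := j.1.1.image Subtype.val)
      (N := j.2) (w := pl j) hcon
    have h4 : tau Δ P (EE j.1.1) (j.1.1.image Subtype.val) j.2 (pl j) = 0 := h0
    omega
  have hvalP := hval P (Filter.Eventually.of_forall hnotP)
  have hmemO : ∀ u : UP Ω, u ∈ hLD.O.toSubring.map (algebraMap (tm W) (UP Ω)) ↔
      ∃ h : u ∈ tm W, (⟨u, h⟩ : tm W) ∈ hLD.O := by
    intro u
    rw [Subring.mem_map]
    constructor
    · rintro ⟨x, hx, rfl⟩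
      exact ⟨x.2, hx⟩
    · rintro ⟨h, h'⟩
      exact ⟨⟨u, h⟩, h', rfl⟩
  -- the coordinate
  obtain ⟨i₀, hi₀⟩ : ∃ i₀ : Fin (r + 1), ∀ᶠ j in (𝒲 : Filter ((Finset (tm W) × ℕ) × ℕ)),
      ii j = i₀ := by
    have h1 : (⋃ i ∈ (Set.univ : Set (Fin (r + 1))), {j | ii j = i}) ∈ 𝒲 := by
      have h2 : (⋃ i ∈ (Set.univ : Set (Fin (r + 1))), {j | ii j = i}) = Set.univ := by
        refine Set.eq_univ_of_forall fun j => ?_
        exact Set.mem_biUnion (Set.mem_univ (ii j)) rfl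
      rw [h2]
      exact Filter.univ_mem
    rw [Ultrafilter.finite_biUnion_mem_iff Set.finite_univ] at h1
    obtain ⟨i, -, hi⟩ := h1
    exact ⟨i, hi⟩
  -- the element
  set g : UP Ω := S * germHom (fun N => (x N i₀ : Ω)) ^ t with hg
  have hgt : g ∈ tm W := mul_mem hS (pow_mem (germ_mem_tm fun N => x N i₀) t)
  have hvg : ∀ᶠ j in (𝒲 : Filter ((Finset (tm W) × ℕ) × ℕ)),
      (pl j).1 (rep W (EE j.1.1) g j.2) = (pl j).1 (rep W (EE j.1.1) S j.2) *
        (pl j).1 (algebraMap (W.L j.2) (EE j.1.1 j.2) (x j.2 i₀)) ^ t := by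
    have h1 := hLD.mul ⟨S, hS⟩ (gL (fun N => x N i₀) ^ t)
    have h2 := hLD.pow (gL (fun N => x N i₀)) t
    have h3 : ∀ᶠ j in (𝒲 : Filter ((Finset (tm W) × ℕ) × ℕ)),
        rep W (EE j.1.1) (germHom (fun N => (x N i₀ : Ω))) j.2 =
              algebraMap (W.L j.2) (EE j.1.1 j.2) (x j.2 i₀) :=
      hge ∅ 0 _ fun Φ n _ _ => rep_L (E := EE Φ) fun N => x N i₀
    filter_upwards [h1, h2, h3] with j h1 h2 h3
    have h4 : rep W (EE j.1.1) g j.2 = rep W (EE j.1.1) S j.2 *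
        rep W (EE j.1.1) (((gL (fun N => x N i₀) ^ t : tm W)) : UP Ω) j.2 := h1
    have h5 : rep W (EE j.1.1) (((gL (fun N => x N i₀) ^ t : tm W)) : UP Ω) j.2 =
        rep W (EE j.1.1) (germHom (fun N => (x N i₀ : Ω))) j.2 ^ t := h2
    rw [h4, h5, h3, map_mul, map_pow]
  have hbad : ∀ m : ℕ, ∀ᶠ j in (𝒲 : Filter ((Finset (tm W) × ℕ) × ℕ)),
      exp ((m * ta j.1.1 j.2 (pl j) : ℕ) : ℤ) *
        exp (if below (W.L j.2) (pl j) ∈ Z j.2 then (n : ℤ) else 0) <
        (pl j).1 (rep W (EE j.1.1) g j.2) := by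
    intro m
    have h1 : ∀ᶠ j in (𝒲 : Filter ((Finset (tm W) × ℕ) × ℕ)),
        m ≤ j.1.2 ∧ bad j.1.1 j.1.2 j.2 (pl j) (ii j) := by
      refine hge {⟨S, hS⟩} m _ fun Φ n' hΦ hn' => ?_
      filter_upwards [hta Φ n' (hgf Φ ⟨S, hS⟩ (hΦ (by simp)))] with N hN
      exact ⟨hn', hpl ((Φ, n'), N) hN⟩
    filter_upwards [h1, hi₀, hvg] with j h1 h2 h3
    rw [h3, ← h2]
    refine lt_of_le_of_lt ?_ h1.2
    refine mul_le_mul_left ?_ _
    rw [exp_le_exp]
    exact_mod_cast Nat.mul_le_mul_right _ h1.1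
  obtain ⟨hI, hII⟩ := h i₀ _ hvalP
  by_cases hgood : ∀ᶠ j in (𝒲 : Filter ((Finset (tm W) × ℕ) × ℕ)), ta j.1.1 j.2 (pl j) = 0 →
        below (W.L j.2) (pl j) ∉ P j.2 ∪ Z j.2
  · -- the ring satisfies the conditions outside `P ∪ Z`
    obtain ⟨hgt', hgO⟩ := (hmemO _).1 (hI (hval _ hgood))
    obtain ⟨m, hm⟩ := hLD.mem_O.1 hgO
    obtain ⟨j, hj1, hj2⟩ := (hm.and (hbad m)).exists
    have hj1' : (pl j).1 (rep W (EE j.1.1) g j.2) ≤ exp ((m * ta j.1.1 j.2 (pl j) : ℕ) : ℤ) := hj1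
    refine absurd (hj2.trans_le hj1') (not_lt.2 ?_)
    refine le_mul_of_one_le_right' ?_
    rw [← exp_zero, exp_le_exp]
    split_ifs
    · exact Nat.cast_nonneg _
    · exact le_rfl
  · -- the ring comes from places in `Z` at which everything is regular
    rw [← Ultrafilter.eventually_not] at hgood
    have hz : ∀ᶠ j in (𝒲 : Filter ((Finset (tm W) × ℕ) × ℕ)), ta j.1.1 j.2 (pl j) = 0 ∧
        below (W.L j.2) (pl j) ∈ Z j.2 := by
      filter_upwards [hgood] with j hj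
      rw [Classical.not_imp, not_not, Finset.mem_union] at hj
      exact ⟨hj.1, hj.2.resolve_left (hnotP j hj.1)⟩
    have hLV : LimV (derUP Δ.D) (tm W) (hLD.O.toSubring.map (algebraMap (tm W) (UP Ω))) 𝒲
        (fun j u => (pl j).1 (rep W (EE j.1.1) u j.2)) := by
      refine ⟨?_, ?_, ?_, ?_, ?_⟩
      · filter_upwards [hLD.one] with j hj
        have h1 : rep W (EE j.1.1) 1 j.2 = 1 := hj
        rw [h1, map_one]
      · intro a ha b hb
        filter_upwards [hLD.mul ⟨a, ha⟩ ⟨b, hb⟩] with j hj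
        have h1 : rep W (EE j.1.1) (a * b) j.2 =
          rep W (EE j.1.1) a j.2 * rep W (EE j.1.1) b j.2 := hj
        rw [h1, map_mul]
      · intro a ha b hb
        filter_upwards [hLD.add ⟨a, ha⟩ ⟨b, hb⟩] with j hj
        have h1 : rep W (EE j.1.1) (a + b) j.2 =
          rep W (EE j.1.1) a j.2 + rep W (EE j.1.1) b j.2 := hj
        rw [h1]
        exact (pl j).1.map_add _ _
      · intro a ha
        rw [hmemO]
        constructor
        · rintro ⟨h0, h1⟩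
          obtain ⟨m, hm⟩ := hLD.mem_O.1 h1
          filter_upwards [hm, hz] with j h1 h2
          rw [h2.1, mul_zero, Nat.cast_zero, exp_zero] at h1
          exact h1
        · intro h1
          refine ⟨ha, hLD.mem_O.2 ⟨0, ?_⟩⟩
          filter_upwards [h1] with j h1
          rw [zero_mul, Nat.cast_zero, exp_zero]
          exact h1
      · intro a ha
        filter_upwards [hLD.der ⟨a, ha⟩, hz] with j hj h2
        have h1 : rep W (EE j.1.1) (derUP Δ.D a) j.2 =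
          DE j.1.1 j.2 (rep W (EE j.1.1) a j.2) := hj
        have h3 := hLD.pole j (rep W (EE j.1.1) a j.2)
        rw [h2.1, Nat.cast_zero, add_zero] at h3
        rw [h1]
        exact h3
    obtain ⟨j, hj1, hj2, hj3⟩ := ((hII _ 𝒲 _ hLV).and (hz.and (hbad 0))).exists
    rw [if_pos hj2.2, zero_mul, Nat.cast_zero, exp_zero, one_mul] at hj3
    exact absurd hj1 (not_le.2 hj3)

end Pool.Agent.Lib.MP_44a246_ntYT
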