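import Mathlib
import Pool.Agent.Lib.MP_44a246_ntSF.SFB08
import Pool.Agent.Lib.MP_44a246_ntSF.SFC03
import Pool.Agent.Lib.MP_44a246_ntYT.YT00

/-!
# Theorem Y2: values of jet polynomials and of functions at the valuation rings
-/

namespace Pool.Agent.Lib.MP_44a246_ntYT

open Pool.Agent.Lib.MP_e52354_nt
open Pool.Agent.Lib.MP_44a246_nt
open Pool.Agent.Lib.MP_44a246_ntL
open Pool.Agent.Lib.MP_44a246_ntSF
open WithZero Module Polynomial

section

variable {F U M : Type*} [Field F] [Field U] [Algebra F U] [Field M] [Algebra M U]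
    {D : Derivation ℤ U U} {G : IntermediateField F U} {𝒪 : Set (Subring U)} (h : Fam D G 𝒪)
    (hMG : ∀ u : M, algebraMap M U u ∈ G)
include h hMG

/-- the value of a polynomial in the derivative is in `G` -/
theorem aeval_mem_G (t : M) (Θ : M[X]) : aeval (D (algebraMap M U t)) Θ ∈ G := by
  rw [aeval_eq_sum_range]
  refine G.sum_mem fun i _ => ?_
  rw [Algebra.smul_def]
  exact G.mul_mem (hMG _) (pow_mem (h.derG _ (hMG _)) i)

variable [Algebra F M]

/-- the value of a jet polynomial is integral at the rings at which the weight is admissible -/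
theorem jet_mem {q : ℚ} (hq0 : 0 ≤ q) {O : Subring U} (hO : O ∈ 𝒪) {v : Place F M}
    (hv : Over O v) (hc : WtAt D {O} v q) {t : M} {δ D' : Derivation ℤ M M}
    (hδ : ∀ u : M, D (algebraMap M U u) =
        algebraMap M U (δ u) + D (algebraMap M U t) * algebraMap M U (D' u))
    {Θ : M[X]} (hΘ : ∀ π : M, v.1 π = exp (-1 : ℤ) →
      ∃ b : M[X], (∀ i : ℕ, v.1 (b.coeff i) ≤ exp ⌊(i : ℚ) * q⌋) ∧
        Θ = b.comp ((X - C (- δ π / D' π)) * C (D' π))) :
    aeval (D (algebraMap M U t)) Θ ∈ O := by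
  classical
  obtain ⟨π, hπ⟩ := v.2.1 (exp (-1 : ℤ))
  have hπ0 : π ≠ 0 := by
    rintro rfl
    rw [map_zero] at hπ
    exact exp_ne_zero hπ.symm
  obtain ⟨b, hb, rfl⟩ := hΘ π hπ
  rw [aeval_comp]
  by_cases hD' : D' π = 0
  · -- the value is the constant coefficient
    have e : aeval (D (algebraMap M U t)) ((X - C (-δ π / D' π)) * C (D' π)) = 0 := by
      rw [hD', C_0, mul_zero, map_zero]
    rw [e, ← coeff_zero_eq_aeval_zero']
    refine (hv _).mpr ?_
    have h1 := hb 0
    simpa using h1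
  · have e : aeval (D (algebraMap M U t)) ((X - C (-δ π / D' π)) * C (D' π)) =
        D (algebraMap M U π) := by
      rw [hδ π, map_mul, map_sub, aeval_X, aeval_C, aeval_C]
      have h1 : algebraMap M U (D' π) ≠ 0 := by
        rw [Ne, map_eq_zero_iff _ (algebraMap M U).injective]
        exact hD'
      rw [map_div₀, map_neg]
      field_simp
      ring
    rw [e, aeval_eq_sum_range]
    refine O.sum_mem fun i _ => ?_
    rw [Algebra.smul_def]
    have hqd : 0 < q.den := q.pos
    have hmem : algebraMap M U (b.coeff i) * D (algebraMap M U π) ^ i ∈ G :=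
      G.mul_mem (hMG _) (pow_mem (h.derG _ (hMG _)) i)
    refine h.of_pow hO hmem hqd ?_
    have hp : ((q.num.toNat : ℕ) : ℚ) = q.den * q := by
      have h1 : 0 ≤ q.num := Rat.num_nonneg.mpr hq0
      have h2 : ((q.num.toNat : ℕ) : ℤ) = q.num := Int.toNat_of_nonneg h1
      have h3 : ((q.num.toNat : ℕ) : ℚ) = q.num := by
        rw [← h2]
        push_cast
        rfl
      rw [h3, Rat.den_mul_eq_num]
    have hW := hc O rfl hv π hπ q.num.toNat q.den hqd hp.le
    have hπU : algebraMap M U π ≠ 0 := by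
      rw [Ne, map_eq_zero_iff _ (algebraMap M U).injective]
      exact hπ0
    have e2 : (algebraMap M U (b.coeff i) * D (algebraMap M U π) ^ i) ^ q.den =
        algebraMap M U (b.coeff i ^ q.den * π ^ (i * q.num.toNat)) *
          (D (algebraMap M U π) ^ q.den / algebraMap M U π ^ q.num.toNat) ^ i := by
      rw [map_mul, map_pow, map_pow, div_pow, mul_pow, ← pow_mul, ← pow_mul, ← pow_mul,
        mul_comm i q.den, mul_comm i q.num.toNat]
      field_simp
    rw [e2]
    refine O.mul_mem ((hv _).mpr ?_) (O.pow_mem hW i)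
    rw [map_mul, map_pow, map_pow, hπ, ← exp_nsmul]
    have h3 : v.1 (b.coeff i) ^ q.den ≤ exp (q.den • ⌊(i : ℚ) * q⌋) := by
      rw [exp_nsmul]
      exact pow_le_pow_left₀ zero_le (hb i) _
    refine (mul_le_mul' h3 le_rfl).trans ?_
    rw [← exp_add, ← exp_zero]
    refine exp_le_exp.mpr ?_
    have h4 : ((⌊(i : ℚ) * q⌋ : ℤ) : ℚ) ≤ i * q := Int.floor_le _
    have h5 : ((q.den • ⌊(i : ℚ) * q⌋ + (i * q.num.toNat) • (-1 : ℤ) : ℤ) : ℚ) ≤ 0 := by
      push_cast
      rw [nsmul_eq_mul, nsmul_eq_mul]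
      push_cast
      have h6 : (q.den : ℚ) * (⌊(i : ℚ) * q⌋ : ℤ) ≤ q.den * (i * q) :=
        mul_le_mul_of_nonneg_left h4 (by positivity)
      rw [hp]
      nlinarith [h6]
    exact_mod_cast h5

omit h in
/-- the values of the elements of the maximal ideal are small -/
theorem LimV.lt_one {O : Subring U} {v : Place F M} (hv : Over O v)
    {J : Type*} {𝒲 : Ultrafilter J} {vv : J → U → ℤᵐ⁰} (hL : LimV D (G : Set U) O 𝒲 vv)
    {u : M} (hu0 : u ≠ 0) (hu : v.1 u < 1) :
    ∀ᶠ j in (𝒲 : Filter J), vv j (algebraMap M U u) ≤ exp (-1 : ℤ) := by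
  have h1 : algebraMap M U u⁻¹ ∉ O := by
    rw [hv, map_inv₀, not_le]
    have h0 : v.1 u ≠ 0 := (v.1.ne_zero_iff).2 hu0
    exact (one_lt_inv₀ (zero_lt_iff.2 h0)).2 hu
  rw [hL.mem _ (hMG _), ← Ultrafilter.eventually_not] at h1
  filter_upwards [h1, hL.mul _ (hMG u) _ (hMG u⁻¹), hL.one] with j g1 g2 g3
  rw [← map_mul, mul_inv_cancel₀ hu0, map_one, g3] at g2
  rw [not_le] at g1
  have h0 : vv j (algebraMap M U u) ≠ 0 := by
    intro h0
    rw [h0, zero_mul] at g2
    exact one_ne_zero g2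
  have h2 : vv j (algebraMap M U u) < 1 := by
    by_contra hcon
    push Not at hcon
    have h3 : (1 : ℤᵐ⁰) < vv j (algebraMap M U u) * vv j (algebraMap M U u⁻¹) :=
      lt_of_lt_of_le g1 (le_mul_of_one_le_left' hcon)
    rw [← g2] at h3
    exact lt_irrefl _ h3
  rw [← exp_log h0, ← exp_zero, exp_lt_exp] at h2
  rw [← exp_log h0, exp_le_exp]
  omega

/-- the value of a jet polynomial has at most a pole of order `s` at the limits of discrete
valuations -/
theorem jet_le {O : Subring U} {v : Place F M} (hv : Over O v)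
    {J : Type*} {𝒲 : Ultrafilter J} {vv : J → U → ℤᵐ⁰} (hL : LimV D (G : Set U) O 𝒲 vv)
    {t : M} {δ D' : Derivation ℤ M M}
    (hδ : ∀ u : M, D (algebraMap M U u) =
        algebraMap M U (δ u) + D (algebraMap M U t) * algebraMap M U (D' u))
    {s : ℕ} {Θ : M[X]} (hΘ : ∀ π : M,
      v.1 π = exp (-1 : ℤ) → ∃ b : M[X], (∀ i : ℕ, v.1 (b.coeff i) ≤ exp ((min i s : ℕ) : ℤ)) ∧
        Θ = b.comp ((X - C (- δ π / D' π)) * C (D' π))) :
    ∀ᶠ j in (𝒲 : Filter J), vv j (aeval (D (algebraMap M U t)) Θ) ≤ exp (s : ℤ) := by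
  classical
  have h1s : (1 : ℤᵐ⁰) ≤ exp (s : ℤ) := by
    rw [← exp_zero, exp_le_exp]
    exact Nat.cast_nonneg s
  have hint : ∀ u ∈ G, u ∈ O → ∀ᶠ j in (𝒲 : Filter J), vv j u ≤ exp (s : ℤ) := by
    intro u hu huO
    filter_upwards [(hL.mem u hu).1 huO] with j hj
    exact hj.trans h1s
  obtain ⟨π, hπ⟩ := v.2.1 (exp (-1 : ℤ))
  have hπ0 : π ≠ 0 := by
    rintro rfl
    rw [map_zero] at hπ
    exact exp_ne_zero hπ.symm
  obtain ⟨b, hb, rfl⟩ := hΘ π hπ
  by_cases hD' : D' π = 0
  · -- the value is the constant coefficient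
    refine hint _ (aeval_mem_G h hMG t _) ?_
    rw [aeval_comp]
    have e : aeval (D (algebraMap M U t)) ((X - C (-δ π / D' π)) * C (D' π)) = 0 := by
      rw [hD', C_0, mul_zero, map_zero]
    rw [e, ← coeff_zero_eq_aeval_zero']
    refine (hv _).mpr ?_
    have h1 := hb 0
    simpa using h1
  · have e : aeval (D (algebraMap M U t)) ((X - C (-δ π / D' π)) * C (D' π)) =
        D (algebraMap M U π) := by
      rw [hδ π, map_mul, map_sub, aeval_X, aeval_C, aeval_C]
      have h1 : algebraMap M U (D' π) ≠ 0 := by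
        rw [Ne, map_eq_zero_iff _ (algebraMap M U).injective]
        exact hD'
      rw [map_div₀, map_neg]
      field_simp
      ring
    rw [aeval_comp, e, aeval_eq_sum_range]
    have hπ1 : v.1 π < 1 := by
      rw [hπ, ← exp_zero, exp_lt_exp]
      norm_num
    have hπj := LimV.lt_one hMG hv hL hπ0 hπ1
    refine hL.sum (fun i _ => ?_) h1s fun i hi => ?_
    · rw [Algebra.smul_def]
      exact G.mul_mem (hMG _) (pow_mem (h.derG _ (hMG _)) i)
    · obtain ⟨k, hk⟩ : ∃ k, i = min i s + k := ⟨i - min i s, by omega⟩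
      obtain ⟨m, hm⟩ : ∃ m, m = min i s := ⟨_, rfl⟩
      rw [← hm] at hk
      have hms : m ≤ s := by omega
      have hmem : algebraMap M U (b.coeff i) * algebraMap M U π ^ m ∈ O := by
        rw [← map_pow, ← map_mul, hv, map_mul, map_pow, hπ, ← exp_nsmul]
        have hbi := hb i
        rw [← hm] at hbi
        refine (mul_le_mul' hbi le_rfl).trans ?_
        rw [← exp_add, ← exp_zero, exp_le_exp, nsmul_eq_mul]
        linarith
      rw [Algebra.smul_def]
      have hπG := pow_mem (hMG π) m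
      have hDG := h.derG _ (hMG π)
      filter_upwards [(hL.mem _ (G.mul_mem (hMG _) hπG)).1 hmem,
        hL.mul _ (hMG (b.coeff i)) _ hπG, hL.mul _ (hMG (b.coeff i)) _ (pow_mem hDG i),
        hL.pow (hMG π) m, hL.pow hDG i, hL.pole _ (hMG π), hπj] with j h1 h2 h3 h4 h5 h6 h7
      rw [h2, h4] at h1
      rw [h3, h5]
      have h8 : vv j (algebraMap M U π) * exp (1 : ℤ) ≤ 1 := by
        refine (mul_le_mul_left h7 _).trans ?_
        rw [← exp_add, ← exp_zero, exp_le_exp]
        norm_num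
      calc vv j (algebraMap M U (b.coeff i)) * vv j (D (algebraMap M U π)) ^ i
          ≤ vv j (algebraMap M U (b.coeff i)) *
            (vv j (algebraMap M U π) * exp (1 : ℤ)) ^ i := by
            refine mul_le_mul_right (pow_le_pow_left₀ zero_le h6 i) _
        _ = vv j (algebraMap M U (b.coeff i)) * vv j (algebraMap M U π) ^ m *
            exp (m : ℤ) * (vv j (algebraMap M U π) * exp (1 : ℤ)) ^ k := by
            have h9 : (vv j (algebraMap M U π) * exp (1 : ℤ)) ^ i =
                (vv j (algebraMap M U π) * exp (1 : ℤ)) ^ m *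
                (vv j (algebraMap M U π) * exp (1 : ℤ)) ^ k := by
              rw [← pow_add, ← hk]
            rw [h9, mul_pow _ _ m, ← exp_nsmul, nsmul_eq_mul, mul_one]
            simp only [mul_assoc]
        _ ≤ 1 * exp (m : ℤ) * 1 :=
            mul_le_mul' (mul_le_mul_left h1 _) (pow_le_one₀ zero_le h8)
        _ ≤ exp (s : ℤ) := by
            rw [one_mul, mul_one, exp_le_exp]
            exact_mod_cast hms

end

section

variable {F U : Type*} [Field F] [IsAlgClosed F] [CharZero F] [Field U] [Algebra F U]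
  {D : Derivation ℤ U U} {G : IntermediateField F U} {𝒪 : Set (Subring U)}

/-- the derivation of a stable finite extension `M'` of `M` is logarithmic at the places `w` with
`e (1 - c) < 1`, `c` an admissible weight of the place of `M` below `w` at the ring `O` over `w` -/
theorem log_at (h : Fam D G 𝒪) {M : Type*} [Field M] [Algebra F M] [Algebra M U]
    [IsScalarTower F M U] (hM : IsFF F M) {c : Place F M → ℚ} (hc0 : ∀ v, 0 ≤ c v)
    {O : Subring U} (hc : Wt D {O} c) {M' : Type*} [Field M'] [Algebra F M'] [Algebra M' U]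
    [IsScalarTower F M' U] [Algebra M M'] [IsScalarTower F M M'] [IsScalarTower M M' U]
    [FiniteDimensional M M'] (hMG : ∀ u : M', algebraMap M' U u ∈ G)
    {E : Derivation ℤ M' M'} (hE : ∀ u : M', D (algebraMap M' U u) = algebraMap M' U (E u))
    (w : Place F M') (hOw : Over O w)
    (hw : (ramIdx M w.1 : ℚ) * (1 - c (below M w)) < 1) (u : M')
    (hu : w.1 u < 1) : w.1 (E u) < 1 := by
  have hM' : IsFF F M' := hM.of_finite
  have hreg : ∀ y, w.1 y ≤ 1 → w.1 (E y) ≤ 1 := fun y hy => h.regular hM' hMG hE w y hy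
  have he := one_le_ramIdx (K := M) w.1 w.2.1
  have hOv : Over O (below M w) := by
    intro y
    rw [IsScalarTower.algebraMap_apply M M' U, hOw, below_pow]
    exact pow_le_one_iff (by omega)
  obtain ⟨π, hπ⟩ := (below M w).2.1 (exp (-1 : ℤ))
  have hπ' : w.1 (algebraMap M M' π) = exp (-(ramIdx M w.1 : ℤ)) := by
    rw [below_pow, hπ, ← exp_nsmul, nsmul_eq_mul]
    congr 1
    ring
  -- the weight inequality
  have hnum : 0 ≤ (c (below M w)).num := Rat.num_nonneg.2 (hc0 _)
  have hpq : (((c (below M w)).num.toNat : ℕ) : ℚ) = ((c (below M w)).den : ℚ) * c (below M w) := by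
    rw [mul_comm, Rat.mul_den_eq_num, ← Int.cast_natCast, Int.toNat_of_nonneg hnum]
  have h1 := hc O rfl (below M w) hOv π hπ (c (below M w)).num.toNat (c (below M w)).den
    (c (below M w)).den_pos hpq.le
  rw [IsScalarTower.algebraMap_apply M M' U, hE, ← map_pow (algebraMap M' U),
    ← map_pow (algebraMap M' U), ← map_div₀ (algebraMap M' U), hOw,
    map_div₀, map_pow, map_pow, hπ'] at h1
  -- the contradiction
  by_contra hcon
  push Not at hcon
  obtain ⟨ϖ, hϖ⟩ := w.2.1 (exp (-1 : ℤ))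
  have h2 := Pool.Agent.Lib.MP_44a246_ntSM.der_unif_of_not w E hreg hu hcon hϖ
  obtain ⟨k, hk⟩ : ∃ k, ramIdx M w.1 = k + 1 := ⟨ramIdx M w.1 - 1, by omega⟩
  rw [hk] at hπ' h1 hw
  have h3 := Pool.Agent.Lib.MP_44a246_ntSM.der_order w E hreg hϖ h2 hπ'
  rw [h3, ← exp_nsmul, ← exp_nsmul, ← exp_sub, ← exp_zero, exp_le_exp, nsmul_eq_mul,
    nsmul_eq_mul] at h1
  have h4 : ((k : ℚ) + 1) * (c (below M w)).num.toNat ≤ k * (c (below M w)).den := by
    have h5 : ((k : ℤ) + 1) * (c (below M w)).num.toNat ≤ k * (c (below M w)).den := by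
      push_cast at h1
      linarith
    exact_mod_cast h5
  rw [hpq] at h4
  have h6 : (0 : ℚ) < (c (below M w)).den := by exact_mod_cast (c (below M w)).den_pos
  have h7 : ((k : ℚ) + 1) * c (below M w) ≤ k := by
    by_contra h8
    push Not at h8
    have h9 := mul_lt_mul_of_pos_right h8 h6
    linarith
  push_cast at hw
  linarith

omit [IsAlgClosed F] [CharZero F] in
/-- a function with a pole of order at most `n` at a place which is not invariant has at most a
pole of order `n` at the limits of discrete valuations over this place -/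
theorem fun_le {M : Type*} [Field M] [Algebra F M] [Algebra M U]
    [IsScalarTower F M U] (hMG : ∀ u : M, algebraMap M U u ∈ G)
    {E : Derivation ℤ M M} (hE : ∀ u : M, D (algebraMap M U u) = algebraMap M U (E u))
    {w : Place F M} (hreg : ∀ u, w.1 u ≤ 1 → w.1 (E u) ≤ 1) {O : Subring U} (hOw : Over O w)
    {u : M} (hu : w.1 u < 1) (hEu : ¬ w.1 (E u) < 1)
    {J : Type*} {𝒲 : Ultrafilter J} {vv : J → U → ℤᵐ⁰} (hL : LimV D (G : Set U) O 𝒲 vv)
    {n : ℕ} {s : M} (hs : w.1 s ≤ exp (n : ℤ)) :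
    ∀ᶠ j in (𝒲 : Filter J), vv j (algebraMap M U s) ≤ exp (n : ℤ) := by
  obtain ⟨π, hπ⟩ := w.2.1 (exp (-1 : ℤ))
  have h2 : w.1 (E π) = 1 :=
    Pool.Agent.Lib.MP_44a246_ntSM.der_unif_of_not w E hreg hu (not_lt.1 hEu) hπ
  have hE1 : algebraMap M U (E π) ∈ O := (hOw _).2 h2.le
  have hE2 : algebraMap M U (E π)⁻¹ ∈ O := (hOw _).2 (by rw [map_inv₀, h2, inv_one])
  have hE0 : E π ≠ 0 := by
    rintro h0
    rw [h0, map_zero] at h2
    exact zero_ne_one h2
  have hE3 : algebraMap M U (E π) * algebraMap M U (E π)⁻¹ = 1 := by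
    rw [← map_mul, mul_inv_cancel₀ hE0, map_one]
  have hsn : algebraMap M U s * algebraMap M U π ^ n ∈ O := by
    rw [← map_pow, ← map_mul, hOw, map_mul, map_pow, hπ, ← exp_nsmul, nsmul_eq_mul]
    refine (mul_le_mul' hs le_rfl).trans ?_
    rw [← exp_add, ← exp_zero, exp_le_exp]
    linarith
  filter_upwards [(hL.mem _ (hMG _)).1 hE1, (hL.mem _ (hMG _)).1 hE2,
    hL.mul _ (hMG (E π)) _ (hMG (E π)⁻¹), hL.pole _ (hMG π),
    (hL.mem _ (G.mul_mem (hMG _) (pow_mem (hMG π) n))).1 hsn,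
    hL.mul _ (hMG s) _ (pow_mem (hMG π) n), hL.pow (hMG π) n, hL.one] with
    j g1 g2 g3 g4 g5 g6 g7 g8
  rw [hE3, g8] at g3
  have g9 : 1 ≤ vv j (algebraMap M U (E π)) := by
    calc (1 : ℤᵐ⁰) = vv j (algebraMap M U (E π)) * vv j (algebraMap M U (E π)⁻¹) := g3
      _ ≤ vv j (algebraMap M U (E π)) * 1 := mul_le_mul_right g2 _
      _ = _ := mul_one _
  rw [hE π] at g4
  have g10 := g9.trans g4
  rw [g6, g7] at g5
  calc vv j (algebraMap M U s) = vv j (algebraMap M U s) * 1 := (mul_one _).symm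
    _ ≤ vv j (algebraMap M U s) * (vv j (algebraMap M U π) * exp (1 : ℤ)) ^ n :=
        mul_le_mul_right (one_le_pow₀ g10) _
    _ = vv j (algebraMap M U s) * vv j (algebraMap M U π) ^ n * exp (n : ℤ) := by
        rw [mul_pow, mul_assoc, ← exp_nsmul, nsmul_eq_mul, mul_one]
    _ ≤ 1 * exp (n : ℤ) := mul_le_mul_left g5 _
    _ = _ := one_mul _

end

end Pool.Agent.Lib.MP_44a246_ntYT
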