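import Mathlib
import Pool.Agent.Lib.MP_44a246_ntSF.SFA05
import Pool.Agent.Lib.MP_44a246_ntSF.SFB10
import Pool.Agent.Lib.MP_44a246_ntYT.YT01
import Pool.Agent.Lib.MP_44a246_ntYT.YT03
import Pool.Agent.Lib.MP_44a246_ntYT.YT04

/-!
# Theorem Y2
-/

namespace Pool.Agent.Lib.MP_44a246_ntYT

open Pool.Agent.Lib.MP_e52354_nt
open Pool.Agent.Lib.MP_44a246_nt
open Pool.Agent.Lib.MP_44a246_ntL
open Pool.Agent.Lib.MP_44a246_ntR
open Pool.Agent.Lib.MP_44a246_ntSH
open Pool.Agent.Lib.MP_44a246_ntSM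
open Pool.Agent.Lib.MP_44a246_ntSF
open WithZero Module Polynomial

section Divisors

variable {F L : Type*} [Field F] [IsAlgClosed F] [CharZero F] [Field L] [Algebra F L]

/-- the polar divisor of a point of projective space with a coordinate equal to `1` -/
theorem exists_polar (hL : IsFF F L) {r : ℕ} {y : Fin (r + 1) → L} {l : Fin (r + 1)}
    (hl : y l = 1) : ∃ A : Place F L →₀ ℤ, (∀ v, 0 ≤ A v) ∧ divDeg A = height F y ∧
      ∀ v i, v.1 (y i) ≤ exp (A v) := by
  have hy : y ≠ 0 := by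
    intro h0
    have h1 := congrFun h0 l
    rw [hl] at h1
    exact one_ne_zero h1
  have hs := hL.vmax_support hy
  refine ⟨Finsupp.ofSupportFinite (fun v => log (vmax v.1 y)) hs, fun v => ?_, ?_, fun v i => ?_⟩
  · rw [Finsupp.ofSupportFinite_coe]
    have h1 : 1 ≤ vmax v.1 y := by
      have h2 := le_vmax v.1 y l
      rwa [hl, map_one] at h2
    have h0 : vmax v.1 y ≠ 0 := (lt_of_lt_of_le zero_lt_one h1).ne'
    rw [le_log_iff_exp_le h0, exp_zero]
    exact h1
  · unfold divDeg height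
    rw [Finsupp.sum, ← finsum_eq_sum_of_support_subset]
    · rfl
    · intro v hv
      rw [Finset.mem_coe, Finsupp.mem_support_iff]
      exact hv
  · rw [Finsupp.ofSupportFinite_coe, exp_log (by rw [Ne, vmax_eq_zero_iff]; exact hy)]
    exact le_vmax v.1 y i

omit [IsAlgClosed F] [CharZero F] in
private theorem divDeg_nsmul (m : ℕ) (D : Place F L →₀ ℤ) : divDeg (m • D) = m * divDeg D := by
  induction m with
  | zero =>
    rw [zero_smul, Nat.cast_zero, zero_mul]
    rfl
  | succ m ih =>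
    rw [succ_nsmul, divDeg_add, ih]
    push_cast
    ring

omit [IsAlgClosed F] [CharZero F] in
private theorem divDeg_neg (D : Place F L →₀ ℤ) : divDeg (-D) = - divDeg D := by
  have h := divDeg_add D (-D)
  rw [add_neg_cancel] at h
  have h0 : divDeg (0 : Place F L →₀ ℤ) = 0 := rfl
  rw [h0] at h
  linarith

/-- a function with simple poles (up to a multiple) in `B` which vanishes along `A` -/
theorem exists_fun (hL : IsFF F L) (B : Finset (Place F L)) (A : Place F L →₀ ℤ)
    (hA : ∀ v, 0 ≤ A v) {θ : ℚ} (hθ0 : 0 ≤ θ) (hθ : θ * divDeg A < B.card) :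
    ∃ (n t : ℕ) (s : L), 0 < n ∧ θ * n ≤ t ∧ s ≠ 0 ∧ (∀ v ∈ B, v.1 s ≤ exp (n - t * A v)) ∧
      ∀ v ∉ B, v.1 s ≤ exp (- (t * A v)) := by
  classical
  have hA0 : 0 ≤ divDeg A := Finsupp.sum_nonneg fun v _ => hA v
  have hA0' : (0 : ℚ) ≤ divDeg A := by exact_mod_cast hA0
  have hε : (0 : ℚ) < B.card - θ * divDeg A := by linarith
  obtain ⟨n, hn⟩ := exists_nat_gt (((genus F L : ℚ) + divDeg A) / (B.card - θ * divDeg A))
  have hn0 : 0 < n := by
    rw [Nat.pos_iff_ne_zero]
    rintro rfl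
    have : (0 : ℚ) ≤ ((genus F L : ℚ) + divDeg A) / (B.card - θ * divDeg A) := by positivity
    rw [Nat.cast_zero] at hn
    linarith
  rw [div_lt_iff₀ hε] at hn
  obtain ⟨t, ht⟩ : ∃ t : ℕ, t = ⌈θ * n⌉₊ := ⟨_, rfl⟩
  have ht1 : θ * n ≤ t := by rw [ht]; exact Nat.le_ceil _
  have ht2 : (t : ℚ) ≤ θ * n + 1 := by
    rw [ht]
    exact (Nat.ceil_lt_add_one (by positivity)).le
  obtain ⟨E, hE⟩ : ∃ E : Place F L →₀ ℤ, E = n • (∑ v ∈ B, Finsupp.single v 1) + t • (-A) :=
    ⟨_, rfl⟩
  have hdB : ∀ B' : Finset (Place F L), divDeg (∑ v ∈ B', Finsupp.single v (1 : ℤ)) = B'.card := by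
    intro B'
    induction B' using Finset.induction_on with
    | empty =>
      rw [Finset.sum_empty, Finset.card_empty]
      rfl
    | insert v B' hv ih =>
      rw [Finset.sum_insert hv, divDeg_add, divDeg_single, ih, Finset.card_insert_of_notMem hv]
      push_cast
      ring
  have hdeg : divDeg E = n * B.card - t * divDeg A := by
    rw [hE, divDeg_add, divDeg_nsmul, divDeg_nsmul, divDeg_neg, hdB]
    ring
  have h1 := genus_spec hL E
  have h2 : (0 : ℤ) < finrank F (rr E) := by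
    refine lt_of_lt_of_le ?_ h1
    rw [hdeg]
    have h3 : ((genus F L : ℤ) : ℚ) < ((n * B.card - t * divDeg A + 1 : ℤ) : ℚ) := by
      push_cast
      have h4 : (t : ℚ) * divDeg A ≤ (θ * n + 1) * divDeg A :=
        mul_le_mul_of_nonneg_right ht2 hA0'
      nlinarith
    have h4 : (genus F L : ℤ) < n * B.card - t * divDeg A + 1 := by exact_mod_cast h3
    linarith
  have h3 : 0 < finrank F (rr E) := by exact_mod_cast h2
  have : FiniteDimensional F (rr E) := Module.finite_of_finrank_pos h3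
  obtain ⟨s, hs⟩ := (finrank_pos_iff_exists_ne_zero).1 h3
  have hBv : ∀ v, (∑ w ∈ B, Finsupp.single w (1 : ℤ)) v = if v ∈ B then 1 else 0 := by
    intro v
    rw [Finsupp.finsetSum_apply]
    by_cases hv : v ∈ B
    · rw [if_pos hv, Finset.sum_eq_single v]
      · exact Finsupp.single_eq_same
      · intro w _ hw
        exact Finsupp.single_eq_of_ne hw.symm
      · intro h
        exact absurd hv h
    · rw [if_neg hv]
      refine Finset.sum_eq_zero fun w hw => Finsupp.single_eq_of_ne ?_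
      rintro rfl
      exact hv hw
  have hEv : ∀ v, E v = n * (if v ∈ B then 1 else 0) - t * A v := by
    intro v
    rw [hE, Finsupp.add_apply, Finsupp.smul_apply, Finsupp.smul_apply, Finsupp.neg_apply, hBv,
      nsmul_eq_mul, nsmul_eq_mul]
    ring
  refine ⟨n, t, (s : L), hn0, ht1, fun h0 => hs (Subtype.ext h0), fun v hv => ?_, fun v hv => ?_⟩
  · refine (s.2 v).trans (le_of_eq ?_)
    rw [hEv, if_pos hv, mul_one]
  · refine (s.2 v).trans (le_of_eq ?_)
    rw [hEv, if_neg hv, mul_zero, zero_sub]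

end Divisors

universe u v w

variable {κ : Type u} {K : Type v} {Ω : Type w} [Field κ] [IsAlgClosed κ] [CharZero κ] [Field K]
  [Algebra κ K] [Field Ω] [Algebra K Ω] [Algebra κ Ω] [IsScalarTower κ K Ω] {W : Tow κ K Ω}

/-- the height is small -/
theorem height_small {r : ℕ} {x : ∀ N, Fin (r + 1) → W.L N} {l : Fin (r + 1)}
    (hl : ∀ N, x N l = 1) {Z : ∀ N, Finset (Place κ (W.L N))} {n t : ℕ} {ν : ℚ}
    (hν : ν * n < t)
    (h1 : ∃ C : ℕ, ∀ᶠ N in (Filter.hyperfilter ℕ : Filter ℕ),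
      t * height κ (x N) ≤ (n : ℤ) * (Z N).card + C * (W.T N : ℤ))
    (h2 : ∃ C : ℕ, ∀ᶠ N in (Filter.hyperfilter ℕ : Filter ℕ),
      ((Z N).card : ℚ) ≤ ν * height κ (x N) + C * (W.T N : ℚ)) :
    ∃ C : ℕ, ∀ᶠ N in (Filter.hyperfilter ℕ : Filter ℕ), height κ (x N) ≤ C * (W.T N : ℤ) := by
  obtain ⟨C₁, h1⟩ := h1
  obtain ⟨C₂, h2⟩ := h2
  have hn' : (0 : ℚ) ≤ n := Nat.cast_nonneg n
  have hε : (0 : ℚ) < t - ν * n := by linarith
  refine ⟨⌈((C₁ : ℚ) + n * C₂) / (t - ν * n)⌉₊, ?_⟩
  filter_upwards [h1, h2] with N g1 g2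
  have := W.fin N
  have hff : IsFF κ (W.L N) := W.ff.of_finite
  have hx0 : x N ≠ 0 := by
    intro h0
    have h3 := congrFun h0 l
    rw [hl] at h3
    exact one_ne_zero h3
  have h0 : (0 : ℚ) ≤ height κ (x N) := by exact_mod_cast hff.height_nonneg hx0
  have hT : (0 : ℚ) ≤ W.T N := Nat.cast_nonneg _
  have g1' : (t : ℚ) * height κ (x N) ≤ n * (Z N).card + C₁ * (W.T N : ℚ) := by exact_mod_cast g1
  have g4 : (n : ℚ) * (Z N).card ≤ n * (ν * height κ (x N) + C₂ * (W.T N : ℚ)) :=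
    mul_le_mul_of_nonneg_left g2 hn'
  have g5 : (t - ν * n) * height κ (x N) ≤ (C₁ + n * C₂) * (W.T N : ℚ) := by linarith
  have g6 : (height κ (x N) : ℚ) ≤ ((C₁ + n * C₂) / (t - ν * n)) * (W.T N : ℚ) := by
    rw [div_mul_eq_mul_div, le_div_iff₀ hε]
    linarith
  have g7 : (height κ (x N) : ℚ) ≤ (⌈((C₁ : ℚ) + n * C₂) / (t - ν * n)⌉₊ : ℚ) * (W.T N : ℚ) :=
    g6.trans (mul_le_mul_of_nonneg_right (Nat.le_ceil _) hT)
  exact_mod_cast g7

/-- the slope between `ν` and the quotient -/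
private theorem exists_slope {ν m χ : ℚ} (hm : 0 ≤ m) (h : ν * m < χ) :
    ∃ θ : ℚ, ν < θ ∧ θ * m < χ := by
  rcases hm.eq_or_lt with h0 | h0
  · refine ⟨ν + 1, by linarith, ?_⟩
    rw [← h0] at h ⊢
    linarith
  · refine ⟨(ν + χ / m) / 2, ?_, ?_⟩
    · have : ν < χ / m := by rwa [lt_div_iff₀ h0]
      linarith
    · have h1 : χ / m * m = χ := div_mul_cancel₀ _ h0.ne'
      have h2 : (ν + χ / m) / 2 * m = (ν * m + χ / m * m) / 2 := by ring
      rw [h2, h1]
      linarith

/-- the case of a point on a curve which is stable -/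
private theorem num_stable {k₀ q σ a : ℚ} (hk₀ : k₀ ≤ 0) (hq : 0 ≤ q) (hσ0 : 0 < σ)
    (ha : 0 ≤ a) (h : k₀ + q ≤ a) : k₀ + σ * (2 - σ) * q ≤ 2 * (σ * a) := by
  have h2 : 0 ≤ σ * (a - (k₀ + q)) := mul_nonneg hσ0.le (by linarith)
  have hσa : 0 ≤ σ * a := mul_nonneg hσ0.le ha
  rcases le_or_gt (k₀ + q) 0 with h1 | h1
  · have h3 : σ * (2 - σ) * q ≤ 1 * q := by
      refine mul_le_mul_of_nonneg_right ?_ hq
      nlinarith [sq_nonneg (1 - σ)]
    linarith
  · rcases le_or_gt (2 * σ) 1 with h4 | h4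
    · have h5 : k₀ * (1 - 2 * σ) ≤ 0 := mul_nonpos_of_nonpos_of_nonneg hk₀ (by linarith)
      have h6 : 0 ≤ σ * σ * q := by positivity
      nlinarith
    · have h5 : -k₀ * (2 * σ - 1) ≤ q * (2 * σ - 1) :=
        mul_le_mul_of_nonneg_right (by linarith) (by linarith)
      have h6 : q * (2 * σ - 1) ≤ q * (σ * σ) := by
        refine mul_le_mul_of_nonneg_left ?_ hq
        nlinarith [sq_nonneg (1 - σ)]
      nlinarith

open scoped Classical in
/-- **Theorem Y2.** `M` is a function field over the field of the small germs in the field of the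
tame germs, with weights `c` which are admissible at all places, and a finite set `B` of places at
which the weight `1` is admissible outside the places in `Z`, and `γ` is a point over
`M` which is the germ of the points `x N`. If the number of elements of `Z N` is at most `ν` times
the height of `x N` (up to a small error) then the canonical degree of `M` plus the sum of the
weights `c` plus `σ (2 - σ)` times the number of elements of `B` is at most `2 σ ν` times the height
of `γ`, for all `0 < σ ≤ 1`. -/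
theorem theoremY [IsAlgClosed Ω] [Algebra.IsAlgebraic K Ω] (Δ : DOm κ K Ω)
    (P : ∀ N, Finset (Place κ (W.L N))) {p : ℕ} (hP : ∀ N, (P N).card ≤ p * W.T N)
    (Z : ∀ N, Finset (Place κ (W.L N))) {M : Type w} [Field M] [Algebra W.F0 M]
    [Algebra M (UP Ω)] [IsScalarTower W.F0 M (UP Ω)] [Algebra (RatFunc W.F0) M]
    [IsScalarTower W.F0 (RatFunc W.F0) M] [FiniteDimensional (RatFunc W.F0) M]
    (hMG : ∀ u : M, algebraMap M (UP Ω) u ∈ tm W) (c : Place W.F0 M →₀ ℚ)
    (hc0 : ∀ v, 0 ≤ c v) (hc1 : ∀ v, c v ≤ 1)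
    (hc : ∀ v, WtAt (derUP Δ.D) {O | IsVal W Δ P O} v (c v))
    (B : Finset (Place W.F0 M)) (hcB : ∀ v ∈ B, c v = 0)
    (hB : ∀ v ∈ B, WtAt (derUP Δ.D) {O | IsVal W Δ (fun N => P N ∪ Z N) O} v 1)
    {r : ℕ} {x : ∀ N, Fin (r + 1) → W.L N} {l : Fin (r + 1)} (hl : ∀ N, x N l = 1)
    {γ : Fin (r + 1) → M} (hγ : ∀ i, algebraMap M (UP Ω) (γ i) = germHom (fun N => (x N i : Ω)))
    (hbig : ∀ C : ℕ, ¬ ∀ᶠ N in (Filter.hyperfilter ℕ : Filter ℕ),
      height κ (x N) ≤ C * (W.T N : ℤ)) {ν : ℚ} (hν0 : 0 ≤ ν)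
    (hZ : ∃ C : ℕ, ∀ᶠ N in (Filter.hyperfilter ℕ : Filter ℕ),
      ((Z N).card : ℚ) ≤ ν * height κ (x N) + C * (W.T N : ℚ))
    {σ : ℚ} (hσ0 : 0 < σ) (hσ1 : σ ≤ 1) :
    (ramDeg W.F0 M (RatFunc W.F0) : ℚ) - 2 * finrank (RatFunc W.F0) M +
      (c.sum fun _ x => x) + σ * (2 - σ) * B.card ≤ 2 * (σ * (ν * height W.F0 γ)) := by
  by_contra hcon
  push Not at hcon
  have hcΩ : CharZero Ω := charZero_of_injective_algebraMap (algebraMap κ Ω).injective
  have hcUP : CharZero (UP Ω) := charZero_of_injective_ringHom (constHom (L := Ω)).injective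
  have hM : IsFF W.F0 M := isFF_of_ratFunc W.F0 M
  have hfam := fam_val Δ P hP
  have hγl : γ l = 1 := by
    apply (algebraMap M (UP Ω)).injective
    rw [hγ, map_one]
    have : (fun N => (x N l : Ω)) = 1 := funext fun N => by rw [hl]; rfl
    rw [this, map_one]
  obtain ⟨A, hA0, hAdeg, hA⟩ := exists_polar hM hγl
  have hm0 : (0 : ℚ) ≤ divDeg A := by
    have : (0 : ℤ) ≤ divDeg A := Finsupp.sum_nonneg fun v _ => hA0 v
    exact_mod_cast this
  rw [← hAdeg] at hcon
  -- the slope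
  obtain ⟨θ, hθν, hθ⟩ : ∃ θ : ℚ, σ * ν < θ ∧ 2 * θ * divDeg A <
      (ramDeg W.F0 M (RatFunc W.F0) : ℚ) - 2 * finrank (RatFunc W.F0) M +
      (c.sum fun _ x => x) + σ * (2 - σ) * B.card := by
    obtain ⟨θ, h1, h2⟩ := exists_slope (ν := σ * ν) (m := divDeg A)
      (χ := ((ramDeg W.F0 M (RatFunc W.F0) : ℚ) - 2 * finrank (RatFunc W.F0) M +
      (c.sum fun _ x => x) + σ * (2 - σ) * B.card) / 2) hm0 (by linarith)
    exact ⟨θ, h1, by linarith⟩
  have hσν : 0 ≤ σ * ν := mul_nonneg hσ0.le hν0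
  have hθ0 : 0 ≤ θ := hσν.trans hθν.le
  -- the final contradiction
  have hfin : ∀ n t : ℕ, ν * n < t → (∃ C : ℕ, ∀ᶠ N in (Filter.hyperfilter ℕ : Filter ℕ),
      t * height κ (x N) ≤ (n : ℤ) * (Z N).card + C * (W.T N : ℤ)) → False := by
    intro n t ht h1
    obtain ⟨C, hC⟩ := height_small hl ht h1 hZ
    exact hbig C hC
  have hk0 : (ramDeg W.F0 M (RatFunc W.F0) : ℚ) - 2 * finrank (RatFunc W.F0) M +
      (c.sum fun _ x => x) ≤ 0 := theoremB hfam hMG c hc0 hc1 (wt_iff.2 hc)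
  -- the jets
  obtain ⟨δ, D', h1, h2, h3, h4, h5⟩ := exists_delta (M := M) (derUP Δ.D) hfam.derF
  obtain ⟨n, t, s, Θ, hn, ht, hs, hΘ0, hΘ⟩ := exists_jetT δ D' h1 h2 h3 h4 c hc1 A hA0 B hcB hθ0
    hσ0 hσ1 hθ
  have hwt : ∀ O : Subring (UP Ω), IsVal W Δ P O → ∀ v, WtAt (derUP Δ.D) {O} v (c v) := by
    intro O hO v O' hO'
    rw [Set.mem_singleton_iff.1 hO']
    exact hc v O hO
  have hwtB : ∀ O : Subring (UP Ω), IsVal W Δ (fun N => P N ∪ Z N) O → ∀ v ∈ B,
      WtAt (derUP Δ.D) {O} v 1 := by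
    intro O hO v hv O' hO'
    rw [Set.mem_singleton_iff.1 hO']
    exact hB v hv O hO
  by_cases hR : aeval (derUP Δ.D (algebraMap M (UP Ω) (tL W.F0 M))) Θ = 0
  · -- the weights with the places of `B`
    obtain ⟨c', hc'⟩ : ∃ c' : Place W.F0 M →₀ ℚ, c' = c + ∑ v ∈ B, Finsupp.single v 1 := ⟨_, rfl⟩
    have hc'v : ∀ v, c' v = if v ∈ B then 1 else c v := by
      intro v
      rw [hc', Finsupp.add_apply, Finsupp.finsetSum_apply]
      by_cases hv : v ∈ B
      · rw [if_pos hv, hcB v hv, zero_add, Finset.sum_eq_single v]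
        · exact Finsupp.single_eq_same
        · intro w _ hw
          exact Finsupp.single_eq_of_ne hw.symm
        · intro h
          exact absurd hv h
      · rw [if_neg hv, Finset.sum_eq_zero, add_zero]
        intro w hw
        refine Finsupp.single_eq_of_ne ?_
        rintro rfl
        exact hv hw
    have hc'sum : (c'.sum fun _ x => x) = (c.sum fun _ x => x) + B.card := by
      have h6 : ∀ B' : Finset (Place W.F0 M), ((∑ v ∈ B', Finsupp.single v (1 : ℚ)).sum
          fun _ x => x) = B'.card := by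
        intro B'
        induction B' using Finset.induction_on with
        | empty =>
          rw [Finset.sum_empty, Finset.card_empty, Finsupp.sum_zero_index, Nat.cast_zero]
        | insert v B' hv ih =>
          rw [Finset.sum_insert hv, Finsupp.sum_add_index' (fun _ => rfl) (fun _ _ _ => rfl), ih,
            Finsupp.sum_single_index rfl, Finset.card_insert_of_notMem hv]
          push_cast
          ring
      rw [hc', Finsupp.sum_add_index' (fun _ => rfl) (fun _ _ _ => rfl), h6]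
    have hc'0 : ∀ v, 0 ≤ c' v := by
      intro v
      rw [hc'v]
      split_ifs
      · exact zero_le_one
      · exact hc0 v
    have hc'1 : ∀ v, c' v ≤ 1 := by
      intro v
      rw [hc'v]
      split_ifs
      · exact le_rfl
      · exact hc1 v
    have hwt' : ∀ O : Subring (UP Ω), IsVal W Δ P O → IsVal W Δ (fun N => P N ∪ Z N) O →
        Wt (derUP Δ.D) {O} c' := by
      intro O hO hO'
      rw [wt_iff]
      intro v
      rw [hc'v]
      split_ifs with hv
      · exact hwtB O hO' v hv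
      · exact hwt O hO v
    have hχ : ν * divDeg A < (ramDeg W.F0 M (RatFunc W.F0) : ℚ) - 2 * finrank (RatFunc W.F0) M +
        (c'.sum fun _ x => x) := by
      by_contra hcon'
      push Not at hcon'
      rw [hc'sum] at hcon'
      have h6 := num_stable hk0 (Nat.cast_nonneg B.card) hσ0
        (mul_nonneg hν0 hm0) (by linarith)
      linarith
    -- the field `M (D t)`
    obtain ⟨M', E, hfin', hM'G, hE⟩ := exists_stable hfam.derG hMG h5 hΘ0 (a := 0)
      (by rw [map_zero, hR])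
    let iR : Algebra (RatFunc W.F0) M' :=
      ((algebraMap M M').comp (algebraMap (RatFunc W.F0) M)).toAlgebra
    have t1 : IsScalarTower (RatFunc W.F0) M M' := IsScalarTower.of_algebraMap_eq' rfl
    have t2 : IsScalarTower W.F0 (RatFunc W.F0) M' := IsScalarTower.of_algebraMap_eq fun x => by
      rw [IsScalarTower.algebraMap_apply W.F0 M M',
        IsScalarTower.algebraMap_apply (RatFunc W.F0) M M',
        IsScalarTower.algebraMap_apply W.F0 (RatFunc W.F0) M]
    have t3 : FiniteDimensional (RatFunc W.F0) M' := FiniteDimensional.trans (RatFunc W.F0) M M'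
    have hM' : IsFF W.F0 M' := isFF_of_ratFunc W.F0 M'
    have hM'G' : ∀ u : M', algebraMap M' (UP Ω) u ∈ tm W := hM'G
    have hE' : ∀ u : M', derUP Δ.D (algebraMap M' (UP Ω) u) = algebraMap M' (UP Ω) (E u) := hE
    have hreg := hfam.regular hM' hM'G' hE'
    have hEF : ∀ x : W.F0, ∃ x' : W.F0, E (algebraMap W.F0 M' x) = algebraMap W.F0 M' x' := by
      intro x
      obtain ⟨x', hx'⟩ := hfam.derF x
      refine ⟨x', (algebraMap M' (UP Ω)).injective ?_⟩
      rw [← hE', ← IsScalarTower.algebraMap_apply W.F0 M' (UP Ω),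
        ← IsScalarTower.algebraMap_apply W.F0 M' (UP Ω), hx']
    have hker : ∀ u : M', E u = 0 → ∃ x : W.F0, algebraMap W.F0 M' x = u := by
      intro u hu
      have h6 : derUP Δ.D (algebraMap M' (UP Ω) u) = 0 := by rw [hE', hu, map_zero]
      obtain ⟨x, hx⟩ := hfam.ker _ (hM'G' u) h6
      refine ⟨x, (algebraMap M' (UP Ω)).injective ?_⟩
      rw [← IsScalarTower.algebraMap_apply W.F0 M' (UP Ω)]
      exact hx
    obtain ⟨B', hB', hBd⟩ := exists_bdry (M' := M') c' hc'1
    -- the invariant places and the others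
    obtain ⟨Bi, hBi⟩ : ∃ Bi : Finset (Place W.F0 M'), Bi = B'.filter fun w =>
        ∀ u, w.1 u < 1 → w.1 (E u) < 1 := ⟨_, rfl⟩
    obtain ⟨Bn, hBn⟩ : ∃ Bn : Finset (Place W.F0 M'), Bn = B'.filter fun w =>
        ¬ ∀ u, w.1 u < 1 → w.1 (E u) < 1 := ⟨_, rfl⟩
    have hcard : Bi.card + Bn.card = B'.card := by
      rw [hBi, hBn]
      exact Finset.card_filter_add_card_filter_not _
    have hBi0 : (ramDeg W.F0 M' (RatFunc W.F0) : ℤ) - 2 * finrank (RatFunc W.F0) M' + Bi.card ≤
        0 := by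
      by_cases hne : Bi.Nonempty
      · exact final_log E hEF hker hreg hne fun w hw u hu => by
          rw [hBi, Finset.mem_filter] at hw
          exact hw.2 u hu
      · rw [Finset.not_nonempty_iff_eq_empty] at hne
        rw [hne, Finset.card_empty, Nat.cast_zero, add_zero]
        by_contra hpos
        push Not at hpos
        obtain ⟨v, hv⟩ := Pool.Agent.Lib.MP_44a246_ntSM.exists_horizontal E hEF hreg (by omega)
        have h6 := final_log E hEF hker hreg (B := {v}) (Finset.singleton_nonempty v)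
          (fun w hw u hu => by
            rw [Finset.mem_singleton] at hw
            rw [hw] at hu ⊢
            exact hv u hu)
        rw [Finset.card_singleton] at h6
        push_cast at h6
        omega
    -- the polar divisor
    have hγ'l : algebraMap M M' (γ l) = 1 := by rw [hγl, map_one]
    obtain ⟨A', hA'0, hA'deg, hA'⟩ := exists_polar (y := fun i => algebraMap M M' (γ i)) hM' hγ'l
    have hγ0 : γ ≠ 0 := fun h0 => one_ne_zero (hγl.symm.trans (congrFun h0 l))
    have hdeg' : divDeg A' = finrank M M' * divDeg A := by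
      rw [hA'deg, hAdeg]
      exact hM'.height_ext hγ0
    have hrk : (0 : ℚ) < finrank M M' := by exact_mod_cast finrank_pos
    have hm0' : (0 : ℚ) ≤ divDeg A' := by
      have : (0 : ℤ) ≤ divDeg A' := Finsupp.sum_nonneg fun v _ => hA'0 v
      exact_mod_cast this
    have hlt : ν * divDeg A' < Bn.card := by
      have g1 : ((ramDeg W.F0 M' (RatFunc W.F0) : ℚ) - 2 * finrank (RatFunc W.F0) M' +
          Bi.card) ≤ 0 := by exact_mod_cast hBi0
      have g2 : (Bi.card : ℚ) + Bn.card = B'.card := by exact_mod_cast hcard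
      have g3 := mul_lt_mul_of_pos_left hχ hrk
      rw [hdeg']
      push_cast
      linarith
    obtain ⟨θ', hθ'ν, hθ'⟩ := exists_slope hm0' hlt
    obtain ⟨n', t', s', hn', ht', hs0, hs1, hs2⟩ := exists_fun hM' Bn A' hA'0
      (hν0.trans hθ'ν.le) hθ'
    have hn'q : (0 : ℚ) < n' := by exact_mod_cast hn'
    refine hfin n' t' (lt_of_lt_of_le (mul_lt_mul_of_pos_right hθ'ν hn'q) ht')
      (height_of_bdd Δ P hP Z (S := algebraMap M' (UP Ω) s') (hM'G' s')
      ((_root_.map_ne_zero _).2 hs0) hl ?_)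
    intro i O hO
    have hprod : algebraMap M' (UP Ω) s' * germHom (fun N => (x N i : Ω)) ^ t' =
        algebraMap M' (UP Ω) (s' * algebraMap M M' (γ i) ^ t') := by
      rw [map_mul, map_pow, ← IsScalarTower.algebraMap_apply M M' (UP Ω), hγ]
    rw [hprod]
    obtain ⟨g, hg⟩ : ∃ g : M', g = s' * algebraMap M M' (γ i) ^ t' := ⟨_, rfl⟩
    rw [← hg]
    have hg1 : ∀ w : Place W.F0 M', w ∈ Bn → w.1 g ≤ exp (n' : ℤ) := by
      intro w hw
      rw [hg, map_mul, map_pow]
      refine (mul_le_mul' (hs1 w hw) (pow_le_pow_left₀ zero_le (hA' w i) t')).trans ?_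
      rw [← exp_nsmul, ← exp_add, exp_le_exp, nsmul_eq_mul]
      linarith
    have hg2 : ∀ w : Place W.F0 M', w ∉ Bn → w.1 g ≤ 1 := by
      intro w hw
      rw [hg, map_mul, map_pow]
      refine (mul_le_mul' (hs2 w hw) (pow_le_pow_left₀ zero_le (hA' w i) t')).trans ?_
      rw [← exp_nsmul, ← exp_add, ← exp_zero, exp_le_exp, nsmul_eq_mul]
      linarith
    rcases hfam.exists_over hO hM' hM'G' with hMO | ⟨w, hw⟩
    · refine ⟨fun _ => hMO g, fun J 𝒲 vv hL => ?_⟩
      filter_upwards [(hL.mem _ (hM'G' g)).1 (hMO g)] with j hj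
      refine hj.trans ?_
      rw [← exp_zero, exp_le_exp]
      exact Nat.cast_nonneg _
    · by_cases hwB : w ∈ Bn
      · have hwB' := hwB
        rw [hBn, Finset.mem_filter] at hwB'
        obtain ⟨hw1, hw2⟩ := hwB'
        constructor
        · intro hO'
          exfalso
          apply hw2
          intro u hu
          exact log_at hfam hM hc'0 (hwt' O hO hO') hM'G' hE' w hw ((hB' w).1 hw1) u hu
        · intro J 𝒲 vv hL
          push Not at hw2
          obtain ⟨u, hu1, hu2⟩ := hw2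
          exact fun_le hM'G' hE' (hreg w) hw hu1 (not_lt.2 hu2) hL (hg1 w hwB)
      · have hgO : algebraMap M' (UP Ω) g ∈ O := (hw g).2 (hg2 w hwB)
        refine ⟨fun _ => hgO, fun J 𝒲 vv hL => ?_⟩
        filter_upwards [(hL.mem _ (hM'G' g)).1 hgO] with j hj
        refine hj.trans ?_
        rw [← exp_zero, exp_le_exp]
        exact Nat.cast_nonneg _
  · -- the value of the jet polynomial
    have hnq : (0 : ℚ) < n := by exact_mod_cast hn
    refine hfin s t ?_ (height_of_bdd Δ P hP Z (aeval_mem_G hfam hMG (tL W.F0 M) Θ) hR hl ?_)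
    · calc ν * s ≤ ν * (σ * n) := mul_le_mul_of_nonneg_left hs hν0
        _ = σ * ν * n := by ring
        _ < θ * n := mul_lt_mul_of_pos_right hθν hnq
        _ ≤ t := ht
    intro i O hO
    have hprod : aeval (derUP Δ.D (algebraMap M (UP Ω) (tL W.F0 M))) Θ *
        germHom (fun N => (x N i : Ω)) ^ t =
        aeval (derUP Δ.D (algebraMap M (UP Ω) (tL W.F0 M))) (C (γ i ^ t) * Θ) := by
      rw [map_mul, aeval_C, map_pow, hγ, mul_comm]
    rw [hprod]
    have hloc : ∀ (v : Place W.F0 M) (π : M), v.1 π = exp (-1 : ℤ) →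
        ∃ b : M[X], (∀ k : ℕ, (v ∉ B → v.1 (b.coeff k) ≤ exp ⌊(k : ℚ) * c v⌋) ∧
          (v ∈ B → v.1 (b.coeff k) ≤ exp ((min k s : ℕ) : ℤ))) ∧
          C (γ i ^ t) * Θ = b.comp ((X - C (- δ π / D' π)) * C (D' π)) := by
      intro v π hπ
      obtain ⟨b, hb1, hb2⟩ := hΘ v π hπ
      refine ⟨C (γ i ^ t) * b, fun k => ⟨fun hv => ?_, fun hv => ?_⟩, ?_⟩
      · rw [coeff_C_mul, map_mul, map_pow]
        refine (mul_le_mul' (pow_le_pow_left₀ zero_le (hA v i) t) ((hb1 k).1 hv)).trans ?_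
        rw [← exp_nsmul, ← exp_add, exp_le_exp, nsmul_eq_mul]
        linarith
      · rw [coeff_C_mul, map_mul, map_pow]
        refine (mul_le_mul' (pow_le_pow_left₀ zero_le (hA v i) t) ((hb1 k).2 hv)).trans ?_
        rw [← exp_nsmul, ← exp_add, exp_le_exp, nsmul_eq_mul]
        linarith
      · rw [mul_comp, C_comp, ← hb2]
    have hin : aeval (derUP Δ.D (algebraMap M (UP Ω) (tL W.F0 M))) (C (γ i ^ t) * Θ) ∈ O →
        ∀ (J : Type w) (𝒲 : Ultrafilter J) (vv : J → UP Ω → ℤᵐ⁰),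
        LimV (derUP Δ.D) (tm W) O 𝒲 vv → ∀ᶠ j in (𝒲 : Filter J),
          vv j (aeval (derUP Δ.D (algebraMap M (UP Ω) (tL W.F0 M))) (C (γ i ^ t) * Θ)) ≤
            exp (s : ℤ) := by
      intro hmem J 𝒲 vv hL
      filter_upwards [(hL.mem _ (aeval_mem_G hfam hMG (tL W.F0 M) _)).1 hmem] with j hj
      refine hj.trans ?_
      rw [← exp_zero, exp_le_exp]
      exact Nat.cast_nonneg _
    rcases hfam.exists_over hO hM hMG with hMO | ⟨v, hv⟩
    · have hmem : aeval (derUP Δ.D (algebraMap M (UP Ω) (tL W.F0 M))) (C (γ i ^ t) * Θ) ∈ O := by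
        rw [aeval_eq_sum_range]
        refine O.sum_mem fun k _ => ?_
        rw [Algebra.smul_def]
        exact O.mul_mem (hMO _) (O.pow_mem (hfam.der O hO _ (hMO _)) k)
      exact ⟨fun _ => hmem, hin hmem⟩
    · by_cases hvB : v ∈ B
      · refine ⟨fun hO' => jet_mem hfam hMG zero_le_one hO hv (hwtB O hO' v hvB) h5 fun π hπ => ?_,
          fun J 𝒲 vv hL => jet_le hfam hMG hv hL h5 fun π hπ => ?_⟩
        · obtain ⟨b, hb1, hb2⟩ := hloc v π hπ
          refine ⟨b, fun k => ((hb1 k).2 hvB).trans ?_, hb2⟩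
          rw [exp_le_exp, mul_one, Int.floor_natCast]
          exact_mod_cast min_le_left k s
        · obtain ⟨b, hb1, hb2⟩ := hloc v π hπ
          exact ⟨b, fun k => (hb1 k).2 hvB, hb2⟩
      · have hmem := jet_mem hfam hMG (hc0 v) hO hv (hwt O hO v) h5
          (Θ := C (γ i ^ t) * Θ) fun π hπ => by
            obtain ⟨b, hb1, hb2⟩ := hloc v π hπ
            exact ⟨b, fun k => (hb1 k).1 hvB, hb2⟩
        exact ⟨fun _ => hmem, hin hmem⟩

end Pool.Agent.Lib.MP_44a246_ntYT
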