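import Mathlib
import Pool.Agent.Lib.MP_44a246_ntUV.UV97

/-!
# Theorem T2: no generic sequence
-/

namespace Pool.Agent.Lib.MP_44a246_ntUV

open Pool.Agent.Lib.MP_e52354_nt
open Pool.Agent.Lib.MP_44a246_nt
open Pool.Agent.Lib.MP_44a246_ntL
open Pool.Agent.Lib.MP_44a246_ntS
open Pool.Agent.Lib.MP_44a246_ntSH
open Pool.Agent.Lib.MP_44a246_ntSP
open WithZero MvPolynomial Module

universe u v

/-- the numeric condition: `k` and `kX` are the degrees of the logarithmic canonical divisor and of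
the canonical divisor, `ν` is the coefficient of the truncated counting function -/
def NumY (k kX ν : ℚ) : Prop :=
  (0 ≤ kX ∧ ν < k) ∨ ∃ σ : ℚ, 0 < σ ∧ σ ≤ 1 ∧ 2 * σ * ν < -2 + (k + 2) * σ * (2 - σ)

/-- **There is no generic sequence** of points of the locus with curves of small height through the
projected points and a small truncated counting function. -/
theorem no_seqVZ {κ : Type u} {K : Type v} {Ω : Type v} [Field κ] [IsAlgClosed κ]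
    [CharZero κ] [Field K] [Algebra κ K] [Field Ω] [Algebra K Ω] [Algebra κ Ω]
    [IsScalarTower κ K Ω] [IsAlgClosed Ω] [Algebra.IsAlgebraic K Ω] (W : Tow κ K Ω)
    {n r p m₀ b N₁ q C : ℕ} (hr : r ≤ n) {d : Fin p → ℕ} (hd1 : ∀ j, 1 ≤ d j)
    {k : Type*} [Field k] [CharZero k] [Algebra k K] {ι : Type*} {e : ι → ℕ}
    {f : ι → MvPolynomial (Fin p ⊕ Fin (n + 1)) k}
    (hf : ∀ i, (f i).IsWeightedHomogeneous (Sum.elim d fun _ => 1) (e i)) {A : Finset (Fin p)}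
    (hfA : ∀ i, ∀ j ∉ A, Sum.inl j ∉ (f i).vars) {η : Fin (r + 1) → Fin (n + 1) → ℤ}
    (hη : ProjV hr ((Ideal.span (Set.range f)).comap
      (rename (Sum.inr : Fin (n + 1) → Fin p ⊕ Fin (n + 1)))) η)
    {H : Fin p → MvPolynomial (Fin (n + 1)) K} (hH : ∀ j, (H j).IsHomogeneous (d j))
    (ha : AlgebraicIndependent k
      (fun I : {I : Fin p × (Fin (n + 1) →₀ ℕ) // I.2.degree = d I.1} => (H I.1.1).coeff I.1.2))
    {k₂ : Type*} [Field k₂] [CharZero k₂] [Algebra k₂ K] [Algebra k₂ Ω] [IsScalarTower k₂ K Ω]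
    (hkk₂ : ∀ u : k, ∃ u' : k₂, algebraMap k₂ K u' = algebraMap k K u)
    (hcoef : ∀ j I, ∃ u : k₂, algebraMap k₂ K u = (H j).coeff I)
    {x : ∀ N, Fin (n + 1) → W.L N} {l : Fin (n + 1)} (hxl : ∀ N, x N l = 1)
    (hfx : ∀ N i, evK H (x N) (map (algebraMap k K) (f i)) = 0)
    (hrk : ∀ N, ∃ i : A → ι, (Matrix.of fun a b : A =>
      evK H (x N) (pderiv (Sum.inl (b : Fin p)) (map (algebraMap k K) (f (i a))))).det ≠ 0)
    (hA : ∀ N, ∀ j ∉ A, aeval (x N) (H j) ≠ 0)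
    {j : Fin m₀ → Fin (n + 1)}
    (hgen : ∀ G : MvPolynomial (Fin m₀) k₂, G ≠ 0 →
      ∃ N₀, ∀ N ≥ N₀, aeval (fun i => (x N (j i) : Ω)) G ≠ 0)
    {P : ∀ N, Finset (Place κ (W.L N))} (hP : ∀ N, (P N).card ≤ q * W.T N)
    {Z : ∀ N, Finset (Place κ (W.L N))} {ν : ℚ} (hν0 : 0 ≤ ν)
    (hZ : ∃ C : ℕ, ∀ᶠ N in (Filter.hyperfilter ℕ : Filter ℕ),
      ((Z N).card : ℚ) ≤ ν * height κ (x N) + C * (W.T N : ℚ))
    (hc : ∀ N, ∀ w : Place κ (W.L N), w ∉ P N → w ∉ Z N → ∀ j, j ∉ A →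
      w.1 (aeval (x N) (H j)) = vmax w.1 (x N) ^ d j)
    (hbig : ∀ C : ℕ, ¬ ∀ᶠ N in (Filter.hyperfilter ℕ : Filter ℕ),
      height κ (x N) ≤ C * (W.T N : ℤ))
    (hcert : ∀ N, CertV κ b N₁ (C * (W.T N : ℤ)) (prj η (x N)))
    (hnum : NumY (((A.card + ∑ j, d j + max m₀ 1 : ℕ) : ℚ) - (2 * r + 1))
      (((A.card + ∑ j ∈ A, d j + max m₀ 1 : ℕ) : ℚ) - (2 * r + 1)) ν) :
    False := by
  refine no_seqVZ' W hr hd1 hf hfA hη hH ha hkk₂ hcoef hxl hfx hrk hA hgen hP hν0 hZ hc hbig hcert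
    ?_
  have e1 : (((A.card + ∑ j, d j + max m₀ 1 : ℕ) : ℚ) - (2 * r + 1)) =
      (A.card : ℚ) + ∑ j, (d j : ℚ) + max m₀ 1 - (2 * r + 1) := by
    push_cast
    ring
  have e2 : (((A.card + ∑ j ∈ A, d j + max m₀ 1 : ℕ) : ℚ) - (2 * r + 1)) =
      (A.card : ℚ) + ∑ j ∈ A, (d j : ℚ) + max m₀ 1 - (2 * r + 1) := by
    push_cast
    ring
  rw [e1, e2] at hnum
  exact hnum

end Pool.Agent.Lib.MP_44a246_ntUV
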