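import Mathlib
import Pool.Agent.Lib.MP_44a246_ntUV.UV11
import Pool.Agent.Lib.MP_44a246_ntYT.YT10
import Pool.Agent.Lib.MP_44a246_ntYT.YT12

/-!
# Theorem T2: the final theorem for large dimension
-/

namespace Pool.Agent.Lib.MP_44a246_ntUV

open Pool.Agent.Lib.MP_e52354_nt
open Pool.Agent.Lib.MP_44a246_nt
open Pool.Agent.Lib.MP_44a246_ntL
open Pool.Agent.Lib.MP_44a246_ntS
open Pool.Agent.Lib.MP_44a246_ntSH
open Pool.Agent.Lib.MP_44a246_ntSP
open Pool.Agent.Lib.MP_44a246_ntU (countable_of_trdeg)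
open WithZero MvPolynomial Module

universe u v w x

/-- **From subfields of the algebraic closure to all finite extensions.** -/
theorem reduce_VG {κ : Type u} {K : Type v} [Field κ] [IsAlgClosed κ] [CharZero κ]
    [Field K] [Algebra κ K] (hK : IsFF κ K) {n p : ℕ} {d : Fin p → ℕ}
    {H : Fin p → MvPolynomial (Fin (n + 1)) K} (hH : ∀ j, (H j).IsHomogeneous (d j))
    {A : Finset (Fin p)} {S₀ : Set (Place κ K)} (hS₀ : S₀.Finite)
    {ι : Type*} {f : ι → MvPolynomial (Fin p ⊕ Fin (n + 1)) K} {s : ℕ}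
    {G : Fin s → MvPolynomial (Fin (n + 1)) K} {θ : ℚ}
    (h : ∃ C : ℕ, ∀ (L : IntermediateField K (AlgebraicClosure K)) [FiniteDimensional K L]
      (x : Fin (n + 1) → L), x ≠ 0 → (∀ i, evK H x (f i) = 0) →
      (∃ i : A → ι, (Matrix.of fun a b : A =>
        evK H x (MvPolynomial.pderiv (Sum.inl (b : Fin p)) (f (i a)))).det ≠ 0) →
      (∀ j ∉ A, MvPolynomial.aeval x (H j) ≠ 0) → ∀ S : Finset (Place κ L),
      (∀ w ∉ S, ∀ j ∉ A, w.1 (MvPolynomial.aeval x (H j)) = vmax w.1 x ^ d j) →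
      θ * height κ x ≤ (C : ℚ) * ((finrank K L : ℚ) + ramDeg κ L K) + S.card ∨
        ∀ i, MvPolynomial.aeval x (G i) = 0) :
    ∃ C : ℕ, ∀ (L : Type w) [Field L] [Algebra K L] [FiniteDimensional K L] [Algebra κ L]
      [IsScalarTower κ K L] (x : Fin (n + 1) → L), x ≠ 0 → (∀ i, evK H x (f i) = 0) →
      (∃ i : A → ι, (Matrix.of fun a b : A =>
        evK H x (MvPolynomial.pderiv (Sum.inl (b : Fin p)) (f (i a)))).det ≠ 0) →
      (∀ j ∉ A, MvPolynomial.aeval x (H j) ≠ 0) →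
      θ * height κ x ≤ (C : ℚ) * ((finrank K L : ℚ) + ramDeg κ L K) +
        truncCount κ (fun j : {j // j ∉ A} => H j.1) (fun j => d j.1) S₀ x ∨
        ∀ i, MvPolynomial.aeval x (G i) = 0 := by
  classical
  obtain ⟨C₁, h⟩ := h
  obtain ⟨C₂, hC₂⟩ := exists_placesA.{u, v, w} hK hH A hS₀
  refine ⟨C₁ + C₂, ?_⟩
  intro L _ _ _ _ _ x hx hf hrk hne
  obtain ⟨S, hS, hoff⟩ := hC₂ L x hx hne
  obtain ⟨L', hfin, e, hht, hram, hrank, hpl⟩ := exists_embed κ K L
  obtain ⟨S', hS', hpl⟩ := hpl S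
  have hx' : (fun i => e (x i)) ≠ 0 := by
    intro h0
    apply hx
    funext i
    have h1 : e (x i) = 0 := congrFun h0 i
    exact (map_eq_zero e).1 h1
  have hf' : ∀ i, evK H (fun i => e (x i)) (f i) = 0 := fun i => by
    rw [evK_map, hf, map_zero]
  have hrk' : ∃ i : A → ι, (Matrix.of fun a b : A => evK H (fun i => e (x i))
      (MvPolynomial.pderiv (Sum.inl (b : Fin p)) (f (i a)))).det ≠ 0 := by
    obtain ⟨i, hi⟩ := hrk
    refine ⟨i, ?_⟩
    have h1 : (Matrix.of fun a b : A => evK H (fun i => e (x i))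
        (MvPolynomial.pderiv (Sum.inl (b : Fin p)) (f (i a)))) =
        (e : L →+* L').mapMatrix (Matrix.of fun a b : A =>
          evK H x (MvPolynomial.pderiv (Sum.inl (b : Fin p)) (f (i a)))) := by
      refine Matrix.ext fun a b => ?_
      rw [RingHom.mapMatrix_apply, Matrix.map_apply, Matrix.of_apply, Matrix.of_apply]
      exact evK_map H e x _
    rw [h1, ← RingHom.map_det]
    intro h2
    apply hi
    exact (map_eq_zero (e : L →+* L')).1 h2
  have hne' : ∀ j ∉ A, MvPolynomial.aeval (fun i => e (x i)) (H j) ≠ 0 := by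
    intro j hj h0
    rw [aeval_map_alg, map_eq_zero] at h0
    exact hne j hj h0
  have hoff' : ∀ w ∉ S', ∀ j ∉ A, w.1 (MvPolynomial.aeval (fun i => e (x i)) (H j)) =
      vmax w.1 (fun i => e (x i)) ^ d j := by
    intro w' hw' j hj
    obtain ⟨w, hw, hww⟩ := hpl w' hw'
    rw [aeval_map_alg, hww, hoff w hw j hj]
    congr 1
    unfold vmax
    exact (Finset.sup_congr rfl fun i _ => hww (x i)).symm
  rcases h L' (fun i => e (x i)) hx' hf' hrk' hne' S' hoff' with h1 | h1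
  · left
    rw [hht, hram, hrank, hS'] at h1
    refine h1.trans ?_
    obtain ⟨t, ht⟩ : ∃ t : ℕ, t = truncCount κ (fun j : {j // j ∉ A} => H j.1)
      (fun j => d j.1) S₀ x := ⟨_, rfl⟩
    rw [← ht] at hS ⊢
    have h2 : (S.card : ℚ) ≤ C₂ * (finrank K L : ℚ) + (t : ℚ) := by exact_mod_cast hS
    have h3 : (0 : ℚ) ≤ (C₂ : ℚ) * (ramDeg κ L K : ℚ) := by positivity
    push_cast
    linarith
  · right
    intro i
    have h2 := h1 i
    rw [aeval_map_alg, map_eq_zero] at h2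
    exact h2

/-- **The conclusion of the height theorem** with an explicit constant `θ` and the coefficient `1`
of the truncated counting function. -/
def HtVG (κ : Type u) {K : Type v} {k : Type x} [Field κ] [Field K] [Field k] [Algebra κ K]
    [Algebra k K] {n p : ℕ} {ι : Type} (f : ι → MvPolynomial (Fin p ⊕ Fin (n + 1)) k)
    (d : Fin p → ℕ) (A : Finset (Fin p)) (H : Fin p → MvPolynomial (Fin (n + 1)) K)
    (S : Set (Place κ K)) (m : ℕ) (θ : ℚ) : Prop :=
  ∃ (t : ℕ) (G : Fin t → MvPolynomial (Fin (n + 1)) K), (∀ i, ∃ e, (G i).IsHomogeneous e) ∧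
    ringKrullDim (MvPolynomial (Fin (n + 1)) K ⧸ Ideal.span (Set.range G)) ≤
      (m : WithBot ℕ∞) ∧
    ∃ C : ℕ, ∀ (L : Type w) [Field L] [Algebra K L] [FiniteDimensional K L] [Algebra κ L]
      [IsScalarTower κ K L] [Algebra k L] [IsScalarTower k K L] (x : Fin (n + 1) → L), x ≠ 0 →
      (∀ i, aeval (Sum.elim (fun j => aeval x (H j)) x : Fin p ⊕ Fin (n + 1) → L) (f i) = 0) →
      (∃ i : A → ι, (Matrix.of fun a b : A =>
        aeval (Sum.elim (fun j => aeval x (H j)) x : Fin p ⊕ Fin (n + 1) → L)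
          (pderiv (Sum.inl (b : Fin p)) (f (i a)))).det ≠ 0) →
      (∀ j ∉ A, aeval x (H j) ≠ 0) →
      θ * height κ x ≤ (C : ℚ) * ((finrank K L : ℚ) + ramDeg κ L K) +
          Set.ncard {w : Place κ L | (∀ v ∈ S, ¬ (w.1.comap (algebraMap K L)).IsEquiv v.1) ∧
            ∃ j, j ∉ A ∧ w.1 (aeval x (H j)) < vmax w.1 x ^ d j} ∨
        ∀ i, aeval x (G i) = 0

/-- **The height theorem for generic pairs on an arbitrary variety** of large dimension, with an
explicit constant. -/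
theorem final_VG (p q : ℕ) (ε : ℚ) (hε : 0 < ε) : ∃ r₀ : ℕ, ∀ (r : ℕ) (d : Fin p → ℕ),
    r₀ ≤ r → (∀ j, 1 ≤ d j) → r + 2 ≤ ∑ j, d j →
    ∀ {κ : Type u} {K : Type v} [Field κ] [IsAlgClosed κ] [CharZero κ] [Field K] [CharZero K]
      [Algebra κ K] (_ : Cardinal.aleph0 ≤ Algebra.trdeg ℚ κ) (_ : IsFF κ K)
      {k : Type x} [Field k] [CharZero k] [Algebra k K] (_ : Algebra.trdeg ℚ k < Cardinal.aleph0)
      {n m : ℕ} (_ : r ≤ n) {ι : Type} {e : ι → ℕ}
      {f : ι → MvPolynomial (Fin p ⊕ Fin (n + 1)) k}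
      (_ : ∀ i, (f i).IsWeightedHomogeneous (Sum.elim d fun _ => 1) (e i)) {A : Finset (Fin p)}
      (_ : ∀ i, ∀ j ∉ A, Sum.inl j ∉ (f i).vars)
      (_ : ringKrullDim (MvPolynomial (Fin (n + 1)) k ⧸ (Ideal.span (Set.range f)).comap
        (rename (Sum.inr : Fin (n + 1) → Fin p ⊕ Fin (n + 1)))) ≤ ((r + 1 : ℕ) : WithBot ℕ∞))
      {H : Fin p → MvPolynomial (Fin (n + 1)) K} (_ : ∀ j, (H j).IsHomogeneous (d j))
      (_ : AlgebraicIndependent k
        (fun I : {I : Fin p × (Fin (n + 1) →₀ ℕ) // I.2.degree = d I.1} =>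
          (H I.1.1).coeff I.1.2))
      {S : Set (Place κ K)} (_ : S.Finite) {θ : ℚ} (_ : 0 ≤ θ) (_ : θ ≤ q)
      (_ : θ + ε ≤ ((∑ j, d j : ℕ) : ℚ) - (r + 1))
      (_ : NumY (((A.card + ∑ j, d j + max m 1 : ℕ) : ℚ) - (2 * r + 1))
        (((A.card + ∑ j ∈ A, d j + max m 1 : ℕ) : ℚ) - (2 * r + 1)) θ),
      HtVG.{u, v, w, x} κ f d A H S m θ := by
  rcases Nat.eq_zero_or_pos p with hp | hp
  · subst hp
    refine ⟨0, fun r d _ _ hd => ?_⟩
    rw [Finset.univ_eq_empty, Finset.sum_empty] at hd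
    omega
  obtain ⟨r₀, hlev⟩ := level_VG.{u, v, v, x, 0} p q hp (ε : ℝ) (by exact_mod_cast hε)
  refine ⟨r₀, fun r d hr₀ hd1 hd κ K _ _ _ _ _ _ htr hK k _ _ _ hk n m hr ι e f hf A hfA hdim H hH
    ha S hS θ hθ0 hθq hθk hθ2 => ?_⟩
  obtain ⟨η, hη⟩ := exists_projV hr (homI_elim hf) hdim
  have hkc : Countable k := countable_of_trdeg hk
  obtain ⟨B, C₁, hC₁⟩ := hlev r d hr₀ hd1 hd hK htr hk hr hf hfA hη hH ha
  obtain ⟨C₂, s, G, hG1, hG2, hC₂⟩ := exc_VZ (m₀ := m) (b := B) (N₁ := 1) hK hr hd1 hf hfA hη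
    hH ha hθ0 hθ2 C₁
  obtain ⟨C, hC⟩ := reduce_VG.{u, v, w} hK hH (A := A) hS (f := fun i => map (algebraMap k K) (f i))
    (G := G) (θ := θ) ⟨max C₁ C₂, by
      intro L _ x hx hfx hrk hne S' hS'
      have hT : (0 : ℚ) ≤ (finrank K L : ℚ) + ramDeg κ L K := by positivity
      have hmono : ∀ C'' : ℕ, C'' ≤ max C₁ C₂ → ∀ t : ℚ,
          t ≤ C'' * ((finrank K L : ℚ) + ramDeg κ L K) + S'.card →
          t ≤ ((max C₁ C₂ : ℕ) : ℚ) * ((finrank K L : ℚ) + ramDeg κ L K) + S'.card := by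
        intro C'' h t ht
        refine ht.trans (add_le_add (mul_le_mul_of_nonneg_right ?_ hT) le_rfl)
        exact_mod_cast h
      let _ : Algebra k L := ((algebraMap K L).comp (algebraMap k K)).toAlgebra
      have : IsScalarTower k K L := IsScalarTower.of_algebraMap_eq fun _ => rfl
      rcases hC₁ θ hθ0 hθq (by exact_mod_cast hθk) L x hx (fun i => by rw [← evK_map_algebraMap]; exact hfx i) (by
        obtain ⟨i, hi⟩ := hrk
        refine ⟨i, ?_⟩
        have h1 : (Matrix.of fun a b : A =>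
            aeval (Sum.elim (fun j => aeval x (H j)) x : Fin p ⊕ Fin (n + 1) → L)
              (pderiv (Sum.inl (b : Fin p)) (f (i a)))) =
            (Matrix.of fun a b : A =>
              evK H x (pderiv (Sum.inl (b : Fin p)) (map (algebraMap k K) (f (i a))))) := by
          refine Matrix.ext fun a b => ?_
          rw [Matrix.of_apply, Matrix.of_apply, ← evK_map_algebraMap, pderiv_map]
        rw [h1]
        exact hi) S' hS' with h | h
      · exact Or.inl (hmono C₁ (le_max_left _ _) _ h)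
      · rcases hC₂ L x S' hfx hrk hne hS' h with h | h
        · exact Or.inl (hmono C₂ (le_max_right _ _) _ h)
        · exact Or.inr h⟩
  refine ⟨s, G, hG1, hG2, C, ?_⟩
  intro L _ _ _ _ _ _ _ x hx hfx hrk hne
  have h1 := hC L x hx (fun i => by rw [evK_map_algebraMap]; exact hfx i) (by
    obtain ⟨i, hi⟩ := hrk
    refine ⟨i, ?_⟩
    have h1 : (Matrix.of fun a b : A =>
        aeval (Sum.elim (fun j => aeval x (H j)) x : Fin p ⊕ Fin (n + 1) → L)
          (pderiv (Sum.inl (b : Fin p)) (f (i a)))) =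
        (Matrix.of fun a b : A =>
          evK H x (pderiv (Sum.inl (b : Fin p)) (map (algebraMap k K) (f (i a))))) := by
      refine Matrix.ext fun a b => ?_
      rw [Matrix.of_apply, Matrix.of_apply, ← evK_map_algebraMap, pderiv_map]
    rw [← h1]
    exact hi) hne
  have h2 : truncCount κ (fun j : {j // j ∉ A} => H j.1) (fun j => d j.1) S x =
      Set.ncard {w : Place κ L | (∀ v ∈ S, ¬ (w.1.comap (algebraMap K L)).IsEquiv v.1) ∧
        ∃ j, j ∉ A ∧ w.1 (aeval x (H j)) < vmax w.1 x ^ d j} := by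
    unfold truncCount
    congr 1
    ext w
    simp only [Set.mem_ofPred_eq]
    refine and_congr Iff.rfl ⟨?_, ?_⟩
    · rintro ⟨j, -, h⟩
      exact ⟨j.1, j.2, h⟩
    · rintro ⟨j, hj, h⟩
      exact ⟨⟨j, hj⟩, hne j hj, h⟩
  rw [h2] at h1
  exact h1

end Pool.Agent.Lib.MP_44a246_ntUV
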