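import Mathlib
import Pool.Agent.Lib.MP_44a246_ntYT.YT13

/-!
# Theorem T2: the final theorem with a real constant
-/

namespace Pool.Agent.Lib.MP_44a246_ntUV

open Pool.Agent.Lib.MP_e52354_nt
open Pool.Agent.Lib.MP_44a246_nt
open Pool.Agent.Lib.MP_44a246_ntL
open MvPolynomial Module

universe u v w x

/-- the optimal slope -/
theorem exists_sigma {k θ : ℝ} (hθ0 : 0 ≤ θ) (hθ : θ < k + 2 - √(2 * k + 4)) :
    ∃ σ : ℚ, 0 < σ ∧ σ ≤ 1 ∧ 2 * (σ : ℝ) * θ < -2 + (k + 2) * σ * (2 - σ) := by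
  obtain ⟨s, hs⟩ : ∃ s : ℝ, s = √(2 * k + 4) := ⟨_, rfl⟩
  have hs0 : 0 ≤ s := by rw [hs]; exact Real.sqrt_nonneg _
  rw [← hs] at hθ
  have hk2 : 0 < k + 2 := by linarith
  have hs2 : s * s = 2 * k + 4 := by
    rw [hs]
    exact Real.mul_self_sqrt (by linarith)
  have hs1 : 2 < s := by nlinarith
  obtain ⟨σ₀, hσ₀⟩ : ∃ σ₀ : ℝ, σ₀ = 2 / s := ⟨_, rfl⟩
  have hσ₀s : σ₀ * s = 2 := by rw [hσ₀]; field_simp
  have hσ₀0 : 0 < σ₀ := by rw [hσ₀]; positivity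
  have hσ₀1 : σ₀ < 1 := by rw [hσ₀, div_lt_one (by linarith)]; exact hs1
  have hf : 0 < -2 + (k + 2) * σ₀ * (2 - σ₀) - 2 * σ₀ * θ := by
    have e1 : k + 2 = s * s / 2 := by linarith
    have e2 : -2 + (k + 2) * σ₀ * (2 - σ₀) - 2 * σ₀ * θ = 2 * σ₀ * (k + 2 - s - θ) := by
      rw [e1]
      have e3 : s * s / 2 * σ₀ * (2 - σ₀) = (σ₀ * s) * s - (σ₀ * s) * (σ₀ * s) / 2 := by ring
      have e4 : 2 * σ₀ * (s * s / 2 - s - θ) = (σ₀ * s) * s - 2 * (σ₀ * s) - 2 * σ₀ * θ := by ring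
      rw [e3, e4, hσ₀s]
      ring
    rw [e2]
    exact mul_pos (by linarith) (by linarith)
  have hc : Continuous fun σ : ℝ => -2 + (k + 2) * σ * (2 - σ) - 2 * σ * θ := by fun_prop
  have hopen : IsOpen ({σ : ℝ | 0 < -2 + (k + 2) * σ * (2 - σ) - 2 * σ * θ} ∩ Set.Ioo 0 1) :=
    (isOpen_lt continuous_const hc).inter isOpen_Ioo
  obtain ⟨σ, h1, h2, h3⟩ := (Rat.denseRange_cast (𝕜 := ℝ)).exists_mem_open hopen
    ⟨σ₀, hf, hσ₀0, hσ₀1⟩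
  have h1' : 0 < -2 + (k + 2) * (σ : ℝ) * (2 - σ) - 2 * σ * θ := h1
  exact ⟨σ, by exact_mod_cast h2, by exact_mod_cast h3.le, by linarith⟩

/-- the numeric condition for a slightly larger constant -/
theorem exists_numY {k kX : ℚ} {θ : ℝ} (hθ0 : 0 ≤ θ)
    (h : (0 ≤ kX ∧ θ < k) ∨ θ < k + 2 - √(2 * k + 4)) :
    ∃ δ : ℝ, 0 < δ ∧ ∀ θ' : ℚ, (θ' : ℝ) < θ + δ → NumY k kX θ' := by
  rcases h with ⟨h1, h2⟩ | h
  · refine ⟨k - θ, by linarith, fun θ' hθ' => Or.inl ⟨h1, ?_⟩⟩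
    have h3 : (θ' : ℝ) < k := by linarith
    exact_mod_cast h3
  · obtain ⟨σ, hσ0, hσ1, hσ⟩ := exists_sigma hθ0 h
    have hσ0' : (0 : ℝ) < σ := by exact_mod_cast hσ0
    refine ⟨(-2 + (k + 2) * σ * (2 - σ) - 2 * σ * θ) / (2 * σ),
      div_pos (by linarith) (by linarith), fun θ' hθ' => Or.inr ⟨σ, hσ0, hσ1, ?_⟩⟩
    have h3 := mul_lt_mul_of_pos_left hθ' (show (0 : ℝ) < 2 * σ by linarith)
    rw [mul_add, mul_div_cancel₀ _ (by linarith : (2 * (σ : ℝ)) ≠ 0)] at h3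
    have h4 : 2 * (σ : ℝ) * θ' < -2 + (k + 2) * σ * (2 - σ) := by linarith
    exact_mod_cast h4

/-- **The conclusion of the height theorem** with an explicit real constant `θ` and the coefficient
`1` of the truncated counting function. -/
def HtVR (κ : Type u) {K : Type v} {k : Type x} [Field κ] [Field K] [Field k] [Algebra κ K]
    [Algebra k K] {n p : ℕ} {ι : Type} (f : ι → MvPolynomial (Fin p ⊕ Fin (n + 1)) k)
    (d : Fin p → ℕ) (A : Finset (Fin p)) (H : Fin p → MvPolynomial (Fin (n + 1)) K)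
    (S : Set (Place κ K)) (m : ℕ) (θ : ℝ) : Prop :=
  ∃ (t : ℕ) (G : Fin t → MvPolynomial (Fin (n + 1)) K), (∀ i, ∃ e, (G i).IsHomogeneous e) ∧
    ringKrullDim (MvPolynomial (Fin (n + 1)) K ⧸ Ideal.span (Set.range G)) ≤
      (m : WithBot ℕ∞) ∧
    ∃ C : ℕ, ∀ (L : Type w) [Field L] [Algebra K L] [FiniteDimensional K L] [Algebra κ L]
      [IsScalarTower κ K L] [Algebra k L] [IsScalarTower k K L] (x : Fin (n + 1) → L), x ≠ 0 →
      (∀ i, aeval (Sum.elim (fun j => aeval x (H j)) x : Fin p ⊕ Fin (n + 1) → L) (f i) = 0) →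
      (∃ i : A → ι, (Matrix.of fun a b : A =>
        aeval (Sum.elim (fun j => aeval x (H j)) x : Fin p ⊕ Fin (n + 1) → L)
          (pderiv (Sum.inl (b : Fin p)) (f (i a)))).det ≠ 0) →
      (∀ j ∉ A, aeval x (H j) ≠ 0) →
      θ * height κ x ≤ (C : ℝ) * ((finrank K L : ℝ) + ramDeg κ L K) +
          Set.ncard {w : Place κ L | (∀ v ∈ S, ¬ (w.1.comap (algebraMap K L)).IsEquiv v.1) ∧
            ∃ j, j ∉ A ∧ w.1 (aeval x (H j)) < vmax w.1 x ^ d j} ∨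
        ∀ i, aeval x (G i) = 0

/-- **The height theorem for generic pairs on an arbitrary variety** of large dimension, with an
explicit real constant. -/
theorem final_VR (p q : ℕ) (ε : ℝ) (hε : 0 < ε) : ∃ r₀ : ℕ, ∀ (r : ℕ) (d : Fin p → ℕ),
    r₀ ≤ r → (∀ j, 1 ≤ d j) → r + 2 ≤ ∑ j, d j →
    ∀ {κ : Type u} {K : Type v} [Field κ] [IsAlgClosed κ] [CharZero κ] [Field K] [CharZero K]
      [Algebra κ K] (_ : Cardinal.aleph0 ≤ Algebra.trdeg ℚ κ) (_ : IsFF κ K)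
      {k : Type x} [Field k] [CharZero k] [Algebra k K] (_ : Algebra.trdeg ℚ k < Cardinal.aleph0)
      {n m : ℕ} (_ : r ≤ n) {ι : Type} {e : ι → ℕ}
      {f : ι → MvPolynomial (Fin p ⊕ Fin (n + 1)) k}
      (_ : ∀ i, (f i).IsWeightedHomogeneous (Sum.elim d fun _ => 1) (e i)) {A : Finset (Fin p)}
      (_ : ∀ i, ∀ j ∉ A, Sum.inl j ∉ (f i).vars)
      (_ : ringKrullDim (MvPolynomial (Fin (n + 1)) k ⧸ (Ideal.span (Set.range f)).comap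
        (rename (Sum.inr : Fin (n + 1) → Fin p ⊕ Fin (n + 1)))) ≤ ((r + 1 : ℕ) : WithBot ℕ∞))
      {H : Fin p → MvPolynomial (Fin (n + 1)) K} (_ : ∀ j, (H j).IsHomogeneous (d j))
      (_ : AlgebraicIndependent k
        (fun I : {I : Fin p × (Fin (n + 1) →₀ ℕ) // I.2.degree = d I.1} =>
          (H I.1.1).coeff I.1.2))
      {S : Set (Place κ K)} (_ : S.Finite) {θ : ℝ} (_ : 0 ≤ θ) (_ : θ ≤ q)
      (_ : θ + ε ≤ ((∑ j, d j : ℕ) : ℝ) - (r + 1))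
      (_ : (2 * r + 1 ≤ A.card + ∑ j ∈ A, d j + max m 1 ∧
          θ < ((A.card + ∑ j, d j + max m 1 : ℕ) : ℝ) - (2 * r + 1)) ∨
        θ < ((A.card + ∑ j, d j + max m 1 : ℕ) : ℝ) - (2 * r + 1) + 2 -
          √(2 * (((A.card + ∑ j, d j + max m 1 : ℕ) : ℝ) - (2 * r + 1)) + 4)),
      HtVR.{u, v, w, x} κ f d A H S m θ := by
  obtain ⟨ε', hε'0, hε'⟩ : ∃ ε' : ℚ, (0 : ℝ) < ε' ∧ (ε' : ℝ) < ε / 2 :=
    exists_rat_btwn (by linarith)
  have hε'q : 0 < ε' := by exact_mod_cast hε'0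
  obtain ⟨r₀, h⟩ := final_VG.{u, v, w, x} p (q + 1) ε' hε'q
  refine ⟨r₀, fun r d hr₀ hd1 hd κ K _ _ _ _ _ _ htr hK k _ _ _ hk n m hr ι e f hf A hfA hdim H hH
    ha S hS θ hθ0 hθq hθk hnum => ?_⟩
  obtain ⟨kk, hkk⟩ : ∃ kk : ℚ, kk = ((A.card + ∑ j, d j + max m 1 : ℕ) : ℚ) - (2 * r + 1) :=
    ⟨_, rfl⟩
  obtain ⟨kX, hkX⟩ : ∃ kX : ℚ, kX = ((A.card + ∑ j ∈ A, d j + max m 1 : ℕ) : ℚ) - (2 * r + 1) :=
    ⟨_, rfl⟩
  have hkkR : (kk : ℝ) = ((A.card + ∑ j, d j + max m 1 : ℕ) : ℝ) - (2 * r + 1) := by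
    rw [hkk]
    push_cast
    ring
  rw [← hkkR] at hnum
  obtain ⟨δ, hδ0, hδ⟩ := exists_numY (k := kk) (kX := kX) hθ0 (by
    rcases hnum with ⟨h1, h2⟩ | h1
    · refine Or.inl ⟨?_, h2⟩
      have h3 : ((2 * r + 1 : ℕ) : ℚ) ≤ ((A.card + ∑ j ∈ A, d j + max m 1 : ℕ) : ℚ) := by
        exact_mod_cast h1
      rw [hkX]
      push_cast at h3 ⊢
      linarith
    · exact Or.inr h1)
  obtain ⟨θ', h1, h2⟩ : ∃ θ' : ℚ, θ < (θ' : ℝ) ∧ (θ' : ℝ) < θ + min δ (min ε' 1) :=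
    exists_rat_btwn (by
      have : 0 < min δ (min (ε' : ℝ) 1) := lt_min hδ0 (lt_min hε'0 one_pos)
      linarith)
  have h3 : (θ' : ℝ) < θ + δ := h2.trans_le (by
    have := min_le_left δ (min (ε' : ℝ) 1)
    linarith)
  have h4 : (θ' : ℝ) < θ + ε' := h2.trans_le (by
    have := (min_le_right δ (min (ε' : ℝ) 1)).trans (min_le_left _ _)
    linarith)
  have h5 : (θ' : ℝ) < θ + 1 := h2.trans_le (by
    have := (min_le_right δ (min (ε' : ℝ) 1)).trans (min_le_right _ _)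
    linarith)
  have h6 : (0 : ℝ) ≤ θ' := hθ0.trans h1.le
  have h7 : (θ' : ℝ) ≤ ((q + 1 : ℕ) : ℝ) := by
    push_cast
    linarith
  have h8 : (θ' : ℝ) + ε' ≤ ((∑ j, d j : ℕ) : ℝ) - (r + 1) := by linarith
  have h8' : θ' + ε' ≤ ((∑ j, d j : ℕ) : ℚ) - (r + 1) := by
    have h9 : ((θ' + ε' : ℚ) : ℝ) ≤ ((((∑ j, d j : ℕ) : ℚ) - (r + 1) : ℚ) : ℝ) := by
      push_cast at h8 ⊢
      exact h8
    exact_mod_cast h9
  have h10 := hδ θ' h3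
  rw [hkk, hkX] at h10
  obtain ⟨t, G, hG1, hG2, C, hC⟩ := h r d hr₀ hd1 hd htr hK hk hr hf hfA hdim hH ha (m := m) hS
    (θ := θ') (by exact_mod_cast h6) (by exact_mod_cast h7) h8' h10
  refine ⟨t, G, hG1, hG2, C, ?_⟩
  intro L _ _ _ _ _ _ _ x hx hfx hrk hne
  rcases hC L x hx hfx hrk hne with h11 | h11
  · left
    have hL : IsFF κ L := hK.of_finite
    have h12 : (0 : ℝ) ≤ height κ x := by exact_mod_cast hL.height_nonneg hx
    have h13 : θ * height κ x ≤ θ' * height κ x := mul_le_mul_of_nonneg_right h1.le h12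
    refine h13.trans ?_
    have h14 := (Rat.cast_le (K := ℝ)).2 h11
    push_cast at h14
    exact h14
  · exact Or.inr h11

end Pool.Agent.Lib.MP_44a246_ntUV
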