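import Mathlib
import Pool.Agent.Lib.MP_44a246_ntYT.YT14
import Pool.Agent.Lib.MP_44a246_ntYT.DG01
import Pool.Agent.Lib.MP_44a246_ntUV.DF04

/-!
# Theorem T2: few relations between the coefficients, and all but finitely many types
-/

namespace Pool.Agent.Lib.MP_44a246_ntUV

open Pool.Agent.Lib.MP_e52354_nt
open Pool.Agent.Lib.MP_44a246_nt
open Pool.Agent.Lib.MP_44a246_ntL
open Pool.Agent.Lib.MP_e52354_ntSD (GenK)
open MvPolynomial Module

universe u v w x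

/-- the conclusion with a real constant -/
def QR (θ : ℝ) (C : ℕ) (h : ℤ) (F : ℕ) (R : ℤ) (N : ℕ) : Prop :=
  θ * h ≤ (C : ℝ) * ((F : ℝ) + R) + N

/-- the function `k + 2 - √(2 k + 4)` is increasing where it is positive -/
theorem num_mono {k k' θ : ℝ} (hθ0 : 0 ≤ θ) (hk : k ≤ k') (h : θ < k + 2 - √(2 * k + 4)) :
    θ < k' + 2 - √(2 * k' + 4) := by
  obtain ⟨s, hs⟩ : ∃ s : ℝ, s = √(2 * k + 4) := ⟨_, rfl⟩
  obtain ⟨s', hs'⟩ : ∃ s' : ℝ, s' = √(2 * k' + 4) := ⟨_, rfl⟩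
  have hs0 : 0 ≤ s := by rw [hs]; exact Real.sqrt_nonneg _
  have hs0' : 0 ≤ s' := by rw [hs']; exact Real.sqrt_nonneg _
  rw [← hs] at h
  rw [← hs']
  have hk2 : 0 < k + 2 := by linarith
  have hs2 : s * s = 2 * k + 4 := by
    rw [hs]
    exact Real.mul_self_sqrt (by linarith)
  have hs2' : s' * s' = 2 * k' + 4 := by
    rw [hs']
    exact Real.mul_self_sqrt (by linarith)
  have hs1 : 2 < s := by nlinarith
  have hss : s ≤ s' := by
    rw [hs, hs']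
    exact Real.sqrt_le_sqrt (by linarith)
  nlinarith

/-- a large `k` -/
theorem num_large {k q θ : ℝ} (hq : 0 ≤ q) (hθq : θ ≤ q) (hk : 2 * q + 5 ≤ k + 2) :
    θ < k + 2 - √(2 * k + 4) := by
  obtain ⟨s, hs⟩ : ∃ s : ℝ, s = √(2 * k + 4) := ⟨_, rfl⟩
  have hs0 : 0 ≤ s := by rw [hs]; exact Real.sqrt_nonneg _
  rw [← hs]
  have hs2 : s * s = 2 * k + 4 := by
    rw [hs]
    exact Real.mul_self_sqrt (by linarith)
  by_contra hcon
  push Not at hcon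
  have h1 : k + 2 - q ≤ s := by linarith
  have h2 : 0 ≤ k + 2 - q := by linarith
  have h3 : (k + 2 - q) * (k + 2 - q) ≤ s * s := mul_self_le_mul_self h2 h1
  nlinarith

/-- **The height theorem for pairs on an arbitrary variety** of large dimension whose coefficients
satisfy at most `c` relations, with an explicit real constant. -/
theorem final_VRD (p q : ℕ) (hp : 1 ≤ p) (ε : ℝ) (hε : 0 < ε) : ∃ r₀ : ℕ,
    ∀ (r c : ℕ) (d : Fin p → ℕ),
    r₀ ≤ r + (c + 1) / 2 → (∀ j, 1 ≤ d j) → r + min c ((c + p) / 2) + 2 ≤ ∑ j, d j →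
    ∀ {κ : Type u} {K : Type v} [Field κ] [IsAlgClosed κ] [CharZero κ] [Field K] [CharZero K]
      [Algebra κ K] (_ : Cardinal.aleph0 ≤ Algebra.trdeg ℚ κ) (_ : IsFF κ K)
      {k : Type x} [Field k] [CharZero k] [Algebra k K] (_ : Algebra.trdeg ℚ k < Cardinal.aleph0)
      {n m : ℕ} (_ : r ≤ n) {ι : Type} {e : ι → ℕ}
      {f : ι → MvPolynomial (Fin p ⊕ Fin (n + 1)) k}
      (_ : ∀ i, (f i).IsWeightedHomogeneous (Sum.elim d fun _ => 1) (e i)) {A : Finset (Fin p)}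
      (_ : ∀ i, ∀ j ∉ A, Sum.inl j ∉ (f i).vars)
      (_ : ringKrullDim (MvPolynomial (Fin (n + 1)) k ⧸ (Ideal.span (Set.range f)).comap
        (rename (Sum.inr : Fin (n + 1) → Fin p ⊕ Fin (n + 1)))) ≤ ((r + 1 : ℕ) : WithBot ℕ∞))
      {H : Fin p → MvPolynomial (Fin (n + 1)) K} (_ : ∀ j, (H j).IsHomogeneous (d j))
      (_ : GenK k d H c) {S : Set (Place κ K)} (_ : S.Finite) {θ : ℝ} (_ : 0 ≤ θ) (_ : θ ≤ q)
      (_ : θ + ε ≤ ((∑ j, d j : ℕ) : ℝ) - ((r + min c ((c + p) / 2) : ℕ) + 1))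
      (_ : (2 * (r + min c ((c + p) / 2)) + 1 ≤ A.card + ∑ j ∈ A, d j + max m 1 ∧
          θ < ((A.card + ∑ j, d j + max m 1 : ℕ) : ℝ) -
            (2 * (r + min c ((c + p) / 2) : ℕ) + 1)) ∨
        θ < ((A.card + ∑ j, d j + max m 1 : ℕ) : ℝ) -
            (2 * (r + min c ((c + p) / 2) : ℕ) + 1) + 2 -
          √(2 * (((A.card + ∑ j, d j + max m 1 : ℕ) : ℝ) -
            (2 * (r + min c ((c + p) / 2) : ℕ) + 1)) + 4)),
      HtVR.{u, v, w, x} κ f d A H S m θ := by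
  obtain ⟨r₀, h⟩ := final_VR.{u, v, w, x} p q ε hε
  refine ⟨r₀, fun r c d hr₀ hd1 hd κ K _ _ _ _ _ _ htr hK k _ _ _ hk n m hr ι ee f hf A hfA hdim H
    hH hgen S hS θ hθ0 hθq hθk hnum => ?_⟩
  obtain ⟨e, he1, he2, he3, he⟩ := htQ_defect.{u, v, w, x} (κ := κ) (K := K) (Q := QR θ) hp htr hk
    (m := m) hd1 (A := A) (S := S) (ee := ee) c
  obtain ⟨e', he'⟩ : ∃ e', e' = min c ((c + p) / 2) := ⟨_, rfl⟩
  rw [← he'] at hd hθk hnum
  have hee : e ≤ e' := by omega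
  obtain ⟨M, hM⟩ : ∃ M, M = ∑ j, d j := ⟨_, rfl⟩
  obtain ⟨MA, hMA⟩ : ∃ MA, MA = ∑ j ∈ A, d j := ⟨_, rfl⟩
  rw [← hM] at hd hθk hnum
  rw [← hMA] at hnum
  refine he n (r + 1) (n + e) (r + 1 + e) rfl rfl (fun f' H' hf' hfA' hdim' hH' hgen' => ?_) f H hf
    hfA hdim hH hgen
  have heeR : ((r + e : ℕ) : ℝ) ≤ ((r + e' : ℕ) : ℝ) := by exact_mod_cast (by omega : r + e ≤ r + e')
  refine h (r + e) d (by omega) hd1 (by rw [← hM]; omega) htr hK hk (n := n + e) (m := m) (by omega)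
    hf' hfA' (by rw [show r + e + 1 = r + 1 + e by omega]; exact hdim') hH' (indep_of_genK0 hgen')
    hS hθ0 hθq (by rw [← hM]; linarith) ?_
  rw [← hM, ← hMA]
  rcases hnum with ⟨h1, h2⟩ | h1
  · exact Or.inl ⟨by omega, by linarith⟩
  · exact Or.inr (num_mono hθ0 (by linarith) h1)

/-- **The height theorem for pairs on an arbitrary variety** with an explicit real constant, for
all but finitely many types. -/
theorem final_VRE (p q : ℕ) (hp : 1 ≤ p) (ε : ℝ) (hε : 0 < ε) :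
    ∃ E : Set (ℕ × ℕ × (Fin p → ℕ)), E.Finite ∧
    ∀ (r c : ℕ) (d : Fin p → ℕ), (r, c, d) ∉ E → (∀ j, 1 ≤ d j) →
    r + min c ((c + p) / 2) + 2 ≤ ∑ j, d j →
    ∀ {κ : Type u} {K : Type v} [Field κ] [IsAlgClosed κ] [CharZero κ] [Field K] [CharZero K]
      [Algebra κ K] (_ : Cardinal.aleph0 ≤ Algebra.trdeg ℚ κ) (_ : IsFF κ K)
      {k : Type x} [Field k] [CharZero k] [Algebra k K] (_ : Algebra.trdeg ℚ k < Cardinal.aleph0)
      {n m : ℕ} (_ : r ≤ n) {ι : Type} {e : ι → ℕ}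
      {f : ι → MvPolynomial (Fin p ⊕ Fin (n + 1)) k}
      (_ : ∀ i, (f i).IsWeightedHomogeneous (Sum.elim d fun _ => 1) (e i)) {A : Finset (Fin p)}
      (_ : ∀ i, ∀ j ∉ A, Sum.inl j ∉ (f i).vars)
      (_ : ringKrullDim (MvPolynomial (Fin (n + 1)) k ⧸ (Ideal.span (Set.range f)).comap
        (rename (Sum.inr : Fin (n + 1) → Fin p ⊕ Fin (n + 1)))) ≤ ((r + 1 : ℕ) : WithBot ℕ∞))
      {H : Fin p → MvPolynomial (Fin (n + 1)) K} (_ : ∀ j, (H j).IsHomogeneous (d j))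
      (_ : GenK k d H c) {S : Set (Place κ K)} (_ : S.Finite) {θ : ℝ} (_ : 0 ≤ θ) (_ : θ ≤ q)
      (_ : θ + ε ≤ ((∑ j, d j : ℕ) : ℝ) - ((r + min c ((c + p) / 2) : ℕ) + 1))
      (_ : (2 * (r + min c ((c + p) / 2)) + 1 ≤ A.card + ∑ j ∈ A, d j + max m 1 ∧
          θ < ((A.card + ∑ j, d j + max m 1 : ℕ) : ℝ) -
            (2 * (r + min c ((c + p) / 2) : ℕ) + 1)) ∨
        θ < ((A.card + ∑ j, d j + max m 1 : ℕ) : ℝ) -
            (2 * (r + min c ((c + p) / 2) : ℕ) + 1) + 2 -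
          √(2 * (((A.card + ∑ j, d j + max m 1 : ℕ) : ℝ) -
            (2 * (r + min c ((c + p) / 2) : ℕ) + 1)) + 4)),
      HtVR.{u, v, w, x} κ f d A H S m θ := by
  classical
  obtain ⟨r₀, h⟩ := final_VRD.{u, v, w, x} p q hp ε hε
  obtain ⟨a, ha⟩ : ∃ a : ℕ, ε ≤ a := exists_nat_ge ε
  refine ⟨{s | s.1 + (s.2.1 + 1) / 2 < r₀ ∧ ∑ j, s.2.2 j < 6 * r₀ + 2 * q + a + 6}, ?_, ?_⟩
  · have h1 : {s : ℕ × ℕ × (Fin p → ℕ) | s.1 + (s.2.1 + 1) / 2 < r₀ ∧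
        ∑ j, s.2.2 j < 6 * r₀ + 2 * q + a + 6} ⊆
        (Set.Iio r₀) ×ˢ ((Set.Iio (2 * r₀)) ×ˢ
          (Set.pi Set.univ fun _ => Set.Iio (6 * r₀ + 2 * q + a + 6))) := by
      rintro ⟨r, c, d⟩ ⟨h1, h2⟩
      simp only at h1 h2
      refine ⟨by show r < r₀; omega, by show c < 2 * r₀; omega, fun j _ => ?_⟩
      have h3 : d j ≤ ∑ j, d j := Finset.single_le_sum (f := d) (fun _ _ => Nat.zero_le _)
        (Finset.mem_univ j)
      show d j < 6 * r₀ + 2 * q + a + 6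
      omega
    exact ((Set.finite_Iio r₀).prod ((Set.finite_Iio (2 * r₀)).prod
      (Set.Finite.pi fun _ => Set.finite_Iio (6 * r₀ + 2 * q + a + 6)))).subset h1
  · intro r c d hE hd1 hd κ K _ _ _ _ _ _ htr hK k _ _ _ hk n m hr ι e f hf A hfA hdim H hH hgen S
      hS θ hθ0 hθq hθk hnum
    rcases le_or_gt r₀ (r + (c + 1) / 2) with h0 | h0
    · exact h r c d h0 hd1 hd htr hK hk hr hf hfA hdim hH hgen hS hθ0 hθq hθk hnum
    · obtain ⟨M, hM⟩ : ∃ M, M = ∑ j, d j := ⟨_, rfl⟩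
      obtain ⟨e', he'⟩ : ∃ e', e' = min (2 * r₀) ((2 * r₀ + p) / 2) := ⟨_, rfl⟩
      have he2 : e' ≤ 2 * r₀ := by omega
      have h1 : 6 * r₀ + 2 * q + a + 6 ≤ M := by
        by_contra hlt
        exact hE ⟨h0, by show ∑ j, d j < 6 * r₀ + 2 * q + a + 6; rw [← hM]; omega⟩
      have hM1 : (6 * r₀ + 2 * q + a + 6 : ℝ) ≤ M := by exact_mod_cast h1
      have hr1 : (r : ℝ) ≤ r₀ := by exact_mod_cast (by omega : r ≤ r₀)
      have he3 : (e' : ℝ) ≤ 2 * r₀ := by exact_mod_cast he2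
      have hq0 : (0 : ℝ) ≤ q := Nat.cast_nonneg q
      have hr00 : (0 : ℝ) ≤ r₀ := Nat.cast_nonneg r₀
      have ha0 : (0 : ℝ) ≤ a := Nat.cast_nonneg a
      refine h r (2 * r₀) d (by omega) hd1 (by rw [← hM]; omega) htr hK hk hr hf hfA hdim hH
        (genK_mono (by omega) hgen) hS hθ0 hθq ?_ (Or.inr (num_large hq0 hθq ?_))
      · rw [← hM, ← he']
        push_cast
        linarith
      · rw [← hM, ← he']
        have h2 : (M : ℝ) ≤ ((A.card + M + max m 1 : ℕ) : ℝ) := by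
          exact_mod_cast (by omega : M ≤ A.card + M + max m 1)
        push_cast at h2 ⊢
        linarith

end Pool.Agent.Lib.MP_44a246_ntUV
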