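import Mathlib
import Pool.Agent.Lib.MP_44a246_ntUV.US11
import Pool.Agent.Lib.MP_44a246_ntYT.DG02

/-!
# Theorem T2 without a bound for the constant: few relations between the coefficients
-/

namespace Pool.Agent.Lib.MP_44a246_ntUV

open Pool.Agent.Lib.MP_e52354_nt
open Pool.Agent.Lib.MP_44a246_nt
open Pool.Agent.Lib.MP_44a246_ntL
open Pool.Agent.Lib.MP_e52354_ntSD (GenK)
open MvPolynomial Module

universe u v w x

/-- **The height theorem for pairs on an arbitrary variety** whose coefficients satisfy at most `c`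
relations, with an explicit real constant: `e` is any number which is at least
`min (c, ⌊(c + p) / 2⌋)` and such that `r + e` is large. -/
theorem final_VRW (p : ℕ) (hp : 1 ≤ p) (ε : ℝ) (hε : 0 < ε) : ∃ r₀ : ℕ,
    ∀ (r c s : ℕ) (d : Fin p → ℕ), min c ((c + p) / 2) ≤ s → r₀ ≤ r + s → (∀ j, 1 ≤ d j) →
    ∀ {κ : Type u} {K : Type v} [Field κ] [IsAlgClosed κ] [CharZero κ] [Field K] [CharZero K]
      [Algebra κ K] (_ : Cardinal.aleph0 ≤ Algebra.trdeg ℚ κ) (_ : IsFF κ K)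
      {k : Type x} [Field k] [CharZero k] [Algebra k K] (_ : Algebra.trdeg ℚ k < Cardinal.aleph0)
      {n m : ℕ} (_ : r ≤ n) {ι : Type} {e : ι → ℕ}
      {f : ι → MvPolynomial (Fin p ⊕ Fin (n + 1)) k}
      (_ : ∀ i, (f i).IsWeightedHomogeneous (Sum.elim d fun _ => 1) (e i)) {A : Finset (Fin p)}
      (_ : ∀ i, ∀ j ∉ A, Sum.inl j ∉ (f i).vars)
      (_ : ringKrullDim (MvPolynomial (Fin (n + 1)) k ⧸ (Ideal.span (Set.range f)).comap
        (rename (Sum.inr : Fin (n + 1) → Fin p ⊕ Fin (n + 1)))) ≤ ((r + 1 : ℕ) : WithBot ℕ∞))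
      {H : Fin p → MvPolynomial (Fin (n + 1)) K} (_ : ∀ j, (H j).IsHomogeneous (d j))
      (_ : GenK k d H c) {S : Set (Place κ K)} (_ : S.Finite) {θ : ℝ} (_ : 0 ≤ θ)
      (_ : θ + ε ≤ ((∑ j, d j : ℕ) : ℝ) - ((r + s : ℕ) + 1))
      (_ : (2 * (r + s) + 1 ≤ A.card + ∑ j ∈ A, d j + max m 1 ∧
          θ < ((A.card + ∑ j, d j + max m 1 : ℕ) : ℝ) - (2 * (r + s : ℕ) + 1)) ∨
        θ < ((A.card + ∑ j, d j + max m 1 : ℕ) : ℝ) - (2 * (r + s : ℕ) + 1) + 2 -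
          √(2 * (((A.card + ∑ j, d j + max m 1 : ℕ) : ℝ) - (2 * (r + s : ℕ) + 1)) + 4)),
      HtVR.{u, v, w, x} κ f d A H S m θ := by
  obtain ⟨r₀, h⟩ := final_VRU.{u, v, w, x} p ε hε
  refine ⟨r₀ + p, fun r c s d hcs hr₀ hd1 κ K _ _ _ _ _ _ htr hK k _ _ _ hk n m hr ι ee f hf A hfA
    hdim H hH hgen S hS θ hθ0 hθk hnum => ?_⟩
  obtain ⟨c', hc'⟩ : ∃ c', c' = max c (2 * s - p) := ⟨_, rfl⟩
  obtain ⟨e, he1, he2, he3, he⟩ := htQ_defect.{u, v, w, x} (κ := κ) (K := K) (Q := QR θ) hp htr hk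
    (m := m) hd1 (A := A) (S := S) (ee := ee) c'
  have hee : e ≤ s := by omega
  have her : r₀ ≤ r + e := by omega
  obtain ⟨M, hM⟩ : ∃ M, M = ∑ j, d j := ⟨_, rfl⟩
  obtain ⟨MA, hMA⟩ : ∃ MA, MA = ∑ j ∈ A, d j := ⟨_, rfl⟩
  rw [← hM] at hθk hnum
  rw [← hMA] at hnum
  have hMs : r + s + 2 ≤ M := by
    have h1 : ((r + s : ℕ) : ℝ) + 1 < (M : ℝ) := by linarith
    have h2 : r + s + 1 < M := by exact_mod_cast h1
    omega
  have heeR : ((r + e : ℕ) : ℝ) ≤ ((r + s : ℕ) : ℝ) := by exact_mod_cast (by omega : r + e ≤ r + s)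
  refine he n (r + 1) (n + e) (r + 1 + e) rfl rfl (fun f' H' hf' hfA' hdim' hH' hgen' => ?_) f H hf
    hfA hdim hH (genK_mono (by omega) hgen)
  refine h (r + e) d her hd1 (by rw [← hM]; omega) htr hK hk (n := n + e) (m := m) (by omega)
    hf' hfA' (by rw [show r + e + 1 = r + 1 + e by omega]; exact hdim') hH' (indep_of_genK0 hgen')
    hS hθ0 (by rw [← hM]; linarith) ?_
  rw [← hM, ← hMA]
  rcases hnum with ⟨h1, h2⟩ | h1
  · exact Or.inl ⟨by omega, by linarith⟩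
  · exact Or.inr (num_mono hθ0 (by linarith) h1)

end Pool.Agent.Lib.MP_44a246_ntUV
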